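import Pool.Agent.H844R2.Defs

open Set Filter Topology
open scoped ContDiff

namespace Pool.Agent.H844R2

section Pullback

variable {G E : Type*} [NormedAddCommGroup G] [NormedSpace ℝ G]
  [NormedAddCommGroup E] [NormedSpace ℝ E]

/-- pull-back of a two-form, evaluated -/
noncomputable def pb (Ω : E → E →L[ℝ] E →L[ℝ] ℝ) (F : G → E) (y u w : G) : ℝ :=
  Ω (F y) (fderiv ℝ F y u) (fderiv ℝ F y w)

lemma hasFDerivAt_pb {Ω : E → E →L[ℝ] E →L[ℝ] ℝ} {F : G → E} {y : G}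
    (hF : ContDiffAt ℝ 2 F y) (hΩ : DifferentiableAt ℝ Ω (F y)) (u w : G) :
    HasFDerivAt (fun y => pb Ω F y u w)
      ((((Ω (F y) (fderiv ℝ F y u)).comp ((fderiv ℝ (fderiv ℝ F) y).flip w)) +
        (((Ω (F y)).comp ((fderiv ℝ (fderiv ℝ F) y).flip u)).flip (fderiv ℝ F y w))) +
        ((((fderiv ℝ Ω (F y)).comp (fderiv ℝ F y)).flip (fderiv ℝ F y u)).flip
          (fderiv ℝ F y w))) y := by
  have hF1 : HasFDerivAt F (fderiv ℝ F y) y :=
    (hF.differentiableAt (by norm_num)).hasFDerivAt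
  have hF2 : HasFDerivAt (fderiv ℝ F) (fderiv ℝ (fderiv ℝ F) y) y :=
    ((hF.fderiv_right (m := 1) (by norm_num)).differentiableAt (by norm_num)).hasFDerivAt
  have hu : HasFDerivAt (fun y => fderiv ℝ F y u) ((fderiv ℝ (fderiv ℝ F) y).flip u) y := by
    have := hF2.clm_apply (hasFDerivAt_const u y)
    refine this.congr_fderiv ?_
    ext z; simp
  have hw : HasFDerivAt (fun y => fderiv ℝ F y w) ((fderiv ℝ (fderiv ℝ F) y).flip w) y := by
    have := hF2.clm_apply (hasFDerivAt_const w y)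
    refine this.congr_fderiv ?_
    ext z; simp
  have hc : HasFDerivAt (fun y => Ω (F y)) ((fderiv ℝ Ω (F y)).comp (fderiv ℝ F y)) y :=
    HasFDerivAt.comp (g := Ω) (f := F) y hΩ.hasFDerivAt hF1
  have h1 := hc.clm_apply hu
  have h2 := h1.clm_apply hw
  refine h2.congr_fderiv ?_
  ext z
  simp
  ring

lemma fderiv_pb {Ω : E → E →L[ℝ] E →L[ℝ] ℝ} {F : G → E} {y : G}
    (hF : ContDiffAt ℝ 2 F y) (hΩ : DifferentiableAt ℝ Ω (F y)) (z u w : G) :
    fderiv ℝ (fun y => pb Ω F y u w) y z =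
      fderiv ℝ Ω (F y) (fderiv ℝ F y z) (fderiv ℝ F y u) (fderiv ℝ F y w) +
      Ω (F y) (fderiv ℝ (fderiv ℝ F) y z u) (fderiv ℝ F y w) +
      Ω (F y) (fderiv ℝ F y u) (fderiv ℝ (fderiv ℝ F) y z w) := by
  rw [(hasFDerivAt_pb hF hΩ u w).fderiv]
  simp
  ring

/-- the pull-back of a closed form is closed -/
lemma pb_closed {Ω : E → E →L[ℝ] E →L[ℝ] ℝ} {F : G → E} {y : G}
    (hF : ContDiffAt ℝ 2 F y) (hΩ : DifferentiableAt ℝ Ω (F y))
    (halt : ∀ u v, Ω (F y) u v = - Ω (F y) v u)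
    (hcl : ∀ u v w, fderiv ℝ Ω (F y) u v w + fderiv ℝ Ω (F y) v w u + fderiv ℝ Ω (F y) w u v = 0)
    (u v w : G) :
    fderiv ℝ (fun y => pb Ω F y v w) y u + fderiv ℝ (fun y => pb Ω F y w u) y v +
      fderiv ℝ (fun y => pb Ω F y u v) y w = 0 := by
  have hs : IsSymmSndFDerivAt ℝ F y := hF.isSymmSndFDerivAt (by simp)
  rw [fderiv_pb hF hΩ, fderiv_pb hF hΩ, fderiv_pb hF hΩ]
  have h1 := hs u v
  have h2 := hs v w
  have h3 := hs w u
  rw [h1, h2, h3]
  have := hcl (fderiv ℝ F y u) (fderiv ℝ F y v) (fderiv ℝ F y w)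
  have a1 := halt (fderiv ℝ F y v) (fderiv ℝ (fderiv ℝ F) y u w)
  have a2 := halt (fderiv ℝ F y w) (fderiv ℝ (fderiv ℝ F) y v u)
  have a3 := halt (fderiv ℝ F y u) (fderiv ℝ (fderiv ℝ F) y w v)
  linarith

end Pullback

section HamPaths

variable {E : Type} [NormedAddCommGroup E] [NormedSpace ℝ E]

/-- `Φ` (inverse `Φi`) is a smooth path of symplectomorphisms of `(X, Ω)` generated by `H`;
no support condition, and `Φ 0` is arbitrary. -/
structure HamPath (X : Set E) (Ω : E → E →L[ℝ] E →L[ℝ] ℝ) (Φ Φi : ℝ → E → E) (H : ℝ → E → ℝ) :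
    Prop where
  smooth : ContDiffOn ℝ ∞ (fun p : ℝ × E => Φ p.1 p.2) (univ ×ˢ X)
  smoothInv : ContDiffOn ℝ ∞ (fun p : ℝ × E => Φi p.1 p.2) (univ ×ˢ X)
  smoothH : ContDiffOn ℝ ∞ (fun p : ℝ × E => H p.1 p.2) (univ ×ˢ X)
  maps : ∀ t, MapsTo (Φ t) X X
  mapsInv : ∀ t, MapsTo (Φi t) X X
  left : ∀ t, ∀ x ∈ X, Φi t (Φ t x) = x
  right : ∀ t, ∀ x ∈ X, Φ t (Φi t x) = x
  ham : ∀ t, ∀ x ∈ X, ∀ w, Ω (Φ t x) (deriv (fun τ => Φ τ x) t) w = fderiv ℝ (H t) (Φ t x) w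
  sympl : ∀ t, ∀ x ∈ X, ∀ v w,
    Ω (Φ t x) (fderiv ℝ (Φ t) x v) (fderiv ℝ (Φ t) x w) = Ω x v w

section Joint

variable {V : Type*} [NormedAddCommGroup V] [NormedSpace ℝ V]

lemma joint_contDiffAt {X : Set E} (hX : IsOpen X) {Φ : ℝ → E → V}
    (h : ContDiffOn ℝ ∞ (fun p : ℝ × E => Φ p.1 p.2) (univ ×ˢ X)) (t : ℝ) {x : E} (hx : x ∈ X) :
    ContDiffAt ℝ ∞ (fun p : ℝ × E => Φ p.1 p.2) (t, x) :=
  h.contDiffAt ((isOpen_univ.prod hX).mem_nhds ⟨mem_univ _, hx⟩)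

lemma joint_hasFDerivAt {Φ : ℝ → E → V} {t : ℝ} {x : E}
    (h : ContDiffAt ℝ ∞ (fun p : ℝ × E => Φ p.1 p.2) (t, x)) :
    HasFDerivAt (fun p : ℝ × E => Φ p.1 p.2) (fderiv ℝ (fun p : ℝ × E => Φ p.1 p.2) (t, x)) (t, x) :=
  (h.differentiableAt (by simp)).hasFDerivAt

lemma joint_space {Φ : ℝ → E → V} {t : ℝ} {x : E}
    (h : ContDiffAt ℝ ∞ (fun p : ℝ × E => Φ p.1 p.2) (t, x)) :
    HasFDerivAt (Φ t) ((fderiv ℝ (fun p : ℝ × E => Φ p.1 p.2) (t, x)).comp
      (ContinuousLinearMap.inr ℝ ℝ E)) x := by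
  have h1 : HasFDerivAt (fun y : E => ((t, y) : ℝ × E)) (ContinuousLinearMap.inr ℝ ℝ E) x := by
    have := (hasFDerivAt_const t x).prodMk (hasFDerivAt_id (𝕜 := ℝ) x)
    refine this.congr_fderiv ?_
    ext z <;> simp
  exact HasFDerivAt.comp (g := fun p : ℝ × E => Φ p.1 p.2) (f := fun y : E => ((t, y) : ℝ × E)) x
    (joint_hasFDerivAt h) h1

lemma joint_time {Φ : ℝ → E → V} {t : ℝ} {x : E}
    (h : ContDiffAt ℝ ∞ (fun p : ℝ × E => Φ p.1 p.2) (t, x)) :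
    HasDerivAt (fun τ => Φ τ x) (fderiv ℝ (fun p : ℝ × E => Φ p.1 p.2) (t, x) (1, 0)) t := by
  have h1 : HasDerivAt (fun τ : ℝ => ((τ, x) : ℝ × E)) ((1 : ℝ), (0 : E)) t :=
    (hasDerivAt_id t).prodMk (hasDerivAt_const t x)
  exact HasFDerivAt.comp_hasDerivAt (f := fun τ : ℝ => ((τ, x) : ℝ × E)) t (joint_hasFDerivAt h) h1

lemma joint_apply {Φ : ℝ → E → V} {t : ℝ} {x : E}
    (h : ContDiffAt ℝ ∞ (fun p : ℝ × E => Φ p.1 p.2) (t, x)) (a : ℝ) (v : E) :
    fderiv ℝ (fun p : ℝ × E => Φ p.1 p.2) (t, x) (a, v) =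
      a • deriv (fun τ => Φ τ x) t + fderiv ℝ (Φ t) x v := by
  rw [(joint_time h).deriv, (joint_space h).fderiv]
  have : ((a, v) : ℝ × E) = a • ((1 : ℝ), (0 : E)) + ((0 : ℝ), v) := by simp
  rw [this, map_add, map_smul]
  simp

/-- differentiating a composition along a curve -/
lemma joint_curve {Φ : ℝ → E → V} {t : ℝ} {c : ℝ → E} {c' : E}
    (h : ContDiffAt ℝ ∞ (fun p : ℝ × E => Φ p.1 p.2) (t, c t)) (hc : HasDerivAt c c' t) :
    HasDerivAt (fun τ => Φ τ (c τ)) (deriv (fun τ => Φ τ (c t)) t + fderiv ℝ (Φ t) (c t) c') t := by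
  have h1 : HasDerivAt (fun τ : ℝ => ((τ, c τ) : ℝ × E)) ((1 : ℝ), c') t :=
    (hasDerivAt_id t).prodMk hc
  have h2 := HasFDerivAt.comp_hasDerivAt (f := fun τ : ℝ => ((τ, c τ) : ℝ × E)) t
    (joint_hasFDerivAt h) h1
  have h3 := joint_apply h 1 c'
  rw [one_smul] at h3
  rw [← h3]
  exact h2

end Joint

omit [NormedSpace ℝ E] in
lemma IsOpen.eventually_mem' {X : Set E} (hX : IsOpen X) {x : E} (hx : x ∈ X) :
    ∀ᶠ y in 𝓝 x, y ∈ X := hX.mem_nhds hx

variable {X : Set E} {Ω : E → E →L[ℝ] E →L[ℝ] ℝ}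

namespace HamPath

variable {Φ Φi : ℝ → E → E} {H : ℝ → E → ℝ} {Ψ Ψi : ℝ → E → E} {G : ℝ → E → ℝ}

lemma cd (h : HamPath X Ω Φ Φi H) (hX : IsOpen X) (t : ℝ) {x : E} (hx : x ∈ X) :
    ContDiffAt ℝ ∞ (fun p : ℝ × E => Φ p.1 p.2) (t, x) := joint_contDiffAt hX h.smooth t hx

lemma cdi (h : HamPath X Ω Φ Φi H) (hX : IsOpen X) (t : ℝ) {x : E} (hx : x ∈ X) :
    ContDiffAt ℝ ∞ (fun p : ℝ × E => Φi p.1 p.2) (t, x) := joint_contDiffAt hX h.smoothInv t hx

lemma cdH (h : HamPath X Ω Φ Φi H) (hX : IsOpen X) (t : ℝ) {x : E} (hx : x ∈ X) :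
    ContDiffAt ℝ ∞ (fun p : ℝ × E => H p.1 p.2) (t, x) := joint_contDiffAt hX h.smoothH t hx

lemma diff (h : HamPath X Ω Φ Φi H) (hX : IsOpen X) (t : ℝ) {x : E} (hx : x ∈ X) :
    DifferentiableAt ℝ (Φ t) x := (joint_space (h.cd hX t hx)).differentiableAt

lemma diffi (h : HamPath X Ω Φ Φi H) (hX : IsOpen X) (t : ℝ) {x : E} (hx : x ∈ X) :
    DifferentiableAt ℝ (Φi t) x := (joint_space (h.cdi hX t hx)).differentiableAt

lemma diffH (h : HamPath X Ω Φ Φi H) (hX : IsOpen X) (t : ℝ) {x : E} (hx : x ∈ X) :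
    DifferentiableAt ℝ (H t) x := (joint_space (h.cdH hX t hx)).differentiableAt

/-- `DΦ ∘ DΦ⁻¹ = id` -/
lemma fderiv_right (h : HamPath X Ω Φ Φi H) (hX : IsOpen X) (t : ℝ) {x : E} (hx : x ∈ X) (w : E) :
    fderiv ℝ (Φ t) (Φi t x) (fderiv ℝ (Φi t) x w) = w := by
  have h1 := (h.diff hX t (h.mapsInv t hx)).hasFDerivAt.comp x (h.diffi hX t hx).hasFDerivAt
  have h2 : HasFDerivAt (Φ t ∘ Φi t) (ContinuousLinearMap.id ℝ E) x := by
    refine (hasFDerivAt_id x).congr_of_eventuallyEq ?_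
    filter_upwards [IsOpen.eventually_mem' hX hx] with y hy
    exact h.right t y hy
  have h3 := h1.unique h2
  have := congrArg (fun L : E →L[ℝ] E => L w) h3
  simpa using this

lemma fderiv_left (h : HamPath X Ω Φ Φi H) (hX : IsOpen X) (t : ℝ) {x : E} (hx : x ∈ X) (w : E) :
    fderiv ℝ (Φi t) (Φ t x) (fderiv ℝ (Φ t) x w) = w := by
  have h1 := (h.diffi hX t (h.maps t hx)).hasFDerivAt.comp x (h.diff hX t hx).hasFDerivAt
  have h2 : HasFDerivAt (Φi t ∘ Φ t) (ContinuousLinearMap.id ℝ E) x := by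
    refine (hasFDerivAt_id x).congr_of_eventuallyEq ?_
    filter_upwards [IsOpen.eventually_mem' hX hx] with y hy
    exact h.left t y hy
  have h3 := h1.unique h2
  have := congrArg (fun L : E →L[ℝ] E => L w) h3
  simpa using this

/-- composition of Hamiltonian paths -/
lemma comp (hX : IsOpen X) (h : HamPath X Ω Φ Φi H) (g : HamPath X Ω Ψ Ψi G) :
    HamPath X Ω (fun t x => Φ t (Ψ t x)) (fun t x => Ψi t (Φi t x))
      (fun t x => H t x + G t (Φi t x)) where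
  smooth := by
    have h1 : ContDiffOn ℝ ∞ (fun p : ℝ × E => ((p.1, Ψ p.1 p.2) : ℝ × E)) (univ ×ˢ X) :=
      contDiff_fst.contDiffOn.prodMk g.smooth
    exact h.smooth.comp h1 (fun p hp => ⟨mem_univ _, g.maps p.1 hp.2⟩)
  smoothInv := by
    have h1 : ContDiffOn ℝ ∞ (fun p : ℝ × E => ((p.1, Φi p.1 p.2) : ℝ × E)) (univ ×ˢ X) :=
      contDiff_fst.contDiffOn.prodMk h.smoothInv
    exact g.smoothInv.comp h1 (fun p hp => ⟨mem_univ _, h.mapsInv p.1 hp.2⟩)
  smoothH := by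
    have h1 : ContDiffOn ℝ ∞ (fun p : ℝ × E => ((p.1, Φi p.1 p.2) : ℝ × E)) (univ ×ˢ X) :=
      contDiff_fst.contDiffOn.prodMk h.smoothInv
    exact h.smoothH.add (g.smoothH.comp h1 (fun p hp => ⟨mem_univ _, h.mapsInv p.1 hp.2⟩))
  maps t x hx := h.maps t (g.maps t hx)
  mapsInv t x hx := g.mapsInv t (h.mapsInv t hx)
  left t x hx := by
    rw [h.left t _ (g.maps t hx), g.left t x hx]
  right t x hx := by
    rw [g.right t _ (h.mapsInv t hx), h.right t x hx]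
  ham t x hx w := by
    have hy := g.maps t hx
    set y := Ψ t x with hydef
    have hc : HasDerivAt (fun τ => Ψ τ x) (deriv (fun τ => Ψ τ x) t) t :=
      (joint_time (g.cd hX t hx)).differentiableAt.hasDerivAt
    have h1 := joint_curve (Φ := Φ) (t := t) (c := fun τ => Ψ τ x) (h.cd hX t hy) hc
    rw [h1.deriv, map_add, _root_.add_apply]
    have hz := h.maps t hy
    have e1 : fderiv ℝ (fun x => H t x + G t (Φi t x)) (Φ t y) w =
        fderiv ℝ (H t) (Φ t y) w + fderiv ℝ (G t) y (fderiv ℝ (Φi t) (Φ t y) w) := by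
      have hi := h.left t y hy
      have d1 := (h.diffH hX t hz).hasFDerivAt
      have d2 : HasFDerivAt (G t) (fderiv ℝ (G t) y) (Φi t (Φ t y)) := by
        rw [hi]; exact (g.diffH hX t hy).hasFDerivAt
      have d3 := d2.comp (Φ t y) (h.diffi hX t hz).hasFDerivAt
      have d4 := d1.add d3
      have d5 : HasFDerivAt (fun x => H t x + G t (Φi t x)) (fderiv ℝ (H t) (Φ t y) +
        (fderiv ℝ (G t) y).comp (fderiv ℝ (Φi t) (Φ t y))) (Φ t y) := d4
      rw [d5.fderiv]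
      simp
    rw [e1]
    have e2 := h.ham t y hy w
    have e3 : w = fderiv ℝ (Φ t) y (fderiv ℝ (Φi t) (Φ t y) w) := by
      have := h.fderiv_right hX t hz w
      rw [h.left t y hy] at this
      exact this.symm
    have e4 : Ω (Φ t y) (fderiv ℝ (Φ t) y (deriv (fun τ => Ψ τ x) t)) w =
        fderiv ℝ (G t) y (fderiv ℝ (Φi t) (Φ t y) w) := by
      rw [← g.ham t x hx]
      conv_lhs => rw [e3]
      exact h.sympl t y hy _ _
    rw [← e4, ← e2]
  sympl t x hx v w := by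
    have hy := g.maps t hx
    have h1 := (h.diff hX t hy).hasFDerivAt.comp x (g.diff hX t hx).hasFDerivAt
    have h2 : HasFDerivAt (fun x => Φ t (Ψ t x)) ((fderiv ℝ (Φ t) (Ψ t x)).comp
      (fderiv ℝ (Ψ t) x)) x := h1
    rw [h2.fderiv]
    simp only [ContinuousLinearMap.comp_apply]
    rw [h.sympl t _ hy, g.sympl t x hx]

/-- inverse of a Hamiltonian path -/
lemma inv (hX : IsOpen X) (h : HamPath X Ω Φ Φi H) :
    HamPath X Ω Φi Φ (fun t x => - H t (Φ t x)) where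
  smooth := h.smoothInv
  smoothInv := h.smooth
  smoothH := by
    have h1 : ContDiffOn ℝ ∞ (fun p : ℝ × E => ((p.1, Φ p.1 p.2) : ℝ × E)) (univ ×ˢ X) :=
      contDiff_fst.contDiffOn.prodMk h.smooth
    exact (h.smoothH.comp h1 (fun p hp => ⟨mem_univ _, h.maps p.1 hp.2⟩)).neg
  maps := h.mapsInv
  mapsInv := h.maps
  left := h.right
  right := h.left
  ham t x hx w := by
    have hy := h.mapsInv t hx
    have hc : HasDerivAt (fun τ => Φi τ x) (deriv (fun τ => Φi τ x) t) t :=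
      (joint_time (h.cdi hX t hx)).differentiableAt.hasDerivAt
    have h1 := joint_curve (Φ := Φ) (t := t) (c := fun τ => Φi τ x) (h.cd hX t hy) hc
    have h2 : HasDerivAt (fun τ => Φ τ (Φi τ x)) 0 t := by
      have : (fun τ => Φ τ (Φi τ x)) = fun _ => x := by
        ext τ; exact h.right τ x hx
      rw [this]; exact hasDerivAt_const t x
    have h3 := h1.unique h2
    have h4 : fderiv ℝ (Φ t) (Φi t x) (deriv (fun τ => Φi τ x) t) =
        - deriv (fun τ => Φ τ (Φi t x)) t := by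
      rw [eq_neg_iff_add_eq_zero, add_comm]; exact h3
    rw [← h.sympl t _ hy, h4, h.right t x hx]
    have h5 := h.ham t _ hy (fderiv ℝ (Φ t) (Φi t x) w)
    rw [h.right t x hx] at h5
    rw [map_neg, _root_.neg_apply, h5]
    have d1 : HasFDerivAt (H t) (fderiv ℝ (H t) x) (Φ t (Φi t x)) := by
      rw [h.right t x hx]; exact (h.diffH hX t hx).hasFDerivAt
    have d2 := (d1.comp (Φi t x) (h.diff hX t hy).hasFDerivAt).neg
    have d3 : HasFDerivAt (fun x => - H t (Φ t x)) (-((fderiv ℝ (H t) x).comp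
      (fderiv ℝ (Φ t) (Φi t x)))) (Φi t x) := d2
    rw [d3.fderiv]
    simp
  sympl t x hx v w := by
    have hy := h.mapsInv t hx
    rw [← h.sympl t _ hy, h.right t x hx, h.fderiv_right hX t hx, h.fderiv_right hX t hx]

/-- a static symplectomorphism -/
lemma static (h : HamPath X Ω Φ Φi H) (τ : ℝ) :
    HamPath X Ω (fun _ => Φ τ) (fun _ => Φi τ) (fun _ _ => 0) where
  smooth := by
    have h1 : ContDiffOn ℝ ∞ (fun p : ℝ × E => ((τ, p.2) : ℝ × E)) (univ ×ˢ X) :=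
      (contDiff_const.prodMk contDiff_snd).contDiffOn
    exact h.smooth.comp h1 (fun p hp => ⟨mem_univ _, hp.2⟩)
  smoothInv := by
    have h1 : ContDiffOn ℝ ∞ (fun p : ℝ × E => ((τ, p.2) : ℝ × E)) (univ ×ˢ X) :=
      (contDiff_const.prodMk contDiff_snd).contDiffOn
    exact h.smoothInv.comp h1 (fun p hp => ⟨mem_univ _, hp.2⟩)
  smoothH := contDiffOn_const
  maps _ := h.maps τ
  mapsInv _ := h.mapsInv τ
  left _ := h.left τ
  right _ := h.right τ
  ham t x hx w := by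
    simp
  sympl _ := h.sympl τ

/-- change of speed -/
lemma speed (hX : IsOpen X) (h : HamPath X Ω Φ Φi H) (c : ℝ) :
    HamPath X Ω (fun t => Φ (c * t)) (fun t => Φi (c * t)) (fun t x => c * H (c * t) x) where
  smooth := by
    have h1 : ContDiffOn ℝ ∞ (fun p : ℝ × E => ((c * p.1, p.2) : ℝ × E)) (univ ×ˢ X) :=
      ((contDiff_const.mul contDiff_fst).prodMk contDiff_snd).contDiffOn
    exact h.smooth.comp h1 (fun p hp => ⟨mem_univ _, hp.2⟩)
  smoothInv := by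
    have h1 : ContDiffOn ℝ ∞ (fun p : ℝ × E => ((c * p.1, p.2) : ℝ × E)) (univ ×ˢ X) :=
      ((contDiff_const.mul contDiff_fst).prodMk contDiff_snd).contDiffOn
    exact h.smoothInv.comp h1 (fun p hp => ⟨mem_univ _, hp.2⟩)
  smoothH := by
    have h1 : ContDiffOn ℝ ∞ (fun p : ℝ × E => ((c * p.1, p.2) : ℝ × E)) (univ ×ˢ X) :=
      ((contDiff_const.mul contDiff_fst).prodMk contDiff_snd).contDiffOn
    exact contDiffOn_const.mul (h.smoothH.comp h1 (fun p hp => ⟨mem_univ _, hp.2⟩))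
  maps t := h.maps (c * t)
  mapsInv t := h.mapsInv (c * t)
  left t := h.left (c * t)
  right t := h.right (c * t)
  ham t x hx w := by
    have h1 : HasDerivAt (fun τ => Φ τ x) (deriv (fun τ => Φ τ x) (c * t)) (c * t) :=
      (joint_time (h.cd hX (c * t) hx)).differentiableAt.hasDerivAt
    have h2 : HasDerivAt (fun τ : ℝ => c * τ) c t := by
      simpa using (hasDerivAt_id t).const_mul c
    have h3 : HasDerivAt (fun τ => Φ (c * τ) x) (c • deriv (fun τ => Φ τ x) (c * t)) t :=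
      h1.scomp t h2
    rw [h3.deriv, map_smul, _root_.smul_apply, h.ham (c * t) x hx w]
    have hz := h.maps (c * t) hx
    rw [((h.diffH hX (c * t) hz).hasFDerivAt.const_mul c).fderiv]
    simp
  sympl t := h.sympl (c * t)

end HamPath

end HamPaths

end Pool.Agent.H844R2
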