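import Pool.Agent.H844R2.NonHam

open Set Filter Topology
open scoped ContDiff

namespace Pool.Agent.H844R2

lemma mem_VV_iff {p : E4} : p ∈ VV ↔ (p.1 ^ 2 + p.2.1 ^ 2 ≠ 0 ∨ 0 < p.2.2.1) := by
  have hr := rad_nonneg p
  have hs := rad_sq p
  change 0 < rad p + p.2.2.1 ↔ _
  constructor
  · intro h
    by_contra hc
    rw [not_or, not_not, not_lt] at hc
    obtain ⟨h1, h2⟩ := hc
    have h3 : rad p ^ 2 = p.2.2.1 ^ 2 := by linarith
    nlinarith
  · rintro (h | h)
    · have h1 : 0 < p.1 ^ 2 + p.2.1 ^ 2 := lt_of_le_of_ne (by positivity) (Ne.symm h)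
      have h2 : |p.2.2.1| < rad p := by
        apply abs_lt_of_sq_lt_sq _ hr
        linarith
      rw [abs_lt] at h2
      linarith [h2.1]
    · have h2 : 0 < rad p := by
        by_contra hc
        have : rad p = 0 := le_antisymm (not_lt.1 hc) hr
        rw [this] at hs
        nlinarith [sq_nonneg p.1, sq_nonneg p.2.1]
      linarith

/-- segments from points of the chart region to the positive axis stay in the chart region -/
lemma segment_VV {p : E4} (hp : p ∈ VV) {h s : ℝ} (hh : 0 < h) :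
    segment ℝ p ((0, 0, h, s) : E4) ⊆ VV := by
  rintro q ⟨a, b, ha, hb, hab, rfl⟩
  rw [mem_VV_iff] at hp ⊢
  simp only [Prod.smul_fst, Prod.fst_add, Prod.snd_add, Prod.smul_snd, smul_eq_mul, mul_zero,
    add_zero]
  rcases eq_or_lt_of_le ha with ha0 | ha0
  · right
    have : b = 1 := by linarith
    rw [← ha0, this]; simpa using hh
  · rcases hp with hp | hp
    · left
      intro hc
      apply hp
      have : a ^ 2 * (p.1 ^ 2 + p.2.1 ^ 2) = 0 := by linarith
      exact (mul_eq_zero.1 this).resolve_left (by positivity)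
    · right
      have : 0 < a * p.2.2.1 := by positivity
      have h2 : 0 ≤ b * h := by positivity
      linarith

def Q1 : E4 := (0, 0, 2, 1)
def Q2 : E4 := (0, 0, 2, -1)
def Q3 : E4 := (0, 0, 1, 0)

lemma VV_sub_XX : VV ⊆ XX := fun _ h => Or.inl h

lemma seg_MX {p : E4} (hp : p ∈ VV) {h s : ℝ} (hh : 0 < h)
    (hP : P0 ∉ segment ℝ p ((0, 0, h, s) : E4)) : segment ℝ p ((0, 0, h, s) : E4) ⊆ MX := by
  intro q hq
  refine ⟨VV_sub_XX (segment_VV hp hh hq), ?_⟩
  rintro rfl
  exact hP hq

lemma preconn_segment (p q : E4) : IsPreconnected (segment ℝ p q) :=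
  (convex_segment p q).isPreconnected

lemma conn_VV {p : E4} (hp : p ∈ VV) (hne : p ≠ P0) :
    ∃ t ⊆ MX, Q1 ∈ t ∧ p ∈ t ∧ IsPreconnected t := by
  by_cases h1 : P0 ∈ segment ℝ p Q1
  · -- then go through `Q2` and `Q3`
    have h2 : P0 ∉ segment ℝ p Q2 := by
      intro h2
      obtain ⟨a, b, ha, hb, hab, e⟩ := h1
      obtain ⟨a', b', ha', hb', hab', e'⟩ := h2
      simp only [Q1, Q2, P0, Prod.ext_iff, Prod.smul_fst, Prod.fst_add, Prod.snd_add,
        Prod.smul_snd, smul_eq_mul, mul_zero, add_zero] at e e'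
      obtain ⟨e1, e2, e3, e4⟩ := e
      obtain ⟨e1', e2', e3', e4'⟩ := e'
      have ha0 : a ≠ 0 := by
        rintro rfl
        have : b = 1 := by linarith
        rw [this] at e4; norm_num at e4
      have ha0' : a' ≠ 0 := by
        rintro rfl
        have : b' = 1 := by linarith
        rw [this] at e4'; norm_num at e4'
      have hap : 0 < a := lt_of_le_of_ne ha (Ne.symm ha0)
      have hap' : 0 < a' := lt_of_le_of_ne ha' (Ne.symm ha0')
      have p1 : p.1 = 0 := (mul_eq_zero.1 e1).resolve_left ha0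
      have p2 : p.2.1 = 0 := (mul_eq_zero.1 e2).resolve_left ha0
      have p3 : p.2.2.1 = 2 := by
        have : a * (p.2.2.1 - 2) = 0 := by nlinarith
        have := (mul_eq_zero.1 this).resolve_left ha0
        linarith
      have p4 : p.2.2.2 ≤ 0 := by
        by_contra hc
        have : 0 < a * p.2.2.2 := mul_pos hap (not_le.1 hc)
        linarith
      have p4' : 0 ≤ p.2.2.2 := by
        by_contra hc
        have : a' * p.2.2.2 < 0 := mul_neg_of_pos_of_neg hap' (not_le.1 hc)
        linarith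
      exact hne (Prod.ext p1 (Prod.ext p2 (Prod.ext p3 (le_antisymm p4 p4'))))
    have hQ2V : Q2 ∈ VV := mem_VV_iff.2 (Or.inr (by simp [Q2]))
    have hQ3V : Q3 ∈ VV := mem_VV_iff.2 (Or.inr (by simp [Q3]))
    have h3 : P0 ∉ segment ℝ Q2 Q3 := by
      rintro ⟨a, b, ha, hb, hab, e⟩
      simp only [Q2, Q3, P0, Prod.ext_iff, Prod.smul_fst, Prod.fst_add, Prod.snd_add,
        Prod.smul_snd, smul_eq_mul, mul_zero, add_zero] at e
      obtain ⟨-, -, e3, e4⟩ := e
      linarith
    have h4 : P0 ∉ segment ℝ Q3 Q1 := by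
      rintro ⟨a, b, ha, hb, hab, e⟩
      simp only [Q1, Q3, P0, Prod.ext_iff, Prod.smul_fst, Prod.fst_add, Prod.snd_add,
        Prod.smul_snd, smul_eq_mul, mul_zero, add_zero, zero_add] at e
      obtain ⟨-, -, e3, e4⟩ := e
      linarith
    refine ⟨(segment ℝ p Q2 ∪ segment ℝ Q2 Q3) ∪ segment ℝ Q3 Q1,
      union_subset (union_subset (seg_MX hp (by norm_num) h2) (seg_MX hQ2V (by norm_num) h3))
        (seg_MX hQ3V (by norm_num) h4), Or.inr (right_mem_segment ℝ _ _),
      Or.inl (Or.inl (left_mem_segment ℝ _ _)), ?_⟩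
    refine IsPreconnected.union Q3 (Or.inr (right_mem_segment ℝ _ _)) (left_mem_segment ℝ _ _) ?_
      (preconn_segment _ _)
    exact IsPreconnected.union Q2 (right_mem_segment ℝ _ _) (left_mem_segment ℝ _ _)
      (preconn_segment _ _) (preconn_segment _ _)
  · exact ⟨segment ℝ p Q1, seg_MX hp (by norm_num) h1, right_mem_segment ℝ _ _,
      left_mem_segment ℝ _ _, preconn_segment _ _⟩

theorem connected_MX : IsConnected MX := by
  have hQ1 : Q1 ∈ MX := by
    refine ⟨VV_sub_XX (mem_VV_iff.2 (Or.inr (by simp [Q1]))), ?_⟩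
    intro h
    have h' : Q1 = P0 := h
    have := congrArg (fun z : E4 => z.2.2.2) h'
    simp [Q1, P0] at this
  refine ⟨⟨Q1, hQ1⟩, isPreconnected_of_forall Q1 fun p hp => ?_⟩
  by_cases hV : p ∈ VV
  · exact conn_VV hV hp.2
  · obtain ⟨j, hj⟩ : ∃ j, p ∈ UU j := by
      rcases hp.1 with h | h
      · exact absurd h hV
      · exact h
    have hr := rad_pos_UU hj
    rw [mem_VV_iff, not_or, not_not, not_lt] at hV
    obtain ⟨h1, h2⟩ := hV
    have p1 : p.1 = 0 := by nlinarith [sq_nonneg p.1, sq_nonneg p.2.1]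
    have p2 : p.2.1 = 0 := by nlinarith [sq_nonneg p.1, sq_nonneg p.2.1]
    have p3 : p.2.2.1 = - rad p := by
      have hs := rad_sq p
      rw [p1, p2] at hs
      nlinarith
    set c : ℝ → E4 := fun θ => (rad p * Real.sin θ, 0, -(rad p * Real.cos θ), p.2.2.2) with hc
    have hcc : Continuous c := by rw [hc]; fun_prop
    have hrad : ∀ θ, rad (c θ) = rad p := by
      intro θ
      apply rad_eq_of_sq hr.le
      simp only [hc]
      have := Real.sin_sq_add_cos_sq θ
      linear_combination (rad p ^ 2) * this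
    have hsub : c '' Icc 0 (Real.pi / 2) ⊆ MX := by
      rintro _ ⟨θ, hθ, rfl⟩
      refine ⟨Or.inr ⟨j, ?_⟩, ?_⟩
      · change |rad (c θ) - ctr j| < 1 / 4
        rw [hrad]; exact hj
      · intro h
        have h' : c θ = P0 := h
        have h3 := congrArg (fun z : E4 => z.2.2.1) h'
        simp only [hc, P0] at h3
        have h4 : 0 ≤ Real.cos θ := Real.cos_nonneg_of_mem_Icc ⟨by linarith [hθ.1, Real.pi_pos], hθ.2⟩
        nlinarith
    have hend : c (Real.pi / 2) ∈ VV := by
      rw [mem_VV_iff]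
      left
      simp only [hc, Real.sin_pi_div_two, mul_one]
      positivity
    have hend' : c (Real.pi / 2) ≠ P0 := by
      intro h
      have h3 := congrArg (fun z : E4 => z.1) h
      simp [hc, P0] at h3
      linarith
    obtain ⟨t, ht, hQ, hpt, htc⟩ := conn_VV hend hend'
    have hpi := Real.pi_pos
    have hstart : c 0 = p := by
      simp only [hc, Real.sin_zero, Real.cos_zero, mul_zero, mul_one]
      rw [← p3]
      exact Prod.ext p1.symm (Prod.ext p2.symm rfl)
    refine ⟨c '' Icc 0 (Real.pi / 2) ∪ t, union_subset hsub ht, Or.inr hQ,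
      Or.inl ⟨0, ⟨le_rfl, by positivity⟩, hstart⟩, ?_⟩
    exact IsPreconnected.union (c (Real.pi / 2)) ⟨_, ⟨by positivity, le_rfl⟩, rfl⟩ hpt
      (isPreconnected_Icc.image c hcc.continuousOn) htc

end Pool.Agent.H844R2
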