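import Mathlib

/-!
# Compactly supported Hamiltonian and symplectic maps of open symplectic manifolds

The symplectic manifolds considered here are open subsets `M` of a real normed space `E` with an
arbitrary symplectic form `Ω`.
-/

open Set Filter Topology
open scoped ContDiff

namespace Pool.Agent.H844R2

section Definitions

variable {E : Type} [NormedAddCommGroup E] [NormedSpace ℝ E]

/-- `Ω` is a symplectic form on the open subset `M` of the real vector space `E`: a smooth field of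
alternating nondegenerate bilinear forms with exterior derivative zero. -/
structure SymplecticOn (M : Set E) (Ω : E → E →L[ℝ] E →L[ℝ] ℝ) : Prop where
  isOpen : IsOpen M
  smooth : ContDiffOn ℝ ∞ Ω M
  alternating : ∀ x ∈ M, ∀ v, Ω x v v = 0
  nondegenerate : ∀ x ∈ M, ∀ v, (∀ w, Ω x v w = 0) → v = 0
  closed : ∀ x ∈ M, ∀ u v w,
    fderiv ℝ Ω x u v w + fderiv ℝ Ω x v w u + fderiv ℝ Ω x w u v = 0

/-- `φ` restricts to a smooth diffeomorphism of `M` onto `M` preserving `Ω` and equal to the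
identity off `K`. -/
structure IsSymplectomorphism (M : Set E) (Ω : E → E →L[ℝ] E →L[ℝ] ℝ) (K : Set E)
    (φ : E → E) : Prop where
  smooth : ContDiffOn ℝ ∞ φ M
  mapsTo : MapsTo φ M M
  inverse : ∃ χ : E → E, ContDiffOn ℝ ∞ χ M ∧ MapsTo χ M M ∧
    ∀ x ∈ M, χ (φ x) = x ∧ φ (χ x) = x
  symplectic : ∀ x ∈ M, ∀ v w, Ω (φ x) (fderiv ℝ φ x v) (fderiv ℝ φ x w) = Ω x v w
  support : ∀ x ∈ M, x ∉ K → φ x = x

/-- `Symp_{c,0}(M, Ω)`: the maps joined to the identity by a smooth path of symplectomorphisms of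
`(M, Ω)`, all supported in one fixed compact subset of `M` (maps of `E` of which only the
restriction to `M` matters). -/
def SympC0 (M : Set E) (Ω : E → E →L[ℝ] E →L[ℝ] ℝ) : Set (E → E) :=
  {φ | ∃ K ⊆ M, IsCompact K ∧ ∃ Φ : ℝ → E → E,
    ContDiffOn ℝ ∞ (fun p : ℝ × E => Φ p.1 p.2) (Icc (0 : ℝ) 1 ×ˢ M) ∧
    (∀ t ∈ Icc (0 : ℝ) 1, IsSymplectomorphism M Ω K (Φ t)) ∧
    (∀ x ∈ M, Φ 0 x = x) ∧ ∀ x ∈ M, Φ 1 x = φ x}

/-- `Ham_c(M, Ω)`: the time-one maps of the flows `Φ` of the vector fields `X_t` given by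
`ι(X_t) Ω = dH_t`, for smooth `H : [0,1] × M → ℝ` vanishing off `[0,1] × K`, `K ⊆ M` compact (maps
of `E` of which only the restriction to `M` matters). -/
def HamC (M : Set E) (Ω : E → E →L[ℝ] E →L[ℝ] ℝ) : Set (E → E) :=
  {φ | ∃ K ⊆ M, IsCompact K ∧ ∃ (H : ℝ → E → ℝ) (Φ : ℝ → E → E),
    ContDiffOn ℝ ∞ (fun p : ℝ × E => H p.1 p.2) (Icc (0 : ℝ) 1 ×ˢ M) ∧
    (∀ t ∈ Icc (0 : ℝ) 1, ∀ x ∈ M, x ∉ K → H t x = 0) ∧
    ContDiffOn ℝ ∞ (fun p : ℝ × E => Φ p.1 p.2) (Icc (0 : ℝ) 1 ×ˢ M) ∧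
    (∀ t ∈ Icc (0 : ℝ) 1, MapsTo (Φ t) M M) ∧
    (∀ t ∈ Icc (0 : ℝ) 1, ∀ x ∈ M, ∃ X : E,
      HasDerivWithinAt (fun τ => Φ τ x) X (Icc (0 : ℝ) 1) t ∧
      ∀ w, Ω (Φ t x) X w = fderiv ℝ (H t) (Φ t x) w) ∧
    (∀ x ∈ M, Φ 0 x = x) ∧ ∀ x ∈ M, Φ 1 x = φ x}

/-- `Ham_c(M, Ω)` is closed in `Symp_{c,0}(M, Ω)` for the `C^0`-topology: uniform limits of maps
supported in a common compact subset of `M`. -/
def HamC0Closed (M : Set E) (Ω : E → E →L[ℝ] E →L[ℝ] ℝ) : Prop :=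
  ∀ K ⊆ M, IsCompact K → ∀ φ : ℕ → E → E, (∀ k, φ k ∈ HamC M Ω) →
    (∀ k, ∀ x ∈ M, x ∉ K → φ k x = x) →
    ∀ ψ ∈ SympC0 M Ω, TendstoUniformlyOn φ ψ atTop M → ψ ∈ HamC M Ω

end Definitions

end Pool.Agent.H844R2
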