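import Pool.Agent.H844R2.TFlow

open Set Filter Topology
open scoped ContDiff

namespace Pool.Agent.H844R2

/-! ### Cut-off half turns on the round regions -/

variable {j : Fin 3} {f : ℝ → ℝ} {n1 : ℝ}

/-- squared distance to the sphere in the transverse plane -/
noncomputable def nn (j : Fin 3) (p : E4) : ℝ := (rad p - ctr j) ^ 2 + p.2.2.2 ^ 2

/-- moment of the rotation about the first axis -/
noncomputable def ka (j : Fin 3) (p : E4) : ℝ := av j * (p.1 / rad p)

/-- new radius -/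
noncomputable def r1 (j : Fin 3) (φ : ℝ) (p : E4) : ℝ :=
  ctr j + ((rad p - ctr j) * Real.cos φ + p.2.2.2 * Real.sin φ)

/-- new last coordinate -/
noncomputable def s1 (j : Fin 3) (φ : ℝ) (p : E4) : ℝ :=
  -(rad p - ctr j) * Real.sin φ + p.2.2.2 * Real.cos φ

/-- rotation of the sphere by `θ` about the first axis, and of the transverse plane by `-φ` -/
noncomputable def mm (j : Fin 3) (θ φ : ℝ) (p : E4) : E4 :=
  (r1 j φ p / rad p * p.1, r1 j φ p / rad p * (p.2.1 * Real.cos θ - p.2.2.1 * Real.sin θ),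
    r1 j φ p / rad p * (p.2.1 * Real.sin θ + p.2.2.1 * Real.cos θ), s1 j φ p)

lemma rad_mm {θ φ : ℝ} {p : E4} (hp : 0 < rad p) (h : 0 ≤ r1 j φ p) :
    rad (mm j θ φ p) = r1 j φ p := by
  apply rad_eq_of_sq h
  simp only [mm]
  have h1 := rad_sq p
  have h2 := Real.sin_sq_add_cos_sq θ
  have h3 : (p.2.1 * Real.cos θ - p.2.2.1 * Real.sin θ) ^ 2 +
      (p.2.1 * Real.sin θ + p.2.2.1 * Real.cos θ) ^ 2 = p.2.1 ^ 2 + p.2.2.1 ^ 2 := by
    linear_combination (p.2.1 ^ 2 + p.2.2.1 ^ 2) * h2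
  have h4 : (r1 j φ p / rad p) ^ 2 * rad p ^ 2 = r1 j φ p ^ 2 := by
    field_simp
  rw [← h4]
  linear_combination (r1 j φ p / rad p) ^ 2 * h3 - (r1 j φ p / rad p) ^ 2 * h1

lemma mm_zero {p : E4} (hp : 0 < rad p) : mm j 0 0 p = p := by
  have : r1 j 0 p = rad p := by simp [r1]
  unfold mm
  rw [this, div_self hp.ne']
  simp [s1]

lemma mm_add {θ φ θ' φ' : ℝ} {p : E4} (hp : 0 < rad p) (h : 0 < r1 j φ p) :
    mm j θ' φ' (mm j θ φ p) = mm j (θ' + θ) (φ' + φ) p := by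
  have hr := rad_mm (θ := θ) hp h.le
  have e1 : r1 j φ' (mm j θ φ p) = r1 j (φ' + φ) p := by
    unfold r1
    rw [hr]
    simp only [mm, r1, s1, Real.cos_add, Real.sin_add]
    ring
  have e2 : s1 j φ' (mm j θ φ p) = s1 j (φ' + φ) p := by
    unfold s1
    rw [hr]
    simp only [mm, r1, s1, Real.cos_add, Real.sin_add]
    ring
  have e3 : mm j θ' φ' (mm j θ φ p) = (r1 j (φ' + φ) p / r1 j φ p * (mm j θ φ p).1,
      r1 j (φ' + φ) p / r1 j φ p * ((mm j θ φ p).2.1 * Real.cos θ' - (mm j θ φ p).2.2.1 * Real.sin θ'),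
      r1 j (φ' + φ) p / r1 j φ p * ((mm j θ φ p).2.1 * Real.sin θ' + (mm j θ φ p).2.2.1 * Real.cos θ'),
      s1 j (φ' + φ) p) := by
    conv_lhs => unfold mm
    rw [← e1, ← e2]
    have hr' : rad (r1 j φ p / rad p * p.1, r1 j φ p / rad p * (p.2.1 * Real.cos θ - p.2.2.1 * Real.sin θ),
      r1 j φ p / rad p * (p.2.1 * Real.sin θ + p.2.2.1 * Real.cos θ), s1 j φ p) = r1 j φ p := hr
    rw [hr']
    rfl
  rw [e3]
  simp only [mm, Real.cos_add, Real.sin_add]
  refine Prod.ext ?_ (Prod.ext ?_ (Prod.ext ?_ rfl)) <;> simp only <;> field_simp <;> ring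

/-- angles of the flow -/
noncomputable def th (j : Fin 3) (f : ℝ → ℝ) (p : E4) : ℝ := f (nn j p)
noncomputable def ph (j : Fin 3) (f : ℝ → ℝ) (p : E4) : ℝ := 2 * deriv f (nn j p) * ka j p

/-- the cut-off rotation -/
noncomputable def FF (j : Fin 3) (f : ℝ → ℝ) (τ : ℝ) (p : E4) : E4 :=
  mm j (τ * th j f p) (τ * ph j f p) p

/-- hypotheses on the profile -/
structure FData (f : ℝ → ℝ) (n1 : ℝ) : Prop where
  smooth : ContDiff ℝ ∞ f
  zero : ∀ N, n1 ≤ N → f N = 0
  dzero : ∀ N, n1 ≤ N → deriv f N = 0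
  lt : n1 < 1 / 16

lemma r1_bound {φ : ℝ} {p : E4} (h : nn j p < 1 / 16) : |r1 j φ p - ctr j| < 1 / 4 := by
  apply abs_lt_of_sq_lt_sq _ (by norm_num)
  unfold nn at h
  have h2 := Real.sin_sq_add_cos_sq φ
  have h3 : (r1 j φ p - ctr j) ^ 2 + (s1 j φ p) ^ 2 = (rad p - ctr j) ^ 2 + p.2.2.2 ^ 2 := by
    unfold r1 s1
    linear_combination ((rad p - ctr j) ^ 2 + p.2.2.2 ^ 2) * h2
  nlinarith [sq_nonneg (s1 j φ p)]

lemma r1_pos {φ : ℝ} {p : E4} (h : nn j p < 1 / 16) : 0 < r1 j φ p := by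
  have := r1_bound (φ := φ) h
  rw [abs_lt] at this
  have h2 := ctr_ge j
  linarith [this.1]

lemma nn_mm {θ φ : ℝ} {p : E4} (hp : 0 < rad p) (h : nn j p < 1 / 16) :
    nn j (mm j θ φ p) = nn j p := by
  unfold nn
  rw [rad_mm hp (r1_pos h).le]
  have h2 := Real.sin_sq_add_cos_sq φ
  simp only [mm, r1, s1]
  linear_combination ((rad p - ctr j) ^ 2 + p.2.2.2 ^ 2) * h2

lemma ka_mm {θ φ : ℝ} {p : E4} (hp : 0 < rad p) (h : nn j p < 1 / 16) :
    ka j (mm j θ φ p) = ka j p := by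
  have h1 := r1_pos (φ := φ) h
  unfold ka
  rw [rad_mm hp h1.le]
  simp only [mm]
  field_simp

lemma mem_UU_of_nn {p : E4} (h : nn j p < 1 / 16) : p ∈ UU j := by
  have := r1_bound (φ := 0) h
  have e : r1 j 0 p = rad p := by simp [r1]
  rw [e] at this
  exact this

lemma FF_eq_self (h : FData f n1) {τ : ℝ} {p : E4} (hp : 0 < rad p) (hn : n1 ≤ nn j p) :
    FF j f τ p = p := by
  unfold FF th ph
  rw [h.zero _ hn, h.dzero _ hn]
  simp only [mul_zero, zero_mul]
  exact mm_zero hp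

lemma nn_FF (h : FData f n1) {τ : ℝ} {p : E4} (hp : 0 < rad p) :
    nn j (FF j f τ p) = nn j p := by
  by_cases hn : n1 ≤ nn j p
  · rw [FF_eq_self h hp hn]
  · exact nn_mm hp (lt_trans (not_le.1 hn) h.lt)

lemma rad_FF_pos (h : FData f n1) {τ : ℝ} {p : E4} (hp : 0 < rad p) : 0 < rad (FF j f τ p) := by
  by_cases hn : n1 ≤ nn j p
  · rwa [FF_eq_self h hp hn]
  · have h1 := r1_pos (φ := τ * ph j f p) (lt_trans (not_le.1 hn) h.lt)
    unfold FF
    rw [rad_mm hp h1.le]; exact h1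

lemma FF_mem_XX (h : FData f n1) {τ : ℝ} {p : E4} (hp : p ∈ XX) : FF j f τ p ∈ XX := by
  have hr := rad_pos_XX hp
  by_cases hn : n1 ≤ nn j p
  · rwa [FF_eq_self h hr hn]
  · refine Or.inr ⟨j, mem_UU_of_nn ?_⟩
    rw [nn_FF h hr]; exact lt_trans (not_le.1 hn) h.lt

lemma FF_add (h : FData f n1) {σ τ : ℝ} {p : E4} (hp : 0 < rad p) :
    FF j f σ (FF j f τ p) = FF j f (σ + τ) p := by
  by_cases hn : n1 ≤ nn j p
  · rw [FF_eq_self h hp hn, FF_eq_self h hp hn, FF_eq_self h hp hn]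
  · have hlt := lt_trans (not_le.1 hn) h.lt
    have e1 : th j f (FF j f τ p) = th j f p := by unfold th; rw [nn_FF h hp]
    have e2 : ph j f (FF j f τ p) = ph j f p := by
      unfold ph; rw [nn_FF h hp]
      have : ka j (FF j f τ p) = ka j p := ka_mm hp hlt
      rw [this]
    have e3 : FF j f σ (FF j f τ p) = mm j (σ * th j f p) (σ * ph j f p) (FF j f τ p) := by
      conv_lhs => unfold FF
      rw [show th j f (mm j (τ * th j f p) (τ * ph j f p) p) = th j f p from e1,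
        show ph j f (mm j (τ * th j f p) (τ * ph j f p) p) = ph j f p from e2]
      rfl
    rw [e3]
    unfold FF
    rw [mm_add hp (r1_pos hlt)]
    congr 1 <;> ring

lemma FF_zero {p : E4} (hp : 0 < rad p) : FF j f 0 p = p := by
  unfold FF; rw [zero_mul, zero_mul]; exact mm_zero hp

lemma nn_contDiffAt {p : E4} (hp : 0 < rad p) : ContDiffAt ℝ ∞ (nn j) p := by
  have hr := rad_contDiffAt hp
  unfold nn
  exact ((hr.sub contDiffAt_const).pow 2).add (by fun_prop)

lemma ka_contDiffAt {p : E4} (hp : 0 < rad p) : ContDiffAt ℝ ∞ (ka j) p := by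
  have hr := rad_contDiffAt hp
  unfold ka
  exact contDiffAt_const.mul (ContDiffAt.div (by fun_prop) hr hp.ne')

lemma FF_contDiffOn (h : FData f n1) :
    ContDiffOn ℝ ∞ (fun p : ℝ × E4 => FF j f p.1 p.2) (univ ×ˢ XX) := by
  rintro ⟨τ, p⟩ ⟨-, hp⟩
  apply ContDiffAt.contDiffWithinAt
  simp only at hp
  have hr := rad_pos_XX hp
  have hf' : ContDiff ℝ ∞ (deriv f) := by
    have := h.smooth
    rw [contDiff_infty_iff_deriv] at this
    exact this.2
  have lift : ∀ {g : E4 → ℝ}, ContDiffAt ℝ ∞ g p →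
      ContDiffAt ℝ ∞ (fun q : ℝ × E4 => g q.2) (τ, p) := fun {g} hg =>
    ContDiffAt.comp (g := g) (f := fun q : ℝ × E4 => q.2) (τ, p) hg contDiffAt_snd
  have hN := lift (nn_contDiffAt (j := j) hr)
  have hK := lift (ka_contDiffAt (j := j) hr)
  have hR := lift (rad_contDiffAt hr)
  have hth : ContDiffAt ℝ ∞ (fun q : ℝ × E4 => q.1 * th j f q.2) (τ, p) := by
    unfold th
    exact contDiffAt_fst.mul (h.smooth.contDiffAt.comp (τ, p) hN)
  have hph : ContDiffAt ℝ ∞ (fun q : ℝ × E4 => q.1 * ph j f q.2) (τ, p) := by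
    unfold ph
    exact contDiffAt_fst.mul ((contDiffAt_const.mul (hf'.contDiffAt.comp (τ, p) hN)).mul hK)
  have hcθ := Real.contDiff_cos.contDiffAt.comp (τ, p) hth
  have hsθ := Real.contDiff_sin.contDiffAt.comp (τ, p) hth
  have hcφ := Real.contDiff_cos.contDiffAt.comp (τ, p) hph
  have hsφ := Real.contDiff_sin.contDiffAt.comp (τ, p) hph
  have x1 : ContDiffAt ℝ ∞ (fun q : ℝ × E4 => q.2.1) (τ, p) := by fun_prop
  have x2 : ContDiffAt ℝ ∞ (fun q : ℝ × E4 => q.2.2.1) (τ, p) := by fun_prop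
  have x3 : ContDiffAt ℝ ∞ (fun q : ℝ × E4 => q.2.2.2.1) (τ, p) := by fun_prop
  have x4 : ContDiffAt ℝ ∞ (fun q : ℝ × E4 => q.2.2.2.2) (τ, p) := by fun_prop
  have hr1 : ContDiffAt ℝ ∞ (fun q : ℝ × E4 => r1 j (q.1 * ph j f q.2) q.2) (τ, p) :=
    contDiffAt_const.add (((hR.sub contDiffAt_const).mul hcφ).add (x4.mul hsφ))
  have hs1 : ContDiffAt ℝ ∞ (fun q : ℝ × E4 => s1 j (q.1 * ph j f q.2) q.2) (τ, p) :=
    ((hR.sub contDiffAt_const).neg.mul hsφ).add (x4.mul hcφ)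
  have hq : ContDiffAt ℝ ∞ (fun q : ℝ × E4 => r1 j (q.1 * ph j f q.2) q.2 / rad q.2) (τ, p) :=
    hr1.div hR hr.ne'
  exact (hq.mul x1).prodMk ((hq.mul ((x2.mul hcθ).sub (x3.mul hsθ))).prodMk
    ((hq.mul ((x2.mul hsθ).add (x3.mul hcθ))).prodMk hs1))

/-- velocity -/
noncomputable def vf (j : Fin 3) (a g : ℝ) (p : E4) : E4 :=
  (g * p.2.2.2 / rad p * p.1, g * p.2.2.2 / rad p * p.2.1 - a * p.2.2.1,
    g * p.2.2.2 / rad p * p.2.2.1 + a * p.2.1, -(g * (rad p - ctr j)))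

lemma hasDerivAt_mm {a g t : ℝ} {p : E4} (hp : 0 < rad p) (h : 0 < r1 j (t * g) p) :
    HasDerivAt (fun τ => mm j (τ * a) (τ * g) p) (vf j a g (mm j (t * a) (t * g) p)) t := by
  have ha : HasDerivAt (fun τ : ℝ => τ * a) a t := by
    simpa using (hasDerivAt_id t).mul_const a
  have hg : HasDerivAt (fun τ : ℝ => τ * g) g t := by
    simpa using (hasDerivAt_id t).mul_const g
  have hca := ha.cos
  have hsa := ha.sin
  have hcg := hg.cos
  have hsg := hg.sin
  have hr1 : HasDerivAt (fun τ => r1 j (τ * g) p) _ t :=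
    ((hcg.const_mul (rad p - ctr j)).add (hsg.const_mul p.2.2.2)).const_add (ctr j)
  have hs1 : HasDerivAt (fun τ => s1 j (τ * g) p) _ t :=
    (hsg.const_mul (-(rad p - ctr j))).add (hcg.const_mul p.2.2.2)
  have hq := hr1.div_const (rad p)
  have h2 := (hca.const_mul p.2.1).sub (hsa.const_mul p.2.2.1)
  have h3 := (hsa.const_mul p.2.1).add (hca.const_mul p.2.2.1)
  have h5 := (hq.mul_const p.1).prodMk ((hq.mul h2).prodMk ((hq.mul h3).prodMk hs1))
  refine HasDerivAt.congr_deriv h5 ?_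
  unfold vf
  rw [rad_mm hp h.le]
  simp only [mm]
  have e : s1 j (t * g) p = -(rad p - ctr j) * Real.sin (t * g) + p.2.2.2 * Real.cos (t * g) := rfl
  refine Prod.ext ?_ (Prod.ext ?_ (Prod.ext ?_ ?_)) <;> simp only
  · field_simp; rw [e]; ring
  · simp; field_simp; rw [e]; ring
  · simp; field_simp; rw [e]; ring
  · simp only [r1]; ring

lemma nn_fderiv {p : E4} (hp : 0 < rad p) (w : E4) : fderiv ℝ (nn j) p w =
    2 * (rad p - ctr j) * ((p.1 * w.1 + p.2.1 * w.2.1 + p.2.2.1 * w.2.2.1) / rad p) +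
      2 * p.2.2.2 * w.2.2.2 := by
  have dr : HasFDerivAt rad (fderiv ℝ rad p) p :=
    ((rad_contDiffAt hp).differentiableAt (by simp)).hasFDerivAt
  have a4 : HasFDerivAt (fun p : E4 => p.2.2.2) c4 p := c4.hasFDerivAt
  have h : HasFDerivAt (nn j) _ p := ((dr.sub_const (ctr j)).pow 2).add (a4.pow 2)
  rw [h.fderiv, ← rad_fderiv hp]
  simp

lemma ka_fderiv {p : E4} (hp : 0 < rad p) (w : E4) : fderiv ℝ (ka j) p w =
    av j * (w.1 / rad p -
      p.1 * ((p.1 * w.1 + p.2.1 * w.2.1 + p.2.2.1 * w.2.2.1) / rad p) / rad p ^ 2) := by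
  have dr : HasFDerivAt rad (fderiv ℝ rad p) p :=
    ((rad_contDiffAt hp).differentiableAt (by simp)).hasFDerivAt
  have dri : HasFDerivAt (fun p => (rad p)⁻¹) _ p :=
    HasDerivAt.comp_hasFDerivAt (h₂ := fun x : ℝ => x⁻¹) p (hasDerivAt_inv hp.ne') dr
  have a1 : HasFDerivAt (fun p : E4 => p.1) c1 p := c1.hasFDerivAt
  have h : HasFDerivAt (fun p : E4 => av j * (p.1 * (rad p)⁻¹)) _ p := (a1.mul dri).const_mul (av j)
  have e : ka j = fun p : E4 => av j * (p.1 * (rad p)⁻¹) := by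
    ext p; unfold ka; rw [div_eq_mul_inv]
  rw [e, h.fderiv, ← rad_fderiv hp]
  simp
  field_simp
  ring

lemma hamPath_FF (h : FData f n1) :
    HamPath XX OO (FF j f) (fun t => FF j f (-t)) (fun _ p => f (nn j p) * ka j p) := by
  have hi : ContDiffOn ℝ ∞ (fun p : ℝ × E4 => FF j f (-p.1) p.2) (univ ×ˢ XX) :=
    (FF_contDiffOn h).comp (contDiff_fst.neg.prodMk contDiff_snd).contDiffOn
      (fun q hq => ⟨mem_univ _, hq.2⟩)
  refine HamPath.mk' symplectic_XX (FF_contDiffOn h) hi ?_ ?_ ?_ ?_ ?_ ?_ ?_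
  · rintro ⟨t, p⟩ ⟨-, hp⟩
    have hr := rad_pos_XX hp
    have h1 : ContDiffAt ℝ ∞ (fun q : ℝ × E4 => nn j q.2) (t, p) :=
      ContDiffAt.comp (g := nn j) (f := fun q : ℝ × E4 => q.2) (t, p)
        (nn_contDiffAt hr) contDiffAt_snd
    have h2 : ContDiffAt ℝ ∞ (fun q : ℝ × E4 => ka j q.2) (t, p) :=
      ContDiffAt.comp (g := ka j) (f := fun q : ℝ × E4 => q.2) (t, p)
        (ka_contDiffAt hr) contDiffAt_snd
    exact ((h.smooth.contDiffAt.comp (t, p) h1).mul h2).contDiffWithinAt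
  · intro t x hx; exact FF_mem_XX h hx
  · intro t x hx; exact FF_mem_XX h hx
  · intro t x hx; simp only [FF_add h (rad_pos_XX hx), neg_add_cancel, FF_zero (rad_pos_XX hx)]
  · intro t x hx; simp only [FF_add h (rad_pos_XX hx), add_neg_cancel, FF_zero (rad_pos_XX hx)]
  · intro t x hx w
    have hr := rad_pos_XX hx
    have hx' := FF_mem_XX (j := j) h (τ := t) hx
    have hr' := rad_pos_XX hx'
    have hfd : HasDerivAt f (deriv f (nn j (FF j f t x))) (nn j (FF j f t x)) :=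
      (h.smooth.differentiable (by simp)).differentiableAt.hasDerivAt
    have hNd : HasFDerivAt (nn j) (fderiv ℝ (nn j) (FF j f t x)) (FF j f t x) :=
      ((nn_contDiffAt hr').differentiableAt (by simp)).hasFDerivAt
    have hKd : HasFDerivAt (ka j) (fderiv ℝ (ka j) (FF j f t x)) (FF j f t x) :=
      ((ka_contDiffAt hr').differentiableAt (by simp)).hasFDerivAt
    have hfN : HasFDerivAt (fun p => f (nn j p)) _ (FF j f t x) := hfd.comp_hasFDerivAt _ hNd
    have hall : HasFDerivAt (fun p => f (nn j p) * ka j p) _ (FF j f t x) := hfN.mul hKd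
    rw [hall.fderiv]
    by_cases hn : n1 ≤ nn j x
    · have hc : (fun τ => FF j f τ x) = fun _ => x := by
        ext1 τ; exact FF_eq_self h hr hn
      rw [hc, deriv_const, map_zero]
      have hN : n1 ≤ nn j (FF j f t x) := by rw [nn_FF h hr]; exact hn
      rw [h.zero _ hN, h.dzero _ hN]
      simp
    · have hlt := lt_trans (not_le.1 hn) h.lt
      have hU : FF j f t x ∈ UU j := mem_UU_of_nn (by rw [nn_FF h hr]; exact hlt)
      have hd := hasDerivAt_mm (j := j) (a := th j f x) (g := ph j f x) (t := t) hr (r1_pos hlt)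
      have e1 : deriv (fun τ => FF j f τ x) t = vf j (th j f x) (ph j f x) (FF j f t x) := hd.deriv
      have e2 : nn j (FF j f t x) = nn j x := nn_FF h hr
      have e3 : ka j (FF j f t x) = ka j x := ka_mm hr hlt
      rw [e1, OO_UU hU, SS_apply, ar_eq j hU]
      simp only [_root_.smul_apply, _root_.add_apply, smul_eq_mul]
      rw [nn_fderiv hr', ka_fderiv hr', e2, e3]
      have hs := rad_sq (FF j f t x)
      have e4 : th j f x = f (nn j x) := rfl
      have e5 : ph j f x = 2 * deriv f (nn j x) * ka j x := rfl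
      rw [← e4]
      have e6 : ∀ A : ℝ, ka j x * (deriv f (nn j x) * A) = ph j f x * A / 2 := by
        intro A; rw [e5]; ring
      rw [e6]
      generalize ph j f x = g at *
      generalize th j f x = a at *
      generalize FF j f t x = q at *
      obtain ⟨x1, x2, x3, x4⟩ := q
      obtain ⟨w1, w2, w3, w4⟩ := w
      simp only [vf] at *
      generalize rad (x1, x2, x3, x4) = r at *
      field_simp
      linear_combination (-(g * x4 * w4 * r ^ 2) - a * av j * w1 * r) * hs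
  · intro x hx; exact FF_zero (rad_pos_XX hx)

end Pool.Agent.H844R2
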