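import Pool.Agent.H844R2.Sympl

open Set Filter Topology MeasureTheory
open scoped ContDiff

namespace Pool.Agent.H844R2

variable {E : Type} [NormedAddCommGroup E] [NormedSpace ℝ E]
  {M : Set E} {Ω : E → E →L[ℝ] E →L[ℝ] ℝ}

/-- `pb` is continuous where the map is smooth with values in `M` -/
lemma pb_continuousAt {G : Type*} [NormedAddCommGroup G] [NormedSpace ℝ G] (hΩ : SymplecticOn M Ω)
    {F : G → E} {y : G} (hF : ContDiffAt ℝ ∞ F y) (hy : F y ∈ M) (u w : G) :
    ContinuousAt (fun y => pb Ω F y u w) y :=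
  (hasFDerivAt_pb (hF.of_le (by decide)) (hΩ.diffAt hy) u w).continuousAt

/-- the derivative of the linear homotopy -/
lemma homotopy_fderiv {A B : (Fin 2 → ℝ) → E} {y : Fin 3 → ℝ}
    (hA : DifferentiableAt ℝ A (fun i => y i.succ)) (hB : DifferentiableAt ℝ B (fun i => y i.succ)) :
    DifferentiableAt ℝ (fun y : Fin 3 → ℝ => (1 - y 0) • A (fun i => y i.succ) +
      y 0 • B (fun i => y i.succ)) y ∧ ∀ z : Fin 3 → ℝ,
    fderiv ℝ (fun y : Fin 3 → ℝ => (1 - y 0) • A (fun i => y i.succ) +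
      y 0 • B (fun i => y i.succ)) y z = (1 - y 0) • fderiv ℝ A (fun i => y i.succ) (fun i => z i.succ)
      + y 0 • fderiv ℝ B (fun i => y i.succ) (fun i => z i.succ) +
      z 0 • (B (fun i => y i.succ) - A (fun i => y i.succ)) := by
  have ht : HasFDerivAt (fun y : Fin 3 → ℝ => (fun i => y i.succ : Fin 2 → ℝ))
      (ContinuousLinearMap.pi fun i : Fin 2 => ContinuousLinearMap.proj (R := ℝ) (φ := fun _ : Fin 3 => ℝ)
        i.succ) y := by
    rw [hasFDerivAt_pi]
    intro i
    exact (ContinuousLinearMap.proj (R := ℝ) (φ := fun _ : Fin 3 => ℝ) i.succ).hasFDerivAt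
  have h0 : HasFDerivAt (fun y : Fin 3 → ℝ => y 0)
      (ContinuousLinearMap.proj (R := ℝ) (φ := fun _ : Fin 3 => ℝ) 0) y :=
    (ContinuousLinearMap.proj (R := ℝ) (φ := fun _ : Fin 3 => ℝ) 0).hasFDerivAt
  have h1 : HasFDerivAt (fun y : Fin 3 → ℝ => A (fun i => y i.succ)) _ y :=
    HasFDerivAt.comp (g := A) (f := fun y : Fin 3 → ℝ => (fun i => y i.succ : Fin 2 → ℝ)) y
      hA.hasFDerivAt ht
  have h2 : HasFDerivAt (fun y : Fin 3 → ℝ => B (fun i => y i.succ)) _ y :=
    HasFDerivAt.comp (g := B) (f := fun y : Fin 3 → ℝ => (fun i => y i.succ : Fin 2 → ℝ)) y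
      hB.hasFDerivAt ht
  have h3 := ((h0.const_sub 1).smul h1).add (h0.smul h2)
  have h4 : HasFDerivAt (fun y : Fin 3 → ℝ => (1 - y 0) • A (fun i => y i.succ) +
      y 0 • B (fun i => y i.succ)) _ y := h3
  refine ⟨h4.differentiableAt, fun z => ?_⟩
  rw [h4.fderiv]
  simp only [_root_.add_apply, _root_.smul_apply, ContinuousLinearMap.smulRight_apply,
    _root_.neg_apply, ContinuousLinearMap.comp_apply, ContinuousLinearMap.proj_apply,
    ContinuousLinearMap.coe_pi', smul_sub, neg_smul]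
  abel

/-- **Homotopy invariance of area**: two maps of a rectangle which agree on the boundary and are
joined by the linear homotopy inside `M` have the same `Ω`-area. -/
lemma area_eq (hΩ : SymplecticOn M Ω) {A B : (Fin 2 → ℝ) → E} {a b : Fin 2 → ℝ} (hab : a ≤ b)
    {O : Set (Fin 2 → ℝ)} (hO : IsOpen O) (hsub : Icc a b ⊆ O)
    (hA : ContDiffOn ℝ ∞ A O) (hB : ContDiffOn ℝ ∞ B O)
    (hseg : ∀ x ∈ Icc a b, ∀ l ∈ Icc (0 : ℝ) 1, (1 - l) • A x + l • B x ∈ M)
    (hbd : ∀ x ∈ Icc a b, (∃ i, x i = a i ∨ x i = b i) → A x = B x) :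
    ∫ x in Icc a b, pb Ω A x (Pi.single 0 1) (Pi.single 1 1) =
      ∫ x in Icc a b, pb Ω B x (Pi.single 0 1) (Pi.single 1 1) := by
  classical
  set F : (Fin 3 → ℝ) → E := fun y => (1 - y 0) • A (fun i => y i.succ) +
      y 0 • B (fun i => y i.succ) with hF
  set a3 : Fin 3 → ℝ := Fin.cons 0 a with ha3
  set b3 : Fin 3 → ℝ := Fin.cons 1 b with hb3
  have hab3 : a3 ≤ b3 := by
    intro i
    refine Fin.cases ?_ ?_ i
    · simp [ha3, hb3]
    · intro j; simpa [ha3, hb3] using hab j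
  set e0 : Fin 3 → ℝ := Pi.single 0 1
  set e1 : Fin 3 → ℝ := Pi.single 1 1
  set e2 : Fin 3 → ℝ := Pi.single 2 1
  have htail : ∀ y ∈ Icc a3 b3, (fun i : Fin 2 => y i.succ) ∈ Icc a b := by
    intro y hy
    constructor
    · intro i; simpa [ha3] using hy.1 i.succ
    · intro i; simpa [hb3] using hy.2 i.succ
  have hy0 : ∀ y ∈ Icc a3 b3, y 0 ∈ Icc (0 : ℝ) 1 := by
    intro y hy
    exact ⟨by simpa [ha3] using hy.1 0, by simpa [hb3] using hy.2 0⟩
  have hFM : ∀ y ∈ Icc a3 b3, F y ∈ M := fun y hy => hseg _ (htail y hy) _ (hy0 y hy)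
  have htc : ContDiff ℝ ∞ (fun y : Fin 3 → ℝ => (fun i => y i.succ : Fin 2 → ℝ)) := by
    rw [contDiff_pi]; intro i; exact contDiff_apply ℝ ℝ i.succ
  have hFc : ∀ y ∈ Icc a3 b3, ContDiffAt ℝ ∞ F y := by
    intro y hy
    have hO' := hO.mem_nhds (hsub (htail y hy))
    have h1 : ContDiffAt ℝ ∞ (fun y : Fin 3 → ℝ => A (fun i => y i.succ)) y :=
      ContDiffAt.comp (g := A) (f := fun y : Fin 3 → ℝ => (fun i => y i.succ : Fin 2 → ℝ)) y
        (hA.contDiffAt hO') htc.contDiffAt
    have h2 : ContDiffAt ℝ ∞ (fun y : Fin 3 → ℝ => B (fun i => y i.succ)) y :=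
      ContDiffAt.comp (g := B) (f := fun y : Fin 3 → ℝ => (fun i => y i.succ : Fin 2 → ℝ)) y
        (hB.contDiffAt hO') htc.contDiffAt
    have h0 : ContDiffAt ℝ ∞ (fun y : Fin 3 → ℝ => y 0) y := (contDiff_apply ℝ ℝ (0 : Fin 3)).contDiffAt
    exact ((contDiffAt_const.sub h0).smul h1).add (h0.smul h2)
  have hd : ∀ y ∈ Icc a3 b3, ∀ z : Fin 3 → ℝ, fderiv ℝ F y z =
      (1 - y 0) • fderiv ℝ A (fun i => y i.succ) (fun i => z i.succ)
      + y 0 • fderiv ℝ B (fun i => y i.succ) (fun i => z i.succ) +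
      z 0 • (B (fun i => y i.succ) - A (fun i => y i.succ)) := by
    intro y hy z
    have hO' := hO.mem_nhds (hsub (htail y hy))
    exact (homotopy_fderiv ((hA.contDiffAt hO').differentiableAt (by simp))
      ((hB.contDiffAt hO').differentiableAt (by simp))).2 z
  set f : (Fin 3 → ℝ) → Fin 3 → ℝ := fun y => ![pb Ω F y e1 e2, pb Ω F y e2 e0, pb Ω F y e0 e1]
    with hf
  set f' : (Fin 3 → ℝ) → (Fin 3 → ℝ) →L[ℝ] (Fin 3 → ℝ) := fun y =>
    ContinuousLinearMap.pi ![fderiv ℝ (fun y => pb Ω F y e1 e2) y,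
      fderiv ℝ (fun y => pb Ω F y e2 e0) y, fderiv ℝ (fun y => pb Ω F y e0 e1) y] with hf'
  have hfder : ∀ y ∈ Icc a3 b3, HasFDerivAt f (f' y) y := by
    intro y hy
    have hF2 := (hFc y hy).of_le (m := 2) (by decide)
    have hΩd := hΩ.diffAt (hFM y hy)
    rw [hasFDerivAt_pi']
    intro i
    fin_cases i
    · exact (hasFDerivAt_pb hF2 hΩd e1 e2).differentiableAt.hasFDerivAt
    · exact (hasFDerivAt_pb hF2 hΩd e2 e0).differentiableAt.hasFDerivAt
    · exact (hasFDerivAt_pb hF2 hΩd e0 e1).differentiableAt.hasFDerivAt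
  have hdiv : ∀ y ∈ Icc a3 b3, ∑ i, (f' y) (Pi.single i 1) i = 0 := by
    intro y hy
    have hF2 := (hFc y hy).of_le (m := 2) (by decide)
    have hΩd := hΩ.diffAt (hFM y hy)
    have := pb_closed hF2 hΩd (fun u v => hΩ.skew (hFM y hy) u v) (hΩ.closed _ (hFM y hy)) e0 e1 e2
    rw [Fin.sum_univ_three]
    simpa [hf'] using this
  have key := integral_divergence_of_hasFDerivAt_off_countable a3 b3 hab3 f f' ∅ countable_empty
    (fun y hy => (hfder y hy).continuousAt.continuousWithinAt)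
    (fun y hy => hfder y (by
      have hy' := hy.1
      rw [mem_univ_pi] at hy'
      exact ⟨fun i => (hy' i).1.le, fun i => (hy' i).2.le⟩))
    (by
      refine (integrableOn_congr_fun (g := fun _ => (0 : ℝ)) (fun y hy => hdiv y hy)
        measurableSet_Icc).2 ?_
      simp)
  rw [setIntegral_congr_fun (g := fun _ => (0 : ℝ)) measurableSet_Icc (fun y hy => hdiv y hy)] at key
  rw [integral_zero, Fin.sum_univ_three] at key
  have hface : ∀ (i : Fin 3) (c : ℝ) (x : Fin 2 → ℝ), c = a3 i ∨ c = b3 i →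
      x ∈ Icc (a3 ∘ i.succAbove) (b3 ∘ i.succAbove) → i.insertNth c x ∈ Icc a3 b3 := by
    intro i c x hc hx
    have hci : a3 i ≤ c ∧ c ≤ b3 i := by
      rcases hc with rfl | rfl
      · exact ⟨le_rfl, hab3 i⟩
      · exact ⟨hab3 i, le_rfl⟩
    constructor
    · intro j
      refine Fin.succAboveCases i ?_ ?_ j
      · simpa using hci.1
      · intro k; simpa using hx.1 k
    · intro j
      refine Fin.succAboveCases i ?_ ?_ j
      · simpa using hci.2
      · intro k; simpa using hx.2 k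
  have hz : ∀ (i : Fin 3) (c : ℝ) (x : Fin 2 → ℝ), i ≠ 0 → c = a3 i ∨ c = b3 i →
      x ∈ Icc (a3 ∘ i.succAbove) (b3 ∘ i.succAbove) →
      fderiv ℝ F (i.insertNth c x) e0 = 0 := by
    intro i c x hi hc hx
    have hmem := hface i c x hc hx
    rw [hd _ hmem]
    obtain ⟨j, rfl⟩ := Fin.exists_succ_eq.2 hi
    have e : A (fun i_1 => (j.succ.insertNth c x : Fin 3 → ℝ) i_1.succ) =
        B (fun i_1 => (j.succ.insertNth c x : Fin 3 → ℝ) i_1.succ) := by
      apply hbd _ (htail _ hmem)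
      refine ⟨j, ?_⟩
      rw [Fin.insertNth_apply_same]
      simpa [ha3, hb3] using hc
    rw [e]
    have h0 : (fun i : Fin 2 => e0 i.succ) = 0 := by
      ext i; simp [e0]
    rw [h0]
    simp
  have z1 : ∀ (c : ℝ), c = a3 1 ∨ c = b3 1 →
      ∫ x in Icc (a3 ∘ (1 : Fin 3).succAbove) (b3 ∘ (1 : Fin 3).succAbove),
        f ((1 : Fin 3).insertNth c x) 1 = 0 := by
    intro c hc
    rw [setIntegral_congr_fun (g := fun _ => (0 : ℝ)) measurableSet_Icc]
    · simp
    · intro x hx
      simp only [hf, pb, Matrix.cons_val_one]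
      rw [hz 1 c x (by decide) hc hx]
      simp
  have z2 : ∀ (c : ℝ), c = a3 2 ∨ c = b3 2 →
      ∫ x in Icc (a3 ∘ (2 : Fin 3).succAbove) (b3 ∘ (2 : Fin 3).succAbove),
        f ((2 : Fin 3).insertNth c x) 2 = 0 := by
    intro c hc
    rw [setIntegral_congr_fun (g := fun _ => (0 : ℝ)) measurableSet_Icc]
    · simp
    · intro x hx
      simp only [hf, pb, Matrix.cons_val]
      rw [hz 2 c x (by decide) hc hx]
      simp
  rw [z1 _ (Or.inl rfl), z1 _ (Or.inr rfl), z2 _ (Or.inl rfl), z2 _ (Or.inr rfl)] at key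
  have s0 : a3 ∘ (0 : Fin 3).succAbove = a := by
    ext i; simp [ha3]
  have s1 : b3 ∘ (0 : Fin 3).succAbove = b := by
    ext i; simp [hb3]
  rw [s0, s1] at key
  have t1 : (fun i : Fin 2 => e1 i.succ) = Pi.single 0 1 := by
    ext i; fin_cases i <;> simp [e1]
  have t2 : (fun i : Fin 2 => e2 i.succ) = Pi.single 1 1 := by
    ext i; fin_cases i <;> simp [e2]
  have e10 : e1 0 = 0 := by simp [e1]
  have e20 : e2 0 = 0 := by simp [e2]
  have w0 : ∫ x in Icc a b, f ((0 : Fin 3).insertNth (a3 0) x) 0 =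
      ∫ x in Icc a b, pb Ω A x (Pi.single 0 1) (Pi.single 1 1) := by
    apply setIntegral_congr_fun measurableSet_Icc
    intro x hx
    have hmem := hface 0 (a3 0) x (Or.inl rfl) (by rw [s0, s1]; exact hx)
    simp only [hf, pb, Matrix.cons_val_zero]
    rw [hd _ hmem, hd _ hmem, t1, t2, e10, e20]
    simp [hF, ha3]
  have w1 : ∫ x in Icc a b, f ((0 : Fin 3).insertNth (b3 0) x) 0 =
      ∫ x in Icc a b, pb Ω B x (Pi.single 0 1) (Pi.single 1 1) := by
    apply setIntegral_congr_fun measurableSet_Icc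
    intro x hx
    have hmem := hface 0 (b3 0) x (Or.inr rfl) (by rw [s0, s1]; exact hx)
    simp only [hf, pb, Matrix.cons_val_zero]
    rw [hd _ hmem, hd _ hmem, t1, t2, e10, e20]
    simp [hF, hb3]
  rw [w0, w1] at key
  linarith

/-- area computed from a potential -/
lemma area_potential {A : (Fin 2 → ℝ) → E} {a b : Fin 2 → ℝ} (hab : a ≤ b) {s : ℝ}
    {g : (Fin 2 → ℝ) → ℝ} (hg : ∀ x ∈ Icc a b, ContDiffAt ℝ ∞ g x)
    (hpot : ∀ x ∈ Icc a b, pb Ω A x (Pi.single 0 1) (Pi.single 1 1) =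
      fderiv ℝ g x (Pi.single 1 1))
    (hend : ∀ t ∈ Icc (a 0) (b 0), g ![t, b 1] - g ![t, a 1] = s) :
    ∫ x in Icc a b, pb Ω A x (Pi.single 0 1) (Pi.single 1 1) = (b 0 - a 0) * s := by
  classical
  set f : (Fin 2 → ℝ) → Fin 2 → ℝ := fun y => ![0, g y] with hf
  set f' : (Fin 2 → ℝ) → (Fin 2 → ℝ) →L[ℝ] (Fin 2 → ℝ) := fun y =>
    ContinuousLinearMap.pi ![0, fderiv ℝ g y] with hf'
  have hfder : ∀ y ∈ Icc a b, HasFDerivAt f (f' y) y := by
    intro y hy
    rw [hasFDerivAt_pi']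
    intro i
    fin_cases i
    · exact hasFDerivAt_const 0 y
    · exact ((hg y hy).differentiableAt (by simp)).hasFDerivAt
  have hdiv : ∀ y ∈ Icc a b, ∑ i, (f' y) (Pi.single i 1) i =
      fderiv ℝ g y (Pi.single 1 1) := by
    intro y hy
    rw [Fin.sum_univ_two]
    simp [hf']
  have hcont : ContinuousOn (fun y => fderiv ℝ g y (Pi.single 1 1)) (Icc a b) := by
    intro y hy
    have h1 : ContinuousAt (fderiv ℝ g) y :=
      ((hg y hy).fderiv_right (m := 0) (by simp)).continuousAt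
    exact (h1.clm_apply continuousAt_const).continuousWithinAt
  have key := integral_divergence_of_hasFDerivAt_off_countable a b hab f f' ∅ countable_empty
    (fun y hy => (hfder y hy).continuousAt.continuousWithinAt)
    (fun y hy => hfder y (by
      have hy' := hy.1
      rw [mem_univ_pi] at hy'
      exact ⟨fun i => (hy' i).1.le, fun i => (hy' i).2.le⟩))
    (by
      refine (integrableOn_congr_fun (g := fun y => fderiv ℝ g y (Pi.single 1 1))
        (fun y hy => hdiv y hy) measurableSet_Icc).2 ?_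
      exact hcont.integrableOn_compact isCompact_Icc)
  rw [setIntegral_congr_fun (g := fun y => fderiv ℝ g y (Pi.single 1 1)) measurableSet_Icc
    (fun y hy => hdiv y hy)] at key
  rw [setIntegral_congr_fun (g := fun y => fderiv ℝ g y (Pi.single 1 1)) measurableSet_Icc
    (fun y hy => hpot y hy), key, Fin.sum_univ_two]
  have z0 : ∀ c : ℝ, ∫ x in Icc (a ∘ (0 : Fin 2).succAbove) (b ∘ (0 : Fin 2).succAbove),
      f ((0 : Fin 2).insertNth c x) 0 = 0 := by
    intro c; simp [hf]
  rw [z0, z0]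
  have hins : ∀ (c : ℝ) (x : Fin 1 → ℝ), ((1 : Fin 2).insertNth c x : Fin 2 → ℝ) = ![x 0, c] := by
    intro c x
    ext i
    fin_cases i
    · have : ((1 : Fin 2).insertNth c x : Fin 2 → ℝ) ((1 : Fin 2).succAbove 0) = x 0 :=
        Fin.insertNth_apply_succAbove _ _ _ _
      simpa using this
    · simp
  have hsa : (1 : Fin 2).succAbove 0 = 0 := by decide
  have hgc : ∀ c : ℝ, c = a 1 ∨ c = b 1 → ContinuousOn (fun x : Fin 1 → ℝ => g ![x 0, c])
      (Icc (a ∘ (1 : Fin 2).succAbove) (b ∘ (1 : Fin 2).succAbove)) := by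
    intro c hc x hx
    have h0 : a 0 ≤ x 0 ∧ x 0 ≤ b 0 := by
      have h1 := hx.1 0
      have h2 := hx.2 0
      simp only [Function.comp_apply, hsa] at h1 h2
      exact ⟨h1, h2⟩
    have hmem : (![x 0, c] : Fin 2 → ℝ) ∈ Icc a b := by
      have h3 : a 1 ≤ c ∧ c ≤ b 1 := by
        rcases hc with rfl | rfl
        · exact ⟨le_rfl, hab 1⟩
        · exact ⟨hab 1, le_rfl⟩
      constructor
      · intro i; fin_cases i
        · exact h0.1
        · exact h3.1
      · intro i; fin_cases i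
        · exact h0.2
        · exact h3.2
    have h4 : ContinuousAt g ![x 0, c] := (hg _ hmem).continuousAt
    have h5 : Continuous (fun x : Fin 1 → ℝ => (![x 0, c] : Fin 2 → ℝ)) := by
      refine continuous_pi fun i => ?_
      fin_cases i
      · exact continuous_apply 0
      · exact continuous_const
    exact (ContinuousAt.comp (g := g) (f := fun x : Fin 1 → ℝ => (![x 0, c] : Fin 2 → ℝ))
      h4 h5.continuousAt).continuousWithinAt
  have hi1 := (hgc (b 1) (Or.inr rfl)).integrableOn_compact isCompact_Icc (μ := volume)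
  have hi2 := (hgc (a 1) (Or.inl rfl)).integrableOn_compact isCompact_Icc (μ := volume)
  have hb1 : ∀ c : ℝ, ∫ x in Icc (a ∘ (1 : Fin 2).succAbove) (b ∘ (1 : Fin 2).succAbove),
      f ((1 : Fin 2).insertNth c x) 1 =
      ∫ x : Fin 1 → ℝ in Icc (a ∘ (1 : Fin 2).succAbove) (b ∘ (1 : Fin 2).succAbove),
        g ![x 0, c] := by
    intro c
    apply setIntegral_congr_fun measurableSet_Icc
    intro x hx
    simp only [hf, hins]
    simp
  rw [hb1, hb1, ← integral_sub hi1 hi2]
  rw [setIntegral_congr_fun (g := fun _ => s) measurableSet_Icc]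
  · rw [setIntegral_const, Measure.real, Real.volume_Icc_pi_toReal (by
      intro i
      exact hab _)]
    simp [hsa]
  · intro x hx
    have h0 : x 0 ∈ Icc (a 0) (b 0) := by
      have h1 := hx.1 0
      have h2 := hx.2 0
      simp only [Function.comp_apply, hsa] at h1 h2
      exact ⟨h1, h2⟩
    exact hend _ h0

/-- a family of points of a second countable metric space, each isolated in the family, is
countable -/
lemma countable_of_isolated {ι Y : Type*} [PseudoMetricSpace Y] [SecondCountableTopology Y]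
    (J : ι → Y) (h : ∀ i, ∃ ε > 0, ∀ j, dist (J i) (J j) < ε → i = j) : Countable ι := by
  choose ε hε hεj using h
  have hB : ∀ i, ∃ b ∈ TopologicalSpace.countableBasis Y, J i ∈ b ∧ b ⊆ Metric.ball (J i) (ε i) :=
    fun i => (TopologicalSpace.isBasis_countableBasis Y).exists_subset_of_mem_open
      (Metric.mem_ball_self (hε i)) Metric.isOpen_ball
  choose b hb hJb hbb using hB
  have hinj : Function.Injective (fun i => (⟨b i, hb i⟩ : TopologicalSpace.countableBasis Y)) := by
    intro i j hij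
    have h1 : b i = b j := congrArg Subtype.val hij
    apply hεj i j
    have h2 : J j ∈ b i := by rw [h1]; exact hJb j
    have := hbb i h2
    rw [Metric.mem_ball, dist_comm] at this
    exact this
  have : Countable (TopologicalSpace.countableBasis Y) :=
    (TopologicalSpace.countable_countableBasis Y).to_subtype
  exact hinj.countable

end Pool.Agent.H844R2
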