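import Pool.Agent.H844R2.Loop
import Pool.Agent.H844R2.Stokes

open Set Filter Topology
open scoped ContDiff

namespace Pool.Agent.H844R2

lemma good_zero : Good 0 := by
  have h := hamPath_RR.static 0
  refine ⟨_, _, _, h, ?_, ?_, ∅, isCompact_empty, empty_subset _, 1, one_pos, ?_⟩
  · intro x _; exact RR_zero x
  · intro x _; rw [RR_zero, TE_zero]
  · intro t x _ _
    exact ⟨RR_zero x, by simp only [neg_zero, RR_zero], rfl⟩

lemma good_neg {s : ℝ} (h : Good s) : Good (-s) := by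
  obtain ⟨Θ, Θi, H, hp, h0, h1, C, hC, hCX, ε, hε, hsupp⟩ := h
  refine ⟨_, _, _, HamPath.inv XX_open hp, ?_, ?_, C, hC, hCX, ε, hε, ?_⟩
  · intro x hx
    have := hp.left 0 x hx
    rwa [h0 x hx] at this
  · intro x hx
    have hy : TE 2 Gb (-s) x ∈ XX := TE_mem_XX Gb_data hx
    have := hp.left 1 _ hy
    rw [h1 _ hy, TE_add Gb_data, add_neg_cancel, TE_zero] at this
    exact this
  · intro t x hx hc
    obtain ⟨a, b, c⟩ := hsupp t x hx hc
    exact ⟨b, a, by rw [a, c, neg_zero]⟩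

lemma good_add {s s' : ℝ} (h : Good s) (h' : Good s') : Good (s + s') := by
  obtain ⟨Θ, Θi, H, hp, h0, h1, C, hC, hCX, ε, hε, hsupp⟩ := h
  obtain ⟨Θ', Θi', H', hp', h0', h1', C', hC', hCX', ε', hε', hsupp'⟩ := h'
  refine ⟨_, _, _, HamPath.comp XX_open hp hp', ?_, ?_, C ∪ C', hC.union hC',
    union_subset hCX hCX', min ε ε', lt_min hε hε', ?_⟩
  · intro x hx
    rw [h0' x hx, h0 x hx]
  · intro x hx
    rw [h1' x hx, h1 _ (TE_mem_XX Gb_data hx), TE_add Gb_data]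
  · intro t x hx hc
    have hc1 : x ∉ C ∨ NN 2 x < ε := by
      rcases hc with hc | hc
      · exact Or.inl fun hx => hc (Or.inl hx)
      · exact Or.inr (lt_of_lt_of_le hc (min_le_left _ _))
    have hc2 : x ∉ C' ∨ NN 2 x < ε' := by
      rcases hc with hc | hc
      · exact Or.inl fun hx => hc (Or.inr hx)
      · exact Or.inr (lt_of_lt_of_le hc (min_le_right _ _))
    obtain ⟨a, b, c⟩ := hsupp t x hx hc1
    obtain ⟨a', b', c'⟩ := hsupp' t x hx hc2
    refine ⟨?_, ?_, ?_⟩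
    · rw [a', a]
    · rw [b, b']
    · rw [b, c, c', add_zero]

/-- the group of realised fluxes -/
def goodGroup : AddSubgroup ℝ where
  carrier := {s | Good s}
  add_mem' := good_add
  zero_mem' := good_zero
  neg_mem' := good_neg

lemma dense_good : Dense (goodGroup : Set ℝ) := by
  rcases AddSubgroup.dense_or_cyclic goodGroup with h | ⟨a, ha⟩
  · exact h
  · exfalso
    have h1 : cf 1 ∈ goodGroup := good_cf 1
    have h2 : cf 2 ∈ goodGroup := good_cf 2
    rw [ha, AddSubgroup.mem_closure_singleton] at h1 h2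
    obtain ⟨n, hn⟩ := h1
    obtain ⟨k, hk⟩ := h2
    have e1 : cf 1 = 4 * Real.pi := by
      unfold cf; simp [av]; norm_num
    have e2 : cf 2 = -(4 * Real.pi * √2) := by
      unfold cf; simp [av]
    rw [e1] at hn
    rw [e2] at hk
    have hpi := Real.pi_pos
    simp only [zsmul_eq_mul] at hn hk
    have hn0 : (n : ℝ) ≠ 0 := by
      intro h0; rw [h0, zero_mul] at hn; linarith
    have ha0 : a ≠ 0 := by
      intro h0; rw [h0, mul_zero] at hn; linarith
    have h3 : √2 * n = - (k : ℝ) := by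
      have : (√2 * n + k) * a = 0 := by
        have h4 : √2 * (n * a) + k * a = 0 := by rw [hn, hk]; ring
        linarith
      have := (mul_eq_zero.1 this).resolve_right ha0
      linarith
    have h5 : √2 = ((-(k : ℚ) / (n : ℚ) : ℚ) : ℝ) := by
      push_cast
      rw [eq_div_iff hn0]; exact h3
    exact irrational_sqrt_two ⟨_, h5.symm⟩

/-- the puncture -/
def P0 : E4 := (0, 0, 2, 0)

/-- the punctured manifold -/
def MX : Set E4 := XX \ {P0}

lemma MX_open : IsOpen MX := XX_open.sdiff isClosed_singleton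

lemma rad_P0 : rad P0 = 2 := by
  apply rad_eq_of_sq (by norm_num)
  simp [P0]

lemma P0_VV : P0 ∈ VV := by
  change 0 < rad P0 + P0.2.2.1
  rw [rad_P0]; simp [P0]

lemma NN_P0 : NN 2 P0 = 0 := by
  unfold NN; rw [rad_P0]; simp [P0]

theorem symplectic_MX : SymplecticOn MX OO where
  isOpen := MX_open
  smooth := symplectic_XX.smooth.mono (fun _ hx => hx.1)
  alternating x hx := symplectic_XX.alternating x hx.1
  nondegenerate x hx := symplectic_XX.nondegenerate x hx.1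
  closed x hx := symplectic_XX.closed x hx.1

lemma TE_P0 (τ : ℝ) : TE 2 Gb τ P0 = P0 :=
  TE_eq_self (Gb_deriv_of_lt (by rw [NN_P0]; norm_num))

lemma TE_MX {τ : ℝ} {x : E4} (hx : x ∈ MX) : TE 2 Gb τ x ∈ MX := by
  refine ⟨TE_mem_XX Gb_data hx.1, ?_⟩
  intro h
  have h' : TE 2 Gb τ x = P0 := h
  have : x = P0 := by
    have h2 := TE_add Gb_data (-τ) τ x
    rw [neg_add_cancel, TE_zero, h', TE_P0] at h2
    exact h2.symm
  exact hx.2 this

lemma good_mem_HamC {s : ℝ} (h : Good s) : TE 2 Gb s ∈ HamC MX OO := by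
  obtain ⟨Θ, Θi, H, hp, h0, h1, C, hC, hCX, ε, hε, hsupp⟩ := h
  have hsub : Icc (0 : ℝ) 1 ×ˢ MX ⊆ univ ×ˢ XX := fun p hp => ⟨mem_univ _, hp.2.1⟩
  have hP0 : ∀ t, Θ t P0 = P0 := fun t =>
    (hsupp t P0 (Or.inl P0_VV) (Or.inr (by rw [NN_P0]; exact hε))).1
  have hNc : ContinuousOn (NN 2) C := fun p hp =>
    (NN_contDiffAt (rad_pos_XX (hCX hp))).continuousAt.continuousWithinAt
  have hKc : IsCompact (C ∩ NN 2 ⁻¹' Ici ε) := by
    obtain ⟨u, hu, hue⟩ := (continuousOn_iff_isClosed.1 hNc) _ (isClosed_Ici (a := ε))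
    have e : C ∩ NN 2 ⁻¹' Ici ε = C ∩ u := by
      rw [inter_comm, hue, inter_comm]
    rw [e]
    exact hC.inter_right hu
  refine ⟨C ∩ NN 2 ⁻¹' Ici ε, ?_, hKc, H, Θ, hp.smoothH.mono hsub, ?_, hp.smooth.mono hsub, ?_, ?_,
    fun x hx => h0 x hx.1, fun x hx => h1 x hx.1⟩
  · rintro x ⟨hx, hx2⟩
    refine ⟨hCX hx, ?_⟩
    rintro rfl
    have : ε ≤ NN 2 P0 := hx2
    rw [NN_P0] at this
    linarith
  · intro t _ x hx hxK
    refine (hsupp t x hx.1 ?_).2.2
    by_cases hxC : x ∈ C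
    · right
      by_contra hcon
      exact hxK ⟨hxC, not_lt.1 hcon⟩
    · exact Or.inl hxC
  · intro t _ x hx
    refine ⟨hp.maps t hx.1, ?_⟩
    intro hcon
    have hcon' : Θ t x = P0 := hcon
    have h2 := hp.left t x hx.1
    have h3 := hp.left t P0 (Or.inl P0_VV)
    rw [hP0 t] at h3
    rw [hcon', h3] at h2
    exact hx.2 h2.symm
  · intro t _ x hx
    refine ⟨_, (joint_time (hp.cd XX_open t hx.1)).hasDerivWithinAt, ?_⟩
    intro w
    rw [← hp.ham t x hx.1 w, (joint_time (hp.cd XX_open t hx.1)).deriv]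

/-- the common compact support -/
def Kc : Set E4 := {p | 1 / 4 ≤ rad p ∧ NN 2 p ≤ 3} ∩ {p | 1 / 4 ≤ rad p → 1 / 2 ≤ NN 2 p}

lemma compact_Kc : IsCompact Kc := by
  have h1 : IsCompact {p : E4 | 1 / 4 ≤ rad p ∧ NN 2 p ≤ 3} :=
    compact_NN (by norm_num) le_rfl (Or.inl rfl)
  have hNc : ContinuousOn (NN 2) {p : E4 | 1 / 4 ≤ rad p ∧ NN 2 p ≤ 3} := fun p hp =>
    (NN_contDiffAt (lt_of_lt_of_le (by norm_num) hp.1)).continuousAt.continuousWithinAt
  obtain ⟨u, hu, hue⟩ := (continuousOn_iff_isClosed.1 hNc) _ (isClosed_Ici (a := (1 : ℝ) / 2))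
  have e : Kc = {p : E4 | 1 / 4 ≤ rad p ∧ NN 2 p ≤ 3} ∩ u := by
    rw [inter_comm _ u, ← hue]
    ext p
    constructor
    · rintro ⟨h1, h2⟩; exact ⟨h2 h1.1, h1⟩
    · rintro ⟨h1, h2⟩; exact ⟨h2, fun _ => h1⟩
  rw [e]
  exact h1.inter_right hu

lemma Kc_sub : Kc ⊆ MX := by
  rintro p ⟨⟨h1, h2⟩, h3⟩
  refine ⟨mem_XX_of_NN (lt_of_lt_of_le (by norm_num) h1) (lt_of_le_of_lt h2 (by norm_num)), ?_⟩
  rintro rfl
  have := h3 h1
  rw [NN_P0] at this
  norm_num at this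

lemma TE_off_Kc {τ : ℝ} {x : E4} (hx : x ∈ MX) (hK : x ∉ Kc) : TE 2 Gb τ x = x := by
  have hr := rad_pos_XX hx.1
  apply TE_eq_self
  by_cases h1 : NN 2 x < 1
  · exact Gb_deriv_of_lt h1
  · rw [not_lt] at h1
    by_cases h2 : 3 < NN 2 x
    · exact Gb_deriv_of_gt (by linarith)
    · exfalso
      rw [not_lt] at h2
      apply hK
      refine ⟨⟨?_, h2⟩, fun _ => by linarith⟩
      have := (NN_bounds hr h2).1
      by_contra hcon
      rw [not_le] at hcon
      nlinarith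

lemma TE_mem_SympC0 (s : ℝ) : TE 2 Gb s ∈ SympC0 MX OO := by
  have hp := (hamPath_TE Gb_data).speed XX_open s
  have hsub : Icc (0 : ℝ) 1 ×ˢ MX ⊆ univ ×ˢ XX := fun p hp => ⟨mem_univ _, hp.2.1⟩
  refine ⟨Kc, Kc_sub, compact_Kc, fun t => TE 2 Gb (s * t), hp.smooth.mono hsub, ?_, ?_, ?_⟩
  · intro t _
    have hst := (hamPath_TE Gb_data).static (s * t)
    have hcd : ∀ (q : HamPath XX OO (fun _ => TE 2 Gb (s * t)) (fun _ => TE 2 Gb (-(s * t)))
        (fun _ _ => 0)), ContDiffOn ℝ ∞ (TE 2 Gb (s * t)) MX ∧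
        ContDiffOn ℝ ∞ (TE 2 Gb (-(s * t))) MX := by
      intro q
      have hi : ContDiffOn ℝ ∞ (fun x : E4 => ((0 : ℝ), x)) MX := by fun_prop
      exact ⟨q.smooth.comp hi (fun x hx => ⟨mem_univ _, hx.1⟩),
        q.smoothInv.comp hi (fun x hx => ⟨mem_univ _, hx.1⟩)⟩
    refine ⟨(hcd hst).1, fun x hx => TE_MX hx, ⟨TE 2 Gb (-(s * t)), (hcd hst).2,
      fun x hx => TE_MX hx, fun x hx => ⟨hst.left 0 x hx.1, hst.right 0 x hx.1⟩⟩, ?_,
      fun x hx hK => TE_off_Kc hx hK⟩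
    intro x hx v w
    exact hst.sympl 0 x hx.1 v w
  · intro x _
    simp only [mul_zero]; exact TE_zero x
  · intro x _
    simp only [mul_one]

lemma TE_tendsto {s : ℝ} {u : ℕ → ℝ} (hu : Tendsto u atTop (𝓝 s)) :
    TendstoUniformlyOn (fun k => TE 2 Gb (u k)) (TE 2 Gb s) atTop MX := by
  have hc : ContinuousOn (fun p : ℝ × E4 => TE 2 Gb p.1 p.2) (Metric.closedBall s 1 ×ˢ Kc) :=
    (TE_contDiffOn Gb_data).continuousOn.mono (fun p hp => ⟨mem_univ _, (Kc_sub hp.2).1⟩)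
  have huc := ((isCompact_closedBall s 1).prod compact_Kc).uniformContinuousOn_of_continuous hc
  rw [Metric.uniformContinuousOn_iff] at huc
  rw [Metric.tendstoUniformlyOn_iff]
  intro ε hε
  obtain ⟨δ, hδ, hδ'⟩ := huc ε hε
  have h1 : ∀ᶠ k in atTop, dist (u k) s < min δ 1 :=
    (Metric.tendsto_nhds.1 hu) _ (lt_min hδ one_pos)
  filter_upwards [h1] with k hk x hx
  by_cases hK : x ∈ Kc
  · apply hδ' (s, x) ⟨Metric.mem_closedBall_self zero_le_one, hK⟩ (u k, x)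
      ⟨Metric.mem_closedBall.2 (hk.le.trans (min_le_right _ _)), hK⟩
    rw [Prod.dist_eq]
    simp only [dist_self]
    rw [dist_comm]
    exact max_lt (lt_of_lt_of_le hk (min_le_left _ _)) hδ
  · rw [TE_off_Kc hx hK, TE_off_Kc hx hK, dist_self]
    exact hε

end Pool.Agent.H844R2
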