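import Pool.Agent.H844R2.Form

open Set Filter Topology
open scoped ContDiff

namespace Pool.Agent.H844R2

/-! ### The rotation about the third axis -/

/-- the rotation of the first plane -/
noncomputable def RR (t : ℝ) (p : E4) : E4 :=
  (p.1 * Real.cos t - p.2.1 * Real.sin t, p.1 * Real.sin t + p.2.1 * Real.cos t, p.2.2.1, p.2.2.2)

/-- the infinitesimal rotation -/
def rot (p : E4) : E4 := (-p.2.1, p.1, 0, 0)

noncomputable def KK (p : E4) : ℝ := ar (rad p) * (p.2.2.1 / rad p - 1)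

lemma rad_RR (t : ℝ) (p : E4) : rad (RR t p) = rad p := by
  unfold rad RR
  congr 1
  simp only
  have := Real.sin_sq_add_cos_sq t
  linear_combination (p.1 ^ 2 + p.2.1 ^ 2) * this

lemma RR_add (s t : ℝ) (p : E4) : RR s (RR t p) = RR (s + t) p := by
  unfold RR
  simp only [Real.cos_add, Real.sin_add]
  refine Prod.ext ?_ (Prod.ext ?_ rfl) <;> simp only <;> ring

lemma RR_zero (p : E4) : RR 0 p = p := by
  simp [RR]

lemma RR_VV {t : ℝ} {p : E4} : RR t p ∈ VV ↔ p ∈ VV := by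
  change 0 < rad (RR t p) + (RR t p).2.2.1 ↔ 0 < rad p + p.2.2.1
  rw [rad_RR]; rfl

lemma RR_UU {t : ℝ} {p : E4} {j : Fin 3} : RR t p ∈ UU j ↔ p ∈ UU j := by
  change |rad (RR t p) - ctr j| < 1 / 4 ↔ |rad p - ctr j| < 1 / 4
  rw [rad_RR]

lemma RR_XX {t : ℝ} {p : E4} : RR t p ∈ XX ↔ p ∈ XX := by
  change (RR t p ∈ VV ∨ ∃ j, RR t p ∈ UU j) ↔ (p ∈ VV ∨ ∃ j, p ∈ UU j)
  simp only [RR_VV, RR_UU]

lemma qq_RR (t : ℝ) (p : E4) : qq (RR t p) = qq p := by
  unfold qq; rw [rad_RR]; rfl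

lemma ZZ_RR (t : ℝ) (p : E4) : ZZ (RR t p) = RR t (ZZ p) := by
  unfold ZZ
  rw [qq_RR, rad_RR]
  simp only [RR]
  refine Prod.ext ?_ (Prod.ext ?_ rfl) <;> simp only <;> ring

lemma kk_RR (t : ℝ) (z : E4) : kk (RR t z) = kk z := by
  unfold kk RR
  simp only
  have h : (z.1 * Real.cos t - z.2.1 * Real.sin t) ^ 2 + (z.1 * Real.sin t + z.2.1 * Real.cos t) ^ 2 =
      z.1 ^ 2 + z.2.1 ^ 2 := by
    have := Real.sin_sq_add_cos_sq t
    linear_combination (z.1 ^ 2 + z.2.1 ^ 2) * this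
  rw [h]

lemma WW_RR (t : ℝ) (z : E4) : WW (RR t z) = RR t (WW z) := by
  have h : (z.1 * Real.cos t - z.2.1 * Real.sin t) ^ 2 + (z.1 * Real.sin t + z.2.1 * Real.cos t) ^ 2 =
      z.1 ^ 2 + z.2.1 ^ 2 := by
    have := Real.sin_sq_add_cos_sq t
    linear_combination (z.1 ^ 2 + z.2.1 ^ 2) * this
  unfold WW
  rw [kk_RR]
  simp only [RR]
  rw [h]
  refine Prod.ext ?_ (Prod.ext ?_ rfl) <;> simp only <;> ring

lemma KK_RR (t : ℝ) (p : E4) : KK (RR t p) = KK p := by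
  unfold KK; rw [rad_RR]; rfl

lemma hasDerivAt_RR (p : E4) (t : ℝ) : HasDerivAt (fun τ => RR τ p) (rot (RR t p)) t := by
  have hc := Real.hasDerivAt_cos t
  have hs := Real.hasDerivAt_sin t
  have h1 := (hc.const_mul p.1).sub (hs.const_mul p.2.1)
  have h2 := (hs.const_mul p.1).add (hc.const_mul p.2.1)
  have h3 := h1.prodMk (h2.prodMk ((hasDerivAt_const t p.2.2.1).prodMk (hasDerivAt_const t p.2.2.2)))
  refine HasDerivAt.congr_deriv h3 ?_
  unfold rot RR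
  refine Prod.ext ?_ (Prod.ext ?_ rfl) <;> simp only <;> ring

lemma fderiv_ZZ_rot {p : E4} (hp : p ∈ VV) : fderiv ℝ ZZ p (rot p) = rot (ZZ p) := by
  have h0 : HasDerivAt (fun τ => RR τ p) (rot p) 0 := by
    have := hasDerivAt_RR p 0
    rwa [RR_zero] at this
  have d1 : HasFDerivAt ZZ (fderiv ℝ ZZ p) (RR 0 p) := by
    rw [RR_zero]
    exact ((ZZ_contDiffAt hp).differentiableAt (by simp)).hasFDerivAt
  have h1 := HasFDerivAt.comp_hasDerivAt (f := fun τ => RR τ p) (0 : ℝ) d1 h0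
  have h2 : HasDerivAt (ZZ ∘ fun τ => RR τ p) (rot (ZZ p)) 0 := by
    have e : (ZZ ∘ fun τ => RR τ p) = fun τ => RR τ (ZZ p) := by
      ext1 τ; exact ZZ_RR τ p
    rw [e]
    have := hasDerivAt_RR (ZZ p) 0
    rwa [RR_zero] at this
  exact h1.unique h2

lemma ZZ_comp_hasFDerivAt {p : E4} (hp : p ∈ VV) :
    HasFDerivAt (fun p => (ZZ p).1) (c1.comp (fderiv ℝ ZZ p)) p ∧
    HasFDerivAt (fun p => (ZZ p).2.1) (c2.comp (fderiv ℝ ZZ p)) p ∧
    HasFDerivAt (fun p => (ZZ p).2.2.1) (c3.comp (fderiv ℝ ZZ p)) p ∧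
    HasFDerivAt (fun p => (ZZ p).2.2.2) (c4.comp (fderiv ℝ ZZ p)) p := by
  have d1 := ((ZZ_contDiffAt hp).differentiableAt (by simp)).hasFDerivAt
  refine ⟨?_, ?_, ?_, ?_⟩
  · exact HasFDerivAt.comp (g := c1) (f := ZZ) p c1.hasFDerivAt d1
  · exact HasFDerivAt.comp (g := c2) (f := ZZ) p c2.hasFDerivAt d1
  · exact HasFDerivAt.comp (g := c3) (f := ZZ) p c3.hasFDerivAt d1
  · exact HasFDerivAt.comp (g := c4) (f := ZZ) p c4.hasFDerivAt d1

lemma KK_contDiffAt {p : E4} (hp : 0 < rad p) : ContDiffAt ℝ ∞ KK p := by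
  have hr := rad_contDiffAt hp
  have ha : ContDiffAt ℝ ∞ (fun p => ar (rad p)) p := ar_contDiff.contDiffAt.comp p hr
  unfold KK
  exact ha.mul ((ContDiffAt.div (by fun_prop) hr hp.ne').sub contDiffAt_const)

/-- `KK` generates the rotation -/
lemma OO_rot {p : E4} (hp : p ∈ XX) (w : E4) : OO p (rot p) w = fderiv ℝ KK p w := by
  by_cases h : p ∈ VV
  · rw [OO_apply_VV h, fderiv_ZZ_rot h, om0_apply]
    obtain ⟨d1, d2, -, -⟩ := ZZ_comp_hasFDerivAt h
    have e : KK =ᶠ[𝓝 p] fun p => -(1 / 2) * ((ZZ p).1 ^ 2 + (ZZ p).2.1 ^ 2) := by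
      filter_upwards [VV_open.mem_nhds h] with y hy
      rw [ZZ_norm y hy]; unfold KK; ring
    rw [e.fderiv_eq]
    have h3 : HasFDerivAt (fun p => -(1 / 2) * ((ZZ p).1 ^ 2 + (ZZ p).2.1 ^ 2)) _ p :=
      ((d1.pow 2).add (d2.pow 2)).const_mul (-(1 / 2 : ℝ))
    rw [h3.fderiv]
    simp only [rot, _root_.smul_apply, _root_.add_apply, ContinuousLinearMap.comp_apply, c1_apply,
      c2_apply, smul_eq_mul]
    simp
    ring
  · rcases hp with h' | ⟨j, h'⟩
    · exact absurd h' h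
    · have hr := rad_pos_UU h'
      rw [OO_UU h', SS_apply]
      have e : KK =ᶠ[𝓝 p] fun p => av j * (p.2.2.1 * (rad p)⁻¹ - 1) := by
        filter_upwards [(UU_open j).mem_nhds h'] with y hy
        unfold KK; rw [ar_eq j hy, div_eq_mul_inv]
      have dr : HasFDerivAt rad (fderiv ℝ rad p) p :=
        ((rad_contDiffAt hr).differentiableAt (by simp)).hasFDerivAt
      have dri : HasFDerivAt (fun p => (rad p)⁻¹) _ p :=
        HasDerivAt.comp_hasFDerivAt (h₂ := fun x : ℝ => x⁻¹) p (hasDerivAt_inv hr.ne') dr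
      have a3 : HasFDerivAt (fun p : E4 => p.2.2.1) c3 p := c3.hasFDerivAt
      have h3 : HasFDerivAt (fun p : E4 => av j * (p.2.2.1 * (rad p)⁻¹ - 1)) _ p :=
        ((a3.mul dri).sub_const 1).const_mul (av j)
      rw [e.fderiv_eq, h3.fderiv, ar_eq j h']
      simp only [rot, _root_.smul_apply, _root_.add_apply, c3_apply, smul_eq_mul, rad_fderiv hr]
      have hs := rad_sq p
      field_simp
      linear_combination (-(av j) * w.2.2.1) * hs

lemma RR_smooth : ContDiff ℝ ∞ (fun p : ℝ × E4 => RR p.1 p.2) := by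
  unfold RR
  have h1 : ContDiff ℝ ∞ (fun p : ℝ × E4 => Real.cos p.1) := Real.contDiff_cos.comp contDiff_fst
  have h2 : ContDiff ℝ ∞ (fun p : ℝ × E4 => Real.sin p.1) := Real.contDiff_sin.comp contDiff_fst
  exact (((by fun_prop : ContDiff ℝ ∞ (fun p : ℝ × E4 => p.2.1)).mul h1).sub
    ((by fun_prop : ContDiff ℝ ∞ (fun p : ℝ × E4 => p.2.2.1)).mul h2)).prodMk
    ((((by fun_prop : ContDiff ℝ ∞ (fun p : ℝ × E4 => p.2.1)).mul h2).add
    ((by fun_prop : ContDiff ℝ ∞ (fun p : ℝ × E4 => p.2.2.1)).mul h1)).prodMk (by fun_prop))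

lemma hamPath_RR : HamPath XX OO RR (fun t => RR (-t)) (fun _ => KK) := by
  have hi : ContDiff ℝ ∞ (fun p : ℝ × E4 => RR (-p.1) p.2) :=
    RR_smooth.comp (contDiff_fst.neg.prodMk contDiff_snd)
  refine HamPath.mk' symplectic_XX RR_smooth.contDiffOn hi.contDiffOn ?_ ?_ ?_ ?_ ?_ ?_ ?_
  · intro p hp
    have : ContDiffAt ℝ ∞ (fun p : ℝ × E4 => KK p.2) p :=
      ContDiffAt.comp (g := KK) (f := fun p : ℝ × E4 => p.2) p (KK_contDiffAt (rad_pos_XX hp.2))
        contDiffAt_snd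
    exact this.contDiffWithinAt
  · intro t x hx; exact RR_XX.2 hx
  · intro t x hx; exact RR_XX.2 hx
  · intro t x hx; simp only [RR_add, neg_add_cancel, RR_zero]
  · intro t x hx; simp only [RR_add, add_neg_cancel, RR_zero]
  · intro t x hx w
    rw [(hasDerivAt_RR x t).deriv]
    exact OO_rot (RR_XX.2 hx) w
  · intro x hx; exact RR_zero x

end Pool.Agent.H844R2
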