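import Pool.Agent.H844R2.Model

open Set Filter Topology
open scoped ContDiff

namespace Pool.Agent.H844R2

/-- the form on the round regions -/
noncomputable def SS (p : E4) : E4 →L[ℝ] E4 →L[ℝ] ℝ :=
  (ar (rad p) / rad p ^ 3) • (p.1 • wedge c2 c3 + p.2.1 • wedge c3 c1 + p.2.2.1 • wedge c1 c2) +
  (rad p)⁻¹ • (p.1 • wedge c1 c4 + p.2.1 • wedge c2 c4 + p.2.2.1 • wedge c3 c4)

/-- the form on the chart region -/
noncomputable def PP (p : E4) : E4 →L[ℝ] E4 →L[ℝ] ℝ :=
  om0.bilinearComp (fderiv ℝ ZZ p) (fderiv ℝ ZZ p)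

open Classical in
/-- the symplectic form -/
noncomputable def OO (p : E4) : E4 →L[ℝ] E4 →L[ℝ] ℝ := if p ∈ VV then PP p else SS p

lemma PP_apply (p u w : E4) : PP p u w = om0 (fderiv ℝ ZZ p u) (fderiv ℝ ZZ p w) := rfl

lemma OO_VV {p : E4} (hp : p ∈ VV) : OO p = PP p := by simp [OO, hp]

lemma OO_apply_VV {p : E4} (hp : p ∈ VV) (u w : E4) :
    OO p u w = om0 (fderiv ℝ ZZ p u) (fderiv ℝ ZZ p w) := by rw [OO_VV hp, PP_apply]

lemma SS_apply (p u w : E4) : SS p u w =
    (ar (rad p) / rad p ^ 3) * (p.1 * (u.2.1 * w.2.2.1 - u.2.2.1 * w.2.1) +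
      p.2.1 * (u.2.2.1 * w.1 - u.1 * w.2.2.1) + p.2.2.1 * (u.1 * w.2.1 - u.2.1 * w.1)) +
    (rad p)⁻¹ * ((p.1 * u.1 + p.2.1 * u.2.1 + p.2.2.1 * u.2.2.1) * w.2.2.2 -
      (p.1 * w.1 + p.2.1 * w.2.1 + p.2.2.1 * w.2.2.1) * u.2.2.2) := by
  simp only [SS, _root_.add_apply, _root_.smul_apply, wedge_apply, smul_eq_mul, c1_apply, c2_apply,
    c3_apply, c4_apply]
  ring

lemma fderiv_ZZ {p : E4} (hp : p ∈ VV) (u : E4) : fderiv ℝ ZZ p u =
    (√(qq p) * u.1 + p.1 * fderiv ℝ (fun p => √(qq p)) p u,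
      √(qq p) * u.2.1 + p.2.1 * fderiv ℝ (fun p => √(qq p)) p u, fderiv ℝ rad p u, u.2.2.2) := by
  have hg : HasFDerivAt (fun p => √(qq p)) (fderiv ℝ (fun p => √(qq p)) p) p :=
    ((gg_contDiffAt hp).differentiableAt (by simp)).hasFDerivAt
  have hr : HasFDerivAt rad (fderiv ℝ rad p) p :=
    ((rad_contDiffAt (rad_pos_VV hp)).differentiableAt (by simp)).hasFDerivAt
  have a1 : HasFDerivAt (fun p : E4 => p.1) c1 p := c1.hasFDerivAt
  have a2 : HasFDerivAt (fun p : E4 => p.2.1) c2 p := c2.hasFDerivAt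
  have a4 : HasFDerivAt (fun p : E4 => p.2.2.2) c4 p := c4.hasFDerivAt
  have h : HasFDerivAt ZZ _ p := (hg.mul a1).prodMk ((hg.mul a2).prodMk (hr.prodMk a4))
  rw [h.fderiv]
  simp

/-- derivative of the square of the scale factor on a round region -/
lemma fderiv_qq {p : E4} (hp : p ∈ VV) {j : Fin 3} (hj : p ∈ UU j) (u : E4) :
    fderiv ℝ qq p u = - 2 * av j * (fderiv ℝ rad p u * (rad p + p.2.2.1) +
      rad p * (fderiv ℝ rad p u + u.2.2.1)) / (rad p * (rad p + p.2.2.1)) ^ 2 := by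
  have h1 := rad_pos_VV hp
  have h2 : 0 < rad p + p.2.2.1 := hp
  have hr : HasFDerivAt rad (fderiv ℝ rad p) p :=
    ((rad_contDiffAt h1).differentiableAt (by simp)).hasFDerivAt
  have a3 : HasFDerivAt (fun p : E4 => p.2.2.1) c3 p := c3.hasFDerivAt
  have e : qq =ᶠ[𝓝 p] fun p => 2 * av j * (rad p * (rad p + p.2.2.1))⁻¹ := by
    filter_upwards [(UU_open j).mem_nhds hj] with y hy
    unfold qq
    rw [ar_eq j hy, div_eq_mul_inv]
  rw [e.fderiv_eq]
  have h3 := hr.mul (hr.add a3)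
  have h4 : HasFDerivAt (fun p => (rad p * (rad p + p.2.2.1))⁻¹) _ p :=
    HasDerivAt.comp_hasFDerivAt (h₂ := fun x : ℝ => x⁻¹) p
      (hasDerivAt_inv (mul_pos h1 h2).ne') h3
  rw [(h4.const_mul (2 * av j)).fderiv]
  simp
  field_simp
  ring

lemma PP_eq_SS {p : E4} (hp : p ∈ VV) {j : Fin 3} (hj : p ∈ UU j) : PP p = SS p := by
  refine ContinuousLinearMap.ext fun u => ContinuousLinearMap.ext fun w => ?_
  rw [PP_apply, SS_apply, fderiv_ZZ hp, fderiv_ZZ hp, om0_apply]
  simp only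
  have h1 := rad_pos_VV hp
  have h2 : 0 < rad p + p.2.2.1 := hp
  have hg : HasFDerivAt (fun p => √(qq p)) (fderiv ℝ (fun p => √(qq p)) p) p :=
    ((gg_contDiffAt hp).differentiableAt (by simp)).hasFDerivAt
  have hg2 : HasFDerivAt (fun p => √(qq p) * √(qq p))
      ((√(qq p)) • fderiv ℝ (fun p => √(qq p)) p + (√(qq p)) • fderiv ℝ (fun p => √(qq p)) p) p :=
    hg.mul hg
  have hq : HasFDerivAt qq (fderiv ℝ qq p) p :=
    ((qq_contDiffAt hp).differentiableAt (by simp)).hasFDerivAt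
  have e : qq =ᶠ[𝓝 p] fun p => √(qq p) * √(qq p) := by
    filter_upwards [VV_open.mem_nhds hp] with y hy
    rw [Real.mul_self_sqrt (qq_pos hy).le]
  have hG : ∀ z : E4, fderiv ℝ qq p z = 2 * (√(qq p) * fderiv ℝ (fun p => √(qq p)) p z) := by
    intro z
    rw [e.fderiv_eq, hg2.fderiv]
    simp
    ring
  have hsq : √(qq p) * √(qq p) = qq p := Real.mul_self_sqrt (qq_pos hp).le
  have hGu := hG u
  have hGw := hG w
  rw [fderiv_qq hp hj] at hGu hGw
  rw [rad_fderiv h1] at hGu hGw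
  rw [rad_fderiv h1 u, rad_fderiv h1 w]
  have hs : p.1 ^ 2 + p.2.1 ^ 2 = (rad p - p.2.2.1) * (rad p + p.2.2.1) := by
    have := rad_sq p; linarith
  have hqe : qq p = 2 * av j / (rad p * (rad p + p.2.2.1)) := by unfold qq; rw [ar_eq j hj]
  rw [ar_eq j hj]
  replace hsq := hsq.trans hqe
  set g := √(qq p)
  set Gu := fderiv ℝ (fun p => √(qq p)) p u
  set Gw := fderiv ℝ (fun p => √(qq p)) p w
  set r := rad p
  obtain ⟨x, y, h, s⟩ := p
  obtain ⟨u1, u2, u3, u4⟩ := u
  obtain ⟨w1, w2, w3, w4⟩ := w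
  simp only at *
  linear_combination (norm := (field_simp; ring)) (u1 * w2 - u2 * w1) * hsq -
    (1 / 2) * (u1 * y - u2 * x) * hGw - (1 / 2) * (x * w2 - y * w1) * hGu -
    (av j * (2 * r + h) / (r ^ 3 * (r + h) ^ 2)) * (u1 * w2 - u2 * w1) * hs

lemma OO_UU {p : E4} {j : Fin 3} (hj : p ∈ UU j) : OO p = SS p := by
  unfold OO
  split_ifs with h
  · exact PP_eq_SS h hj
  · rfl

lemma form_contDiffOn {Θ : E4 → E4 →L[ℝ] E4 →L[ℝ] ℝ} {s : Set E4}
    (h : ∀ u w, ContDiffOn ℝ ∞ (fun p => Θ p u w) s) : ContDiffOn ℝ ∞ Θ s := by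
  rw [contDiffOn_clm_apply]
  intro u
  rw [contDiffOn_clm_apply]
  exact h u

lemma SS_contDiffAt {p : E4} (hp : 0 < rad p) : ContDiffAt ℝ ∞ SS p := by
  have hop : IsOpen {p : E4 | 0 < rad p} := isOpen_lt continuous_const rad_continuous
  have h : ContDiffOn ℝ ∞ SS {p : E4 | 0 < rad p} := by
    refine form_contDiffOn fun u w => ?_
    intro p hp
    apply ContDiffAt.contDiffWithinAt
    have hr := rad_contDiffAt hp
    have ha : ContDiffAt ℝ ∞ (fun p => ar (rad p)) p := ar_contDiff.contDiffAt.comp p hr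
    have h1 : ContDiffAt ℝ ∞ (fun p => ar (rad p) / rad p ^ 3) p :=
      ha.div (hr.pow 3) (pow_pos hp 3).ne'
    have h2 : ContDiffAt ℝ ∞ (fun p => (rad p)⁻¹) p := hr.inv (ne_of_gt hp)
    simp only [SS_apply]
    exact (h1.mul (by fun_prop)).add (h2.mul (by fun_prop))
  exact h.contDiffAt (hop.mem_nhds hp)

lemma PP_contDiffAt {p : E4} (hp : p ∈ VV) : ContDiffAt ℝ ∞ PP p := by
  have h : ContDiffOn ℝ ∞ PP VV := by
    refine form_contDiffOn fun u w => ?_
    intro p hp
    apply ContDiffAt.contDiffWithinAt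
    have h1 : ContDiffAt ℝ ∞ (fderiv ℝ ZZ) p := (ZZ_contDiffAt hp).fderiv_right (m := ∞) (by simp)
    have h2 : ContDiffAt ℝ ∞ (fun p => fderiv ℝ ZZ p u) p := h1.clm_apply contDiffAt_const
    have h3 : ContDiffAt ℝ ∞ (fun p => fderiv ℝ ZZ p w) p := h1.clm_apply contDiffAt_const
    simp only [PP_apply]
    exact (contDiffAt_const.clm_apply h2).clm_apply h3
  exact h.contDiffAt (VV_open.mem_nhds hp)

/-- the half turn about the first axis -/
noncomputable def flp : E4 →L[ℝ] E4 := c1.prod ((-c2).prod ((-c3).prod c4))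

lemma flp_apply (p : E4) : flp p = (p.1, -p.2.1, -p.2.2.1, p.2.2.2) := by
  simp [flp]

lemma rad_flp (p : E4) : rad (flp p) = rad p := by
  rw [flp_apply]; simp [rad]

lemma SS_flp (p u w : E4) : SS (flp p) (flp u) (flp w) = SS p u w := by
  rw [SS_apply, SS_apply, rad_flp]
  simp only [flp_apply]
  ring

lemma flp_mem_VV {p : E4} (hp : 0 < rad p) (hV : p ∉ VV) : flp p ∈ VV := by
  have h1 : ¬ (0 < rad p + p.2.2.1) := hV
  change 0 < rad (flp p) + (flp p).2.2.1
  rw [rad_flp, flp_apply]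
  simp only
  linarith

lemma flp_mem_UU {p : E4} {j : Fin 3} (hp : p ∈ UU j) : flp p ∈ UU j := by
  change |rad (flp p) - ctr j| < 1 / 4
  rw [rad_flp]; exact hp

lemma eventually_OO_flp {p : E4} {j : Fin 3} (hp : p ∈ UU j) (hV : p ∉ VV) :
    ∀ᶠ y in 𝓝 p, OO y = SS y ∧ DifferentiableAt ℝ ZZ (flp y) ∧ ∀ u w, OO y u w =
      pb (fun _ => om0) (fun y => ZZ (flp y)) y u w := by
  have h1 : flp p ∈ VV := flp_mem_VV (rad_pos_UU hp) hV
  have h2 : ∀ᶠ y in 𝓝 p, flp y ∈ VV :=
    flp.continuous.continuousAt.eventually_mem (VV_open.mem_nhds h1)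
  filter_upwards [h2, (UU_open j).mem_nhds hp] with y hy hyj
  have hd : DifferentiableAt ℝ ZZ (flp y) := (ZZ_contDiffAt hy).differentiableAt (by simp)
  refine ⟨OO_UU hyj, hd, fun u w => ?_⟩
  have h3 : HasFDerivAt (fun y => ZZ (flp y)) ((fderiv ℝ ZZ (flp y)).comp flp) y :=
    HasFDerivAt.comp (g := ZZ) (f := flp) y hd.hasFDerivAt flp.hasFDerivAt
  rw [OO_UU hyj, ← SS_flp, ← PP_eq_SS hy (flp_mem_UU hyj), PP_apply]
  unfold pb
  rw [h3.fderiv]
  rfl

lemma fderiv_form {Θ : E4 → E4 →L[ℝ] E4 →L[ℝ] ℝ} {p : E4} (h : DifferentiableAt ℝ Θ p)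
    (u v w : E4) : fderiv ℝ Θ p u v w = fderiv ℝ (fun y => Θ y v w) p u := by
  have h1 := (h.hasFDerivAt.clm_apply (hasFDerivAt_const v p)).clm_apply (hasFDerivAt_const w p)
  rw [h1.fderiv]
  simp

lemma om0_nondeg {u : E4} (h : ∀ w, om0 u w = 0) : u = 0 := by
  have h1 := h (1, 0, 0, 0)
  have h2 := h (0, 1, 0, 0)
  have h3 := h (0, 0, 1, 0)
  have h4 := h (0, 0, 0, 1)
  rw [om0_apply] at h1 h2 h3 h4
  simp at h1 h2 h3 h4
  exact Prod.ext h2 (Prod.ext h1 (Prod.ext h4 h3))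

/-- nondegeneracy on the chart region -/
lemma PP_nondeg {p : E4} (hp : p ∈ VV) {u : E4} (h : ∀ w, PP p u w = 0) : u = 0 := by
  have hz := ZZ_mem hp
  have d1 := ((ZZ_contDiffAt hp).differentiableAt (by simp)).hasFDerivAt
  have d2 := ((WW_contDiffAt hz).differentiableAt (by simp)).hasFDerivAt
  have hDD : IsOpen DD := by
    have e : DD = {z : E4 | 0 < z.2.2.1} ∩ {z : E4 | z.1 ^ 2 + z.2.1 ^ 2 < 4 * ar z.2.2.1} := rfl
    rw [e]
    refine (isOpen_lt continuous_const (by fun_prop)).inter (isOpen_lt (by fun_prop) ?_)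
    have := ar_contDiff.continuous
    fun_prop
  -- DW ∘ DZ = id
  have h1 : HasFDerivAt (fun y => WW (ZZ y)) ((fderiv ℝ WW (ZZ p)).comp (fderiv ℝ ZZ p)) p :=
    HasFDerivAt.comp (g := WW) (f := ZZ) p d2 d1
  have h2 : HasFDerivAt (fun y => WW (ZZ y)) (ContinuousLinearMap.id ℝ E4) p := by
    refine (hasFDerivAt_id p).congr_of_eventuallyEq ?_
    filter_upwards [VV_open.mem_nhds hp] with y hy
    exact WW_ZZ hy
  have h3 := h1.unique h2
  -- DZ ∘ DW = id
  have d1' : HasFDerivAt ZZ (fderiv ℝ ZZ p) (WW (ZZ p)) := by rw [WW_ZZ hp]; exact d1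
  have h4 : HasFDerivAt (fun y => ZZ (WW y)) ((fderiv ℝ ZZ p).comp (fderiv ℝ WW (ZZ p))) (ZZ p) :=
    HasFDerivAt.comp (g := ZZ) (f := WW) (ZZ p) d1' d2
  have h5 : HasFDerivAt (fun y => ZZ (WW y)) (ContinuousLinearMap.id ℝ E4) (ZZ p) := by
    refine (hasFDerivAt_id (ZZ p)).congr_of_eventuallyEq ?_
    filter_upwards [hDD.mem_nhds hz] with y hy
    exact ZZ_WW hy
  have h6 := h4.unique h5
  have h7 : fderiv ℝ ZZ p u = 0 := by
    apply om0_nondeg
    intro w
    have := h (fderiv ℝ WW (ZZ p) w)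
    rw [PP_apply] at this
    have h8 := congrArg (fun L : E4 →L[ℝ] E4 => L w) h6
    simp only [ContinuousLinearMap.comp_apply, ContinuousLinearMap.id_apply] at h8
    rw [h8] at this
    exact this
  have h9 := congrArg (fun L : E4 →L[ℝ] E4 => L u) h3
  simp only [ContinuousLinearMap.comp_apply, ContinuousLinearMap.id_apply] at h9
  rw [← h9, h7, map_zero]

theorem symplectic_XX : SymplecticOn XX OO where
  isOpen := XX_open
  smooth := by
    intro p hp
    apply ContDiffAt.contDiffWithinAt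
    rcases hp with h | ⟨j, h⟩
    · refine (PP_contDiffAt h).congr_of_eventuallyEq ?_
      filter_upwards [VV_open.mem_nhds h] with y hy
      exact OO_VV hy
    · refine (SS_contDiffAt (rad_pos_UU h)).congr_of_eventuallyEq ?_
      filter_upwards [(UU_open j).mem_nhds h] with y hy
      exact OO_UU hy
  alternating p hp v := by
    by_cases h : p ∈ VV
    · rw [OO_apply_VV h, om0_apply]; ring
    · rcases hp with h' | ⟨j, h'⟩
      · exact absurd h' h
      · rw [OO_UU h', SS_apply]; ring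
  nondegenerate p hp v hv := by
    by_cases h : p ∈ VV
    · rw [OO_VV h] at hv
      exact PP_nondeg h hv
    · rcases hp with h' | ⟨j, h'⟩
      · exact absurd h' h
      · have h1 : flp p ∈ VV := flp_mem_VV (rad_pos_UU h') h
        have h2 : flp v = 0 := by
          apply PP_nondeg h1
          intro w
          rw [PP_eq_SS h1 (flp_mem_UU h')]
          have h3 := SS_flp p v (flp w)
          have h4 : flp (flp w) = w := by simp [flp_apply]
          rw [h4] at h3
          rw [h3, ← OO_UU h']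
          exact hv _
        have h5 : flp (flp v) = v := by simp [flp_apply]
        rw [← h5, h2, map_zero]
  closed p hp u v w := by
    have hskew : ∀ a b : E4, om0 a b = - om0 b a := by
      intro a b; rw [om0_apply, om0_apply]; ring
    have hzero : ∀ (y : E4) (a b c : E4),
        fderiv ℝ (fun _ : E4 => om0) y a b c + fderiv ℝ (fun _ : E4 => om0) y b c a +
        fderiv ℝ (fun _ : E4 => om0) y c a b = 0 := by
      intro y a b c
      simp
    by_cases h : p ∈ VV
    · have hd : DifferentiableAt ℝ OO p := by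
        have : ContDiffAt ℝ ∞ OO p := by
          refine (PP_contDiffAt h).congr_of_eventuallyEq ?_
          filter_upwards [VV_open.mem_nhds h] with y hy
          exact OO_VV hy
        exact this.differentiableAt (by simp)
      have e : ∀ a b : E4, (fun y => OO y a b) =ᶠ[𝓝 p] fun y => pb (fun _ => om0) ZZ y a b := by
        intro a b
        filter_upwards [VV_open.mem_nhds h] with y hy
        exact OO_apply_VV hy a b
      rw [fderiv_form hd, fderiv_form hd, fderiv_form hd, (e v w).fderiv_eq, (e w u).fderiv_eq,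
        (e u v).fderiv_eq]
      exact pb_closed ((ZZ_contDiffAt h).of_le (by decide)) (differentiableAt_const _) hskew
        (hzero _) u v w
    · rcases hp with h' | ⟨j, h'⟩
      · exact absurd h' h
      · have h1 : flp p ∈ VV := flp_mem_VV (rad_pos_UU h') h
        have hd : DifferentiableAt ℝ OO p := by
          have : ContDiffAt ℝ ∞ OO p := by
            refine (SS_contDiffAt (rad_pos_UU h')).congr_of_eventuallyEq ?_
            filter_upwards [(UU_open j).mem_nhds h'] with y hy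
            exact OO_UU hy
          exact this.differentiableAt (by simp)
        have e : ∀ a b : E4, (fun y => OO y a b) =ᶠ[𝓝 p]
            fun y => pb (fun _ => om0) (fun y => ZZ (flp y)) y a b := by
          intro a b
          filter_upwards [eventually_OO_flp h' h] with y hy
          exact hy.2.2 a b
        rw [fderiv_form hd, fderiv_form hd, fderiv_form hd, (e v w).fderiv_eq, (e w u).fderiv_eq,
          (e u v).fderiv_eq]
        have h2 : ContDiffAt ℝ ∞ (fun y => ZZ (flp y)) p :=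
          ContDiffAt.comp (g := ZZ) (f := flp) p (ZZ_contDiffAt h1) flp.contDiff.contDiffAt
        exact pb_closed (h2.of_le (by decide)) (differentiableAt_const _) hskew (hzero _) u v w

end Pool.Agent.H844R2
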