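import Pool.Agent.H844R2.FFlow

open Set Filter Topology
open scoped ContDiff

namespace Pool.Agent.H844R2

/-! ### profiles -/

noncomputable def fpi (N : ℝ) : ℝ := Real.pi * Real.smoothTransition (2 - 40 * N)

lemma fpi_contDiff : ContDiff ℝ ∞ fpi :=
  contDiff_const.mul (Real.smoothTransition.contDiff.comp (by fun_prop))

lemma fpi_of_ge {N : ℝ} (h : 1 / 20 ≤ N) : fpi N = 0 := by
  unfold fpi; rw [Real.smoothTransition.zero_of_nonpos (by linarith), mul_zero]

lemma fpi_of_le {N : ℝ} (h : N ≤ 1 / 40) : fpi N = Real.pi := by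
  unfold fpi; rw [Real.smoothTransition.one_of_one_le (by linarith), mul_one]

lemma deriv_zero_of_eventually {g : ℝ → ℝ} {N c : ℝ} (h : ∀ᶠ x in 𝓝 N, g x = c) :
    deriv g N = 0 := by
  have : g =ᶠ[𝓝 N] fun _ => c := h
  rw [this.deriv_eq, deriv_const]

lemma fpi_deriv_of_lt {N : ℝ} (h : N < 1 / 40) : deriv fpi N = 0 := by
  apply deriv_zero_of_eventually (c := Real.pi)
  filter_upwards [Iio_mem_nhds h] with x hx
  exact fpi_of_le (le_of_lt hx)

lemma fpi_data : FData fpi (11 / 200) where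
  smooth := fpi_contDiff
  zero N h := fpi_of_ge (by linarith)
  dzero N h := by
    apply deriv_zero_of_eventually (c := 0)
    have h' : (1 : ℝ) / 20 < N := by linarith
    filter_upwards [Ioi_mem_nhds h'] with x hx
    exact fpi_of_ge (le_of_lt hx)
  lt := by norm_num

noncomputable def Gs (N : ℝ) : ℝ := Real.pi / 2 * N * Real.smoothTransition (5 - 8 * N)

lemma Gs_contDiff : ContDiff ℝ ∞ Gs :=
  (contDiff_const.mul contDiff_id).mul (Real.smoothTransition.contDiff.comp (by fun_prop))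

lemma Gs_deriv_of_lt {N : ℝ} (h : N < 1 / 2) : deriv Gs N = Real.pi / 2 := by
  have e : Gs =ᶠ[𝓝 N] fun x => Real.pi / 2 * x := by
    filter_upwards [Iio_mem_nhds h] with x hx
    have hx' : x < 1 / 2 := hx
    unfold Gs
    rw [Real.smoothTransition.one_of_one_le (by linarith), mul_one]
  rw [e.deriv_eq]
  have := (hasDerivAt_id N).const_mul (Real.pi / 2)
  simp

lemma Gs_deriv_of_gt {N : ℝ} (h : 3 / 4 ≤ N) : deriv Gs N = 0 := by
  apply deriv_zero_of_eventually (c := 0)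
  have h' : (5 : ℝ) / 8 < N := by linarith
  filter_upwards [Ioi_mem_nhds h'] with x hx
  have hx' : 5 / 8 < x := hx
  unfold Gs
  rw [Real.smoothTransition.zero_of_nonpos (by linarith), mul_zero]

/-- midpoint between the puncture and the `j`-th pole -/
noncomputable def mid (j : Fin 3) : ℝ := (2 + ctr j) / 2

lemma mid_ge (j : Fin 3) : 3 / 2 ≤ mid j := by
  have := ctr_ge j
  unfold mid; linarith

lemma Gs_data (j : Fin 3) : RadData (mid j) Gs (3 / 4) where
  smooth := Gs_contDiff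
  zero N h := Gs_deriv_of_gt h
  lt4 := by norm_num
  pos := by linarith [mid_ge j]
  ltm := by nlinarith [mid_ge j]

noncomputable def Gb (N : ℝ) : ℝ := Real.smoothTransition (2 - N)

lemma Gb_contDiff : ContDiff ℝ ∞ Gb := Real.smoothTransition.contDiff.comp (by fun_prop)

lemma Gb_of_le {N : ℝ} (h : N ≤ 1) : Gb N = 1 := by
  unfold Gb; rw [Real.smoothTransition.one_of_one_le (by linarith)]

lemma Gb_of_ge {N : ℝ} (h : 2 ≤ N) : Gb N = 0 := by
  unfold Gb; rw [Real.smoothTransition.zero_of_nonpos (by linarith)]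

lemma Gb_deriv_of_lt {N : ℝ} (h : N < 1) : deriv Gb N = 0 := by
  apply deriv_zero_of_eventually (c := 1)
  filter_upwards [Iio_mem_nhds h] with x hx
  exact Gb_of_le (le_of_lt hx)

lemma Gb_deriv_of_gt {N : ℝ} (h : 2 < N) : deriv Gb N = 0 := by
  apply deriv_zero_of_eventually (c := 0)
  filter_upwards [Ioi_mem_nhds h] with x hx
  exact Gb_of_ge (le_of_lt hx)

lemma Gb_data : RadData 2 Gb 3 where
  smooth := Gb_contDiff
  zero N h := Gb_deriv_of_gt (by linarith)
  lt4 := by norm_num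
  pos := by norm_num
  ltm := by norm_num

/-! ### the loops `LL` around the spheres -/

lemma nn_RR (j : Fin 3) (t : ℝ) (p : E4) : nn j (RR t p) = nn j p := by
  unfold nn; rw [rad_RR]; rfl

lemma nn_flp (j : Fin 3) (p : E4) : nn j (flp p) = nn j p := by
  unfold nn; rw [rad_flp, flp_apply]

lemma FF_one {j : Fin 3} {p : E4} (hr : 0 < rad p) (h : nn j p < 1 / 40) :
    FF j fpi 1 p = flp p := by
  have e1 : th j fpi p = Real.pi := fpi_of_le h.le
  have e2 : ph j fpi p = 0 := by unfold ph; rw [fpi_deriv_of_lt h]; ring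
  unfold FF
  rw [e1, e2, flp_apply]
  have : r1 j (1 * 0) p = rad p := by simp [r1]
  unfold mm
  rw [this, div_self hr.ne']
  simp [s1]

lemma FF_neg_one {j : Fin 3} {p : E4} (hr : 0 < rad p) (h : nn j p < 1 / 40) :
    FF j fpi (-1) p = flp p := by
  have e1 : th j fpi p = Real.pi := fpi_of_le h.le
  have e2 : ph j fpi p = 0 := by unfold ph; rw [fpi_deriv_of_lt h]; ring
  unfold FF
  rw [e1, e2, flp_apply]
  have : r1 j (-1 * 0) p = rad p := by simp [r1]
  unfold mm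
  rw [this, div_self hr.ne']
  simp [s1]

/-- the loop which is the full double rotation near the `j`-th sphere -/
noncomputable def LL (j : Fin 3) (t : ℝ) (p : E4) : E4 :=
  RR t (FF j fpi 1 (RR (-t) (FF j fpi (-1) p)))
noncomputable def LLi (j : Fin 3) (t : ℝ) (p : E4) : E4 :=
  FF j fpi 1 (RR t (FF j fpi (-1) (RR (-t) p)))
noncomputable def HL (j : Fin 3) (t : ℝ) (p : E4) : ℝ :=
  KK p - KK (FF j fpi (-1) (RR (-t) p))

lemma hamPath_LL (j : Fin 3) : HamPath XX OO (LL j) (LLi j) (HL j) := by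
  have hR := hamPath_RR
  have hF := (hamPath_FF (j := j) fpi_data).static 1
  have h := HamPath.comp XX_open hR (HamPath.comp XX_open hF
    (HamPath.comp XX_open (HamPath.inv XX_open hR) (HamPath.inv XX_open hF)))
  have e : (fun (t : ℝ) (x : E4) => KK x + (0 + (-KK (RR t (FF j fpi (-1) (RR (-t) x))) + -0))) =
      HL j := by
    ext t x
    rw [KK_RR]
    unfold HL
    ring
  rw [← e]
  exact h

lemma LL_far {j : Fin 3} {t : ℝ} {p : E4} (hr : 0 < rad p) (h : 11 / 200 ≤ nn j p) :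
    LL j t p = p ∧ LLi j t p = p ∧ HL j t p = 0 := by
  have h1 : ∀ σ τ, FF j fpi σ (RR τ p) = RR τ p := by
    intro σ τ
    exact FF_eq_self fpi_data (by rw [rad_RR]; exact hr) (by rw [nn_RR]; exact h)
  have h2 : ∀ σ, FF j fpi σ p = p := fun σ => FF_eq_self fpi_data hr h
  refine ⟨?_, ?_, ?_⟩
  · unfold LL
    rw [h2, h1, RR_add, add_neg_cancel, RR_zero]
  · unfold LLi
    rw [h1, RR_add, add_neg_cancel, RR_zero, h2]
  · unfold HL
    rw [h1, KK_RR, sub_self]

lemma flp_RR (t : ℝ) (p : E4) : flp (RR t p) = RR (-t) (flp p) := by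
  simp only [flp_apply, RR, Real.cos_neg, Real.sin_neg]
  refine Prod.ext ?_ (Prod.ext ?_ rfl) <;> simp only <;> ring

lemma flp_flp (p : E4) : flp (flp p) = p := by simp [flp_apply]

lemma KK_flp {j : Fin 3} {p : E4} (hj : p ∈ UU j) : KK p - KK (flp p) = 2 * av j * (p.2.2.1 / rad p) := by
  unfold KK
  rw [rad_flp, flp_apply, ar_eq j hj]
  simp only
  ring

lemma LL_near {j : Fin 3} {t : ℝ} {p : E4} (hr : 0 < rad p) (h : nn j p < 1 / 40) :
    LL j t p = RR (2 * t) p ∧ LLi j t p = RR (-(2 * t)) p ∧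
      HL j t p = 2 * av j * (p.2.2.1 / rad p) := by
  have hrR : ∀ τ, 0 < rad (RR τ p) := fun τ => by rw [rad_RR]; exact hr
  have hnR : ∀ τ, nn j (RR τ p) < 1 / 40 := fun τ => by rw [nn_RR]; exact h
  have hrf : ∀ τ, 0 < rad (RR τ (flp p)) := fun τ => by rw [rad_RR, rad_flp]; exact hr
  have hnf : ∀ τ, nn j (RR τ (flp p)) < 1 / 40 := fun τ => by rw [nn_RR, nn_flp]; exact h
  refine ⟨?_, ?_, ?_⟩
  · unfold LL
    rw [FF_neg_one hr h, FF_one (hrf _) (hnf _), flp_RR, flp_flp, neg_neg, RR_add]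
    congr 1; ring
  · unfold LLi
    rw [FF_neg_one (hrR _) (hnR _), flp_RR, neg_neg, RR_add, FF_one (hrf _) (hnf _), flp_RR, flp_flp]
    congr 1; ring
  · unfold HL
    rw [FF_neg_one (hrR _) (hnR _), flp_RR, KK_RR]
    exact KK_flp (mem_UU_of_nn (by linarith))

/-! ### the transported loops and the compactly supported loop -/

/-- the half turn about the midpoint, and its inverse -/
noncomputable def PS (j : Fin 3) (p : E4) : E4 := TE (mid j) Gs 1 p
noncomputable def PSi (j : Fin 3) (p : E4) : E4 := TE (mid j) Gs (-1) p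

noncomputable def MM (j : Fin 3) (t : ℝ) (p : E4) : E4 := PS j (LLi j t (PSi j p))
noncomputable def MMi (j : Fin 3) (t : ℝ) (p : E4) : E4 := PS j (LL j t (PSi j p))
noncomputable def HM (j : Fin 3) (t : ℝ) (p : E4) : ℝ := - HL j t (LL j t (PSi j p))

lemma hamPath_MM (j : Fin 3) : HamPath XX OO (MM j) (MMi j) (HM j) := by
  have hP := (hamPath_TE (Gs_data j)).static 1
  have h := HamPath.comp XX_open hP (HamPath.comp XX_open (HamPath.inv XX_open (hamPath_LL j))
    (HamPath.inv XX_open hP))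
  have e : (fun (t : ℝ) (x : E4) => (0 : ℝ) + (-HL j t (LL j t (TE (mid j) Gs (-1) x)) + -0)) =
      HM j := by
    ext t x
    unfold HM PSi
    ring
  rw [← e]
  exact h

noncomputable def PH (j : Fin 3) (t : ℝ) (p : E4) : E4 := LL 0 t (MM j t p)
noncomputable def PHi (j : Fin 3) (t : ℝ) (p : E4) : E4 := MMi j t (LLi 0 t p)
noncomputable def HP (j : Fin 3) (t : ℝ) (p : E4) : ℝ := HL 0 t p + HM j t (LLi 0 t p)

lemma hamPath_PH (j : Fin 3) : HamPath XX OO (PH j) (PHi j) (HP j) := by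
  have h := HamPath.comp XX_open (hamPath_LL 0) (hamPath_MM j)
  exact h

/-- points near the puncture -/
structure NearP (p : E4) : Prop where
  mem : p ∈ XX
  lt : NN 2 p < 1 / 1000

lemma NearP.vv {p : E4} (h : NearP p) : p ∈ VV := by
  by_contra hV
  have := NN_ge (m := 2) (rad_pos_XX h.mem) hV
  linarith [h.lt]

lemma rr_neg_pi (m : ℝ) (z : E4) : rr m (-Real.pi) z = (-z.1, -z.2.1, 2 * m - z.2.2.1, -z.2.2.2) := by
  unfold rr
  simp
  ring

lemma NearP.nn0 {p : E4} (h : NearP p) : nn 0 p < 1 / 1000 := by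
  have h1 := h.lt
  rw [NN_VV h.vv] at h1
  unfold dd at h1
  have h2 : (ZZ p).2.2.1 = rad p := rfl
  have h3 : (ZZ p).2.2.2 = p.2.2.2 := rfl
  rw [h2, h3] at h1
  unfold nn
  have : ctr 0 = 2 := rfl
  rw [this]
  nlinarith [sq_nonneg (ZZ p).1, sq_nonneg (ZZ p).2.1]

lemma NearP.bounds {p : E4} (h : NearP p) : |rad p - 2| < 1 / 30 := by
  have h1 := h.nn0
  unfold nn at h1
  have : ctr 0 = 2 := rfl
  rw [this] at h1
  apply abs_lt_of_sq_lt_sq _ (by norm_num)
  nlinarith [sq_nonneg p.2.2.2]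

lemma ctr_cases (j : Fin 3) : |mid j - 2| ≤ 1 / 2 := by
  fin_cases j <;> simp [mid, ctr] <;> norm_num

/-- effect of the half turn near the puncture -/
lemma NearP.psi {p : E4} (h : NearP p) (j : Fin 3) : PSi j p ∈ VV ∧
    ZZ (PSi j p) = (-(ZZ p).1, -(ZZ p).2.1, 2 * mid j - rad p, -p.2.2.2) := by
  have hV := h.vv
  refine ⟨TE_mem_VV (Gs_data j) hV, ?_⟩
  unfold PSi
  rw [ZZ_TE (Gs_data j) hV]
  have hdd : dd (mid j) (ZZ p) < 1 / 2 := by
    have h1 := h.lt
    rw [NN_VV hV] at h1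
    unfold dd at h1 ⊢
    have h2 : (ZZ p).2.2.1 = rad p := rfl
    rw [h2] at h1 ⊢
    have h3 := h.bounds
    have h4 := ctr_cases j
    rw [abs_lt] at h3
    rw [abs_le] at h4
    nlinarith [h3.1, h3.2, h4.1, h4.2, sq_nonneg (rad p - 2)]
  unfold TT
  rw [Gs_deriv_of_lt hdd]
  have : 2 * (-1 : ℝ) * (Real.pi / 2) = -Real.pi := by ring
  rw [this, rr_neg_pi]
  rfl

lemma NearP.psi_nn {p : E4} (h : NearP p) (j : Fin 3) : nn j (PSi j p) < 1 / 1000 := by
  obtain ⟨-, h2⟩ := h.psi j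
  have h3 : rad (PSi j p) = 2 * mid j - rad p := by
    have := congrArg (fun z : E4 => z.2.2.1) h2
    exact this
  have h4 : (PSi j p).2.2.2 = -p.2.2.2 := by
    have := congrArg (fun z : E4 => z.2.2.2) h2
    exact this
  have h5 := h.nn0
  unfold nn at h5 ⊢
  rw [h3, h4]
  have : ctr 0 = 2 := rfl
  rw [this] at h5
  unfold mid
  nlinarith

lemma height_eq {j : Fin 3} {p : E4} (hV : p ∈ VV) (hj : p ∈ UU j) :
    2 * av j * (p.2.2.1 / rad p) = 2 * av j - ((ZZ p).1 ^ 2 + (ZZ p).2.1 ^ 2) := by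
  rw [ZZ_norm p hV, ar_eq j hj]; ring

lemma NearP.rr {p : E4} (h : NearP p) (t : ℝ) : NearP (RR t p) where
  mem := RR_XX.2 h.mem
  lt := by
    have : NN 2 (RR t p) = NN 2 p := by unfold NN; rw [rad_RR]; rfl
    rw [this]; exact h.lt

lemma PSi_RR (j : Fin 3) (t : ℝ) (p : E4) : PSi j (RR t p) = RR t (PSi j p) := TE_RR _ _ _
lemma PS_RR (j : Fin 3) (t : ℝ) (p : E4) : PS j (RR t p) = RR t (PS j p) := TE_RR _ _ _

lemma PS_PSi (j : Fin 3) (p : E4) : PS j (PSi j p) = p := by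
  unfold PS PSi
  rw [TE_add (Gs_data j), add_neg_cancel, TE_zero]

/-- near the puncture the loop is the identity and its Hamiltonian is constant -/
lemma NearP.loop {p : E4} (h : NearP p) (j : Fin 3) (t : ℝ) : PH j t p = p ∧ PHi j t p = p ∧
    HP j t p = 2 * (av 0 - av j) := by
  have hr := rad_pos_VV h.vv
  have hn0 : ∀ τ, nn 0 (RR τ p) < 1 / 40 := fun τ => by rw [nn_RR]; linarith [h.nn0]
  have hr0 : ∀ τ, 0 < rad (RR τ p) := fun τ => by rw [rad_RR]; exact hr
  have hq := h.psi j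
  have hnq : ∀ τ, nn j (RR τ (PSi j p)) < 1 / 40 := fun τ => by rw [nn_RR]; linarith [h.psi_nn j]
  have hrq : ∀ τ, 0 < rad (RR τ (PSi j p)) := fun τ => by rw [rad_RR]; exact rad_pos_VV hq.1
  have z0 : nn 0 p < 1 / 40 := by linarith [h.nn0]
  have zq : nn j (PSi j p) < 1 / 40 := by linarith [h.psi_nn j]
  refine ⟨?_, ?_, ?_⟩
  · unfold PH MM
    rw [(LL_near (rad_pos_VV hq.1) zq).2.1, PS_RR, PS_PSi, (LL_near (hr0 _) (hn0 _)).1, RR_add,
      add_neg_cancel, RR_zero]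
  · unfold PHi MMi
    rw [(LL_near hr z0).2.1, PSi_RR, (LL_near (hrq _) (hnq _)).1, RR_add, add_neg_cancel, RR_zero,
      PS_PSi]
  · unfold HP HM
    rw [(LL_near hr z0).2.1, PSi_RR, (LL_near (hrq _) (hnq _)).1, RR_add, add_neg_cancel, RR_zero,
      (LL_near hr z0).2.2, (LL_near (rad_pos_VV hq.1) zq).2.2,
      height_eq h.vv (mem_UU_of_nn (by linarith)), height_eq hq.1 (mem_UU_of_nn (by linarith)), hq.2]
    ring

/-- points outside the support -/
structure FarP (j : Fin 3) (p : E4) : Prop where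
  mem : p ∈ XX
  n0 : 11 / 200 < nn 0 p
  nj : 11 / 200 < nn j p
  nm : 3 / 4 < NN (mid j) p
  n2 : 3 < NN 2 p

lemma FarP.loop {j : Fin 3} {p : E4} (h : FarP j p) (t : ℝ) : PH j t p = p ∧ PHi j t p = p ∧
    HP j t p = 0 := by
  have hr := rad_pos_XX h.mem
  have e1 : PSi j p = p := TE_eq_self (Gs_deriv_of_gt h.nm.le)
  have e2 : PS j p = p := TE_eq_self (Gs_deriv_of_gt h.nm.le)
  have l0 := LL_far (t := t) hr h.n0.le
  have lj := LL_far (t := t) hr h.nj.le
  refine ⟨?_, ?_, ?_⟩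
  · unfold PH MM
    rw [e1, lj.2.1, e2, l0.1]
  · unfold PHi MMi
    rw [l0.2.1, e1, lj.1, e2]
  · unfold HP HM
    rw [l0.2.1, e1, lj.1, l0.2.2, lj.2.2]
    ring

/-- the flux value -/
noncomputable def cf (j : Fin 3) : ℝ := 4 * Real.pi * (av 0 - av j)

lemma RR_two_pi (p : E4) : RR (2 * Real.pi) p = p := by simp [RR]
lemma RR_neg_two_pi (p : E4) : RR (-(2 * Real.pi)) p = p := by simp [RR]

lemma FF_inv {j : Fin 3} {p : E4} (hr : 0 < rad p) : FF j fpi 1 (FF j fpi (-1) p) = p := by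
  rw [FF_add fpi_data hr, add_neg_cancel, FF_zero hr]

lemma LL_two_pi {j : Fin 3} {p : E4} (hr : 0 < rad p) : LL j (2 * Real.pi) p = p := by
  unfold LL
  rw [RR_neg_two_pi, FF_inv hr, RR_two_pi]

lemma LLi_two_pi {j : Fin 3} {p : E4} (hr : 0 < rad p) : LLi j (2 * Real.pi) p = p := by
  unfold LLi
  rw [RR_neg_two_pi, RR_two_pi, FF_inv hr]

lemma LL_zero {j : Fin 3} {p : E4} (hr : 0 < rad p) : LL j 0 p = p := by
  unfold LL
  rw [neg_zero, RR_zero, RR_zero, FF_inv hr]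

lemma LLi_zero {j : Fin 3} {p : E4} (hr : 0 < rad p) : LLi j 0 p = p := by
  unfold LLi
  rw [neg_zero, RR_zero, RR_zero, FF_inv hr]

lemma PSi_mem {j : Fin 3} {p : E4} (hp : p ∈ XX) : PSi j p ∈ XX := TE_mem_XX (Gs_data j) hp

lemma PHi_two_pi {j : Fin 3} {p : E4} (hp : p ∈ XX) : PHi j (2 * Real.pi) p = p := by
  have hr := rad_pos_XX hp
  unfold PHi MMi
  rw [LLi_two_pi hr, LL_two_pi (rad_pos_XX (PSi_mem hp)), PS_PSi]

lemma PHi_zero {j : Fin 3} {p : E4} (hp : p ∈ XX) : PHi j 0 p = p := by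
  have hr := rad_pos_XX hp
  unfold PHi MMi
  rw [LLi_zero hr, LL_zero (rad_pos_XX (PSi_mem hp)), PS_PSi]

/-- `s` is the flux of a loop supported off the puncture: the radial map `TE 2 Gb s` is the end of a
Hamiltonian path whose Hamiltonian vanishes near the puncture and off a compact set. -/
def Good (s : ℝ) : Prop := ∃ (Θ Θi : ℝ → E4 → E4) (H : ℝ → E4 → ℝ), HamPath XX OO Θ Θi H ∧
  (∀ x ∈ XX, Θ 0 x = x) ∧ (∀ x ∈ XX, Θ 1 x = TE 2 Gb s x) ∧
  ∃ C : Set E4, IsCompact C ∧ C ⊆ XX ∧ ∃ ε > 0, ∀ t, ∀ x ∈ XX, (x ∉ C ∨ NN 2 x < ε) →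
    Θ t x = x ∧ Θi t x = x ∧ H t x = 0

lemma isCompact_aux {g : E4 → ℝ} {c : ℝ} (hg : ∀ p : E4, 0 < rad p → ContinuousAt g p)
    (h : ∀ p : E4, 1 / 4 ≤ rad p → g p ≤ c → rad p ≤ 4 ∧ |p.2.2.2| ≤ 4) :
    IsCompact {p : E4 | 1 / 4 ≤ rad p ∧ g p ≤ c} := by
  have hc : IsClosed {p : E4 | 1 / 4 ≤ rad p} := isClosed_le continuous_const rad_continuous
  have h1 : ContinuousOn g {p : E4 | 1 / 4 ≤ rad p} := fun p hp =>
    (hg p (lt_of_lt_of_le (by norm_num) hp)).continuousWithinAt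
  have h2 : IsClosed ({p : E4 | 1 / 4 ≤ rad p} ∩ g ⁻¹' Iic c) :=
    h1.preimage_isClosed_of_isClosed hc isClosed_Iic
  refine Metric.isCompact_of_isClosed_isBounded h2 ?_
  refine (Metric.isBounded_closedBall (x := (0 : E4)) (r := 4)).subset ?_
  rintro p ⟨hp, hpc⟩
  obtain ⟨h3, h4⟩ := h p hp hpc
  rw [mem_closedBall_zero_iff]
  have hs := rad_sq p
  have hb : rad p ^ 2 ≤ 16 := by
    have := rad_nonneg p
    nlinarith
  rw [Prod.norm_def, Prod.norm_def, Prod.norm_def]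
  simp only [Real.norm_eq_abs]
  refine max_le ?_ (max_le ?_ (max_le ?_ h4))
  · apply abs_le_of_sq_le_sq _ (by norm_num)
    nlinarith [sq_nonneg p.1, sq_nonneg p.2.1, sq_nonneg p.2.2.1]
  · apply abs_le_of_sq_le_sq _ (by norm_num)
    nlinarith [sq_nonneg p.1, sq_nonneg p.2.1, sq_nonneg p.2.2.1]
  · apply abs_le_of_sq_le_sq _ (by norm_num)
    nlinarith [sq_nonneg p.1, sq_nonneg p.2.1, sq_nonneg p.2.2.1]

lemma ctr_le (j : Fin 3) : ctr j ≤ 3 := by fin_cases j <;> simp [ctr]; norm_num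

lemma compact_nn (j : Fin 3) : IsCompact {p : E4 | 1 / 4 ≤ rad p ∧ nn j p ≤ 11 / 200} := by
  refine isCompact_aux (fun p hp => (nn_contDiffAt hp).continuousAt) ?_
  intro p hp h
  unfold nn at h
  have h1 := ctr_le j
  constructor
  · nlinarith [sq_nonneg (rad p - ctr j - 1), sq_nonneg p.2.2.2]
  · apply abs_le_of_sq_le_sq _ (by norm_num)
    nlinarith [sq_nonneg (rad p - ctr j)]

lemma NN_bounds {m : ℝ} {p : E4} (hr : 0 < rad p) {c : ℝ} (h : NN m p ≤ c) :
    (rad p - m) ^ 2 ≤ c ∧ p.2.2.2 ^ 2 ≤ c := by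
  have h1 : 0 ≤ 2 * ar (rad p) * (1 - p.2.2.1 / rad p) := by
    have h2 : p.2.2.1 / rad p ≤ 1 := by
      rw [div_le_one hr]
      exact (le_abs_self _).trans (abs_h_le_rad p)
    have h3 := ar_pos (rad p)
    have : 0 ≤ 1 - p.2.2.1 / rad p := by linarith
    positivity
  unfold NN at h
  constructor
  · nlinarith [sq_nonneg p.2.2.2]
  · nlinarith [sq_nonneg (rad p - m)]

lemma compact_NN {m : ℝ} (hm : m ≤ 5 / 2) {c : ℝ} (hc : c ≤ 3) (hmc : m = 2 ∨ c ≤ 1) :
    IsCompact {p : E4 | 1 / 4 ≤ rad p ∧ NN m p ≤ c} := by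
  refine isCompact_aux (fun p hp => (NN_contDiffAt hp).continuousAt) ?_
  intro p hp h
  obtain ⟨h1, h2⟩ := NN_bounds (lt_of_lt_of_le (by norm_num) hp) h
  constructor
  · rcases hmc with rfl | hc1
    · nlinarith
    · nlinarith
  · apply abs_le_of_sq_le_sq _ (by norm_num)
    nlinarith

lemma mem_XX_of_nn {j : Fin 3} {p : E4} (h : nn j p ≤ 11 / 200) : p ∈ XX :=
  Or.inr ⟨j, mem_UU_of_nn (by linarith)⟩

lemma mem_XX_of_NN {m : ℝ} {p : E4} (hr : 0 < rad p) (h : NN m p < 4) : p ∈ XX := by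
  left
  by_contra hV
  linarith [NN_ge (m := m) hr hV]

lemma mid_le (j : Fin 3) : mid j ≤ 5 / 2 := by
  have := ctr_le j
  unfold mid; linarith

lemma good_cf (j : Fin 3) : Good (cf j) := by
  have h1 := HamPath.inv XX_open ((hamPath_PH j).speed XX_open (2 * Real.pi))
  have h2 := (hamPath_TE Gb_data).speed XX_open (cf j)
  have h := HamPath.comp XX_open h1 h2
  refine ⟨_, _, _, h, ?_, ?_, ?_⟩
  · intro x hx
    simp only [mul_zero]
    rw [TE_zero, PHi_zero hx]
  · intro x hx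
    simp only [mul_one]
    rw [PHi_two_pi (TE_mem_XX Gb_data hx)]
  · refine ⟨{p : E4 | 1 / 4 ≤ rad p ∧ nn 0 p ≤ 11 / 200} ∪ {p : E4 | 1 / 4 ≤ rad p ∧ nn j p ≤ 11 / 200}
      ∪ {p : E4 | 1 / 4 ≤ rad p ∧ NN (mid j) p ≤ 3 / 4} ∪ {p : E4 | 1 / 4 ≤ rad p ∧ NN 2 p ≤ 3},
      (((compact_nn 0).union (compact_nn j)).union (compact_NN (mid_le j) (by norm_num)
        (Or.inr (by norm_num)))).union (compact_NN (by norm_num) (by norm_num) (Or.inl rfl)), ?_,
      1 / 1000, by norm_num, ?_⟩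
    · rintro p (((⟨hr, h⟩ | ⟨hr, h⟩) | ⟨hr, h⟩) | ⟨hr, h⟩)
      · exact mem_XX_of_nn h
      · exact mem_XX_of_nn h
      · exact mem_XX_of_NN (lt_of_lt_of_le (by norm_num) hr) (lt_of_le_of_lt h (by norm_num))
      · exact mem_XX_of_NN (lt_of_lt_of_le (by norm_num) hr) (lt_of_le_of_lt h (by norm_num))
    · intro t x hx hcase
      have hr := rad_pos_XX hx
      by_cases hnear : NN 2 x < 1 / 1000
      · have hN : NearP x := ⟨hx, hnear⟩
        have hT : ∀ τ, TE 2 Gb τ x = x := fun τ => TE_eq_self (Gb_deriv_of_lt (by linarith))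
        have hl := hN.loop j (2 * Real.pi * t)
        refine ⟨?_, ?_, ?_⟩
        · rw [hT, hl.2.1]
        · rw [hl.1, hT]
        · rw [hl.1, hl.2.2, Gb_of_le (by linarith)]
          unfold cf; ring
      · have hF : FarP j x := by
          have hC := hcase.resolve_right hnear
          simp only [mem_union, Set.mem_ofPred_eq, not_or, not_and, not_le] at hC
          obtain ⟨⟨⟨k1, k2⟩, k3⟩, k4⟩ := hC
          by_cases hq : 1 / 4 ≤ rad x
          · exact ⟨hx, k1 hq, k2 hq, k3 hq, k4 hq⟩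
          · rw [not_le] at hq
            have hc0 : ctr 0 = 2 := rfl
            have a1 := ctr_ge j
            have a2 := mid_ge j
            refine ⟨hx, ?_, ?_, ?_, ?_⟩
            · unfold nn; rw [hc0]; nlinarith [sq_nonneg x.2.2.2]
            · unfold nn; nlinarith [sq_nonneg x.2.2.2]
            · by_contra hcon
              have := (NN_bounds hr (not_lt.1 hcon)).1
              nlinarith
            · by_contra hcon
              have := (NN_bounds hr (not_lt.1 hcon)).1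
              nlinarith
        have hT : ∀ τ, TE 2 Gb τ x = x := fun τ => TE_eq_self (Gb_deriv_of_gt (by linarith [hF.n2]))
        have hl := hF.loop (2 * Real.pi * t)
        refine ⟨?_, ?_, ?_⟩
        · rw [hT, hl.2.1]
        · rw [hl.1, hT]
        · rw [hl.1, hl.2.2, Gb_of_ge (by linarith [hF.n2])]
          ring

end Pool.Agent.H844R2
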