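import Pool.Agent.H844R2.Sympl

open Set Filter Topology
open scoped ContDiff

namespace Pool.Agent.H844R2

abbrev E4 := ℝ × ℝ × ℝ × ℝ

/-- coordinates -/
noncomputable def c1 : E4 →L[ℝ] ℝ := ContinuousLinearMap.fst ℝ ℝ (ℝ × ℝ × ℝ)
noncomputable def c2 : E4 →L[ℝ] ℝ :=
  (ContinuousLinearMap.fst ℝ ℝ (ℝ × ℝ)).comp (ContinuousLinearMap.snd ℝ ℝ (ℝ × ℝ × ℝ))
noncomputable def c3 : E4 →L[ℝ] ℝ :=
  ((ContinuousLinearMap.fst ℝ ℝ ℝ).comp (ContinuousLinearMap.snd ℝ ℝ (ℝ × ℝ))).comp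
    (ContinuousLinearMap.snd ℝ ℝ (ℝ × ℝ × ℝ))
noncomputable def c4 : E4 →L[ℝ] ℝ :=
  ((ContinuousLinearMap.snd ℝ ℝ ℝ).comp (ContinuousLinearMap.snd ℝ ℝ (ℝ × ℝ))).comp
    (ContinuousLinearMap.snd ℝ ℝ (ℝ × ℝ × ℝ))

@[simp] lemma c1_apply (p : E4) : c1 p = p.1 := rfl
@[simp] lemma c2_apply (p : E4) : c2 p = p.2.1 := rfl
@[simp] lemma c3_apply (p : E4) : c3 p = p.2.2.1 := rfl
@[simp] lemma c4_apply (p : E4) : c4 p = p.2.2.2 := rfl

/-- wedge product of two covectors -/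
noncomputable def wedge (α β : E4 →L[ℝ] ℝ) : E4 →L[ℝ] E4 →L[ℝ] ℝ :=
  α.smulRight β - β.smulRight α

@[simp] lemma wedge_apply (α β : E4 →L[ℝ] ℝ) (u w : E4) :
    wedge α β u w = α u * β w - β u * α w := by
  simp [wedge]

/-- the standard symplectic form -/
noncomputable def om0 : E4 →L[ℝ] E4 →L[ℝ] ℝ := wedge c1 c2 + wedge c3 c4

lemma om0_apply (u w : E4) : om0 u w =
    u.1 * w.2.1 - u.2.1 * w.1 + (u.2.2.1 * w.2.2.2 - u.2.2.2 * w.2.2.1) := by
  simp [om0]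

/-- the radius -/
noncomputable def rad (p : E4) : ℝ := √(p.1 ^ 2 + p.2.1 ^ 2 + p.2.2.1 ^ 2)

lemma rad_nonneg (p : E4) : 0 ≤ rad p := Real.sqrt_nonneg _

lemma rad_sq (p : E4) : rad p ^ 2 = p.1 ^ 2 + p.2.1 ^ 2 + p.2.2.1 ^ 2 :=
  Real.sq_sqrt (by positivity)

lemma rad_continuous : Continuous rad := by unfold rad; fun_prop

lemma rad_eq_of_sq {p : E4} {R : ℝ} (hR : 0 ≤ R) (h : p.1 ^ 2 + p.2.1 ^ 2 + p.2.2.1 ^ 2 = R ^ 2) :
    rad p = R := by
  unfold rad; rw [h, Real.sqrt_sq hR]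

lemma rad_contDiffAt {p : E4} (hp : 0 < rad p) : ContDiffAt ℝ ∞ rad p := by
  unfold rad at hp ⊢
  apply ContDiffAt.sqrt
  · fun_prop
  · exact (Real.sqrt_pos.1 hp).ne'

lemma rad_fderiv {p : E4} (hp : 0 < rad p) (w : E4) :
    fderiv ℝ rad p w = (p.1 * w.1 + p.2.1 * w.2.1 + p.2.2.1 * w.2.2.1) / rad p := by
  have h1 : HasFDerivAt rad (fderiv ℝ rad p) p :=
    ((rad_contDiffAt hp).differentiableAt (by simp)).hasFDerivAt
  have h2 : HasFDerivAt (fun p => rad p ^ 2) ((2 * rad p) • fderiv ℝ rad p) p := by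
    refine (h1.pow 2).congr_fderiv ?_
    ext <;> simp
  have h3 : HasFDerivAt (fun p : E4 => p.1 ^ 2 + p.2.1 ^ 2 + p.2.2.1 ^ 2)
      ((2 * p.1) • c1 + (2 * p.2.1) • c2 + (2 * p.2.2.1) • c3) p := by
    have a1 : HasFDerivAt (fun p : E4 => p.1) c1 p := c1.hasFDerivAt
    have a2 : HasFDerivAt (fun p : E4 => p.2.1) c2 p := c2.hasFDerivAt
    have a3 : HasFDerivAt (fun p : E4 => p.2.2.1) c3 p := c3.hasFDerivAt
    have := ((a1.pow 2).add (a2.pow 2)).add (a3.pow 2)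
    refine this.congr_fderiv ?_
    ext <;> simp
  have h4 : (fun p => rad p ^ 2) = fun p : E4 => p.1 ^ 2 + p.2.1 ^ 2 + p.2.2.1 ^ 2 := by
    ext p; exact rad_sq p
  rw [h4] at h2
  have h5 := congrArg (fun L : E4 →L[ℝ] ℝ => L w) (h2.unique h3)
  simp only [_root_.smul_apply, _root_.add_apply, c1_apply, c2_apply, c3_apply, smul_eq_mul] at h5
  rw [eq_div_iff hp.ne']
  linarith

/-- the area profile -/
noncomputable def ar (r : ℝ) : ℝ :=
  1 + Real.smoothTransition (2 * r - 5 / 2) + √2 * Real.smoothTransition (2 * r - 9 / 2)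

lemma ar_contDiff : ContDiff ℝ ∞ ar := by
  unfold ar
  have h1 : ContDiff ℝ ∞ (fun r : ℝ => Real.smoothTransition (2 * r - 5 / 2)) :=
    Real.smoothTransition.contDiff.comp (by fun_prop)
  have h2 : ContDiff ℝ ∞ (fun r : ℝ => Real.smoothTransition (2 * r - 9 / 2)) :=
    Real.smoothTransition.contDiff.comp (by fun_prop)
  exact (contDiff_const.add h1).add (contDiff_const.mul h2)

lemma one_le_ar (r : ℝ) : 1 ≤ ar r := by
  unfold ar
  have h1 := Real.smoothTransition.nonneg (2 * r - 5 / 2)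
  have h2 := Real.smoothTransition.nonneg (2 * r - 9 / 2)
  have h3 : 0 ≤ √2 * Real.smoothTransition (2 * r - 9 / 2) := by positivity
  linarith

lemma ar_pos (r : ℝ) : 0 < ar r := lt_of_lt_of_le one_pos (one_le_ar r)

/-- centres of the three round regions and the values of the area profile there -/
noncomputable def ctr : Fin 3 → ℝ := ![2, 1, 3]
noncomputable def av : Fin 3 → ℝ := ![2, 1, 2 + √2]

lemma ar_eq (j : Fin 3) {r : ℝ} (h : |r - ctr j| < 1 / 4) : ar r = av j := by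
  rw [abs_lt] at h
  unfold ar
  fin_cases j
  · simp only [ctr, av, Fin.zero_eta, Matrix.cons_val_zero] at h ⊢
    rw [Real.smoothTransition.one_of_one_le (by linarith),
      Real.smoothTransition.zero_of_nonpos (by linarith)]
    norm_num
  · simp only [ctr, av, Fin.mk_one, Matrix.cons_val_one, Matrix.cons_val_zero] at h ⊢
    rw [Real.smoothTransition.zero_of_nonpos (by linarith),
      Real.smoothTransition.zero_of_nonpos (by linarith)]
    norm_num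
  · simp only [ctr, av, Fin.reduceFinMk, Matrix.cons_val] at h ⊢
    rw [Real.smoothTransition.one_of_one_le (by linarith),
      Real.smoothTransition.one_of_one_le (by linarith)]
    ring

lemma ctr_ge (j : Fin 3) : 1 ≤ ctr j := by fin_cases j <;> simp [ctr]

/-- the region of the chart -/
def VV : Set E4 := {p | 0 < rad p + p.2.2.1}

/-- the round regions -/
def UU (j : Fin 3) : Set E4 := {p | |rad p - ctr j| < 1 / 4}

/-- the four-manifold -/
def XX : Set E4 := {p | p ∈ VV ∨ ∃ j, p ∈ UU j}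

lemma VV_open : IsOpen VV :=
  isOpen_lt continuous_const (rad_continuous.add (by fun_prop))

lemma UU_open (j : Fin 3) : IsOpen (UU j) :=
  isOpen_lt (rad_continuous.sub continuous_const).abs continuous_const

lemma XX_open : IsOpen XX := by
  have : XX = VV ∪ ⋃ j, UU j := by ext p; simp [XX]
  rw [this]
  exact VV_open.union (isOpen_iUnion UU_open)

lemma abs_h_le_rad (p : E4) : |p.2.2.1| ≤ rad p := by
  apply Real.abs_le_sqrt
  nlinarith [sq_nonneg p.1, sq_nonneg p.2.1]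

lemma rad_pos_VV {p : E4} (hp : p ∈ VV) : 0 < rad p := by
  have h1 : 0 < rad p + p.2.2.1 := hp
  have h2 := abs_h_le_rad p
  have h3 := le_abs_self p.2.2.1
  linarith

lemma rad_pos_UU {j : Fin 3} {p : E4} (hp : p ∈ UU j) : 0 < rad p := by
  have h1 : |rad p - ctr j| < 1 / 4 := hp
  rw [abs_lt] at h1
  have := ctr_ge j
  linarith [h1.1]

lemma rad_pos_XX {p : E4} (hp : p ∈ XX) : 0 < rad p := by
  rcases hp with h | ⟨j, h⟩
  · exact rad_pos_VV h
  · exact rad_pos_UU h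

/-- square of the scale factor -/
noncomputable def qq (p : E4) : ℝ := 2 * ar (rad p) / (rad p * (rad p + p.2.2.1))

lemma qq_pos {p : E4} (hp : p ∈ VV) : 0 < qq p := by
  have h1 := rad_pos_VV hp
  have h2 : 0 < rad p + p.2.2.1 := hp
  have h3 := ar_pos (rad p)
  unfold qq; positivity

/-- the Darboux chart -/
noncomputable def ZZ (p : E4) : E4 := (√(qq p) * p.1, √(qq p) * p.2.1, rad p, p.2.2.2)

lemma qq_contDiffAt {p : E4} (hp : p ∈ VV) : ContDiffAt ℝ ∞ qq p := by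
  have h1 := rad_pos_VV hp
  have h2 : 0 < rad p + p.2.2.1 := hp
  have hr := rad_contDiffAt h1
  have ha : ContDiffAt ℝ ∞ (fun p => ar (rad p)) p := ar_contDiff.contDiffAt.comp p hr
  unfold qq
  refine ContDiffAt.div (contDiffAt_const.mul ha) (hr.mul (hr.add (by fun_prop))) ?_
  positivity

lemma gg_contDiffAt {p : E4} (hp : p ∈ VV) : ContDiffAt ℝ ∞ (fun p => √(qq p)) p :=
  (qq_contDiffAt hp).sqrt (qq_pos hp).ne'

lemma ZZ_contDiffAt {p : E4} (hp : p ∈ VV) : ContDiffAt ℝ ∞ ZZ p := by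
  have h1 := rad_contDiffAt (rad_pos_VV hp)
  have h2 := gg_contDiffAt hp
  unfold ZZ
  refine (h2.mul (by fun_prop)).prodMk ((h2.mul (by fun_prop)).prodMk (h1.prodMk (by fun_prop)))

/-- the image of the chart -/
def DD : Set E4 := {z | 0 < z.2.2.1 ∧ z.1 ^ 2 + z.2.1 ^ 2 < 4 * ar z.2.2.1}

noncomputable def kk (z : E4) : ℝ :=
  z.2.2.1 / (2 * ar z.2.2.1) * √(4 * ar z.2.2.1 - (z.1 ^ 2 + z.2.1 ^ 2))

/-- the inverse chart -/
noncomputable def WW (z : E4) : E4 :=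
  (kk z * z.1, kk z * z.2.1, z.2.2.1 * (1 - (z.1 ^ 2 + z.2.1 ^ 2) / (2 * ar z.2.2.1)), z.2.2.2)

lemma WW_contDiffAt {z : E4} (hz : z ∈ DD) : ContDiffAt ℝ ∞ WW z := by
  have ha : ContDiffAt ℝ ∞ (fun z : E4 => ar z.2.2.1) z :=
    ar_contDiff.contDiffAt.comp z (by fun_prop)
  have hap := ar_pos z.2.2.1
  have h1 : ContDiffAt ℝ ∞ (fun z : E4 => √(4 * ar z.2.2.1 - (z.1 ^ 2 + z.2.1 ^ 2))) z := by
    apply ContDiffAt.sqrt
    · exact (contDiffAt_const.mul ha).sub (by fun_prop)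
    · linarith [hz.2]
  have h2 : ContDiffAt ℝ ∞ kk z := by
    unfold kk
    refine ContDiffAt.mul (ContDiffAt.div (by fun_prop) (contDiffAt_const.mul ha) ?_) h1
    positivity
  have h3 : ContDiffAt ℝ ∞ (fun z : E4 => z.2.2.1 * (1 - (z.1 ^ 2 + z.2.1 ^ 2) / (2 * ar z.2.2.1))) z := by
    refine ContDiffAt.mul (by fun_prop) (contDiffAt_const.sub
      (ContDiffAt.div (by fun_prop) (contDiffAt_const.mul ha) ?_))
    positivity
  unfold WW
  exact (h2.mul (by fun_prop)).prodMk ((h2.mul (by fun_prop)).prodMk (h3.prodMk (by fun_prop)))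

lemma kk_sq {z : E4} (hz : z ∈ DD) : kk z ^ 2 =
    z.2.2.1 ^ 2 / (4 * ar z.2.2.1 ^ 2) * (4 * ar z.2.2.1 - (z.1 ^ 2 + z.2.1 ^ 2)) := by
  have hap := ar_pos z.2.2.1
  unfold kk
  rw [mul_pow, Real.sq_sqrt (by linarith [hz.2])]
  field_simp
  ring

lemma rad_WW {z : E4} (hz : z ∈ DD) : rad (WW z) = z.2.2.1 := by
  have hap := ar_pos z.2.2.1
  apply rad_eq_of_sq hz.1.le
  simp only [WW]
  rw [mul_pow, mul_pow, kk_sq hz]
  field_simp
  ring

lemma WW_mem {z : E4} (hz : z ∈ DD) : WW z ∈ VV := by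
  have hap := ar_pos z.2.2.1
  change 0 < rad (WW z) + (WW z).2.2.1
  rw [rad_WW hz]
  have h1 : (z.1 ^ 2 + z.2.1 ^ 2) / (2 * ar z.2.2.1) < 2 := by
    rw [div_lt_iff₀ (by positivity)]
    linarith [hz.2]
  have h2 := hz.1
  simp only [WW]
  nlinarith

lemma qq_WW {z : E4} (hz : z ∈ DD) : qq (WW z) =
    4 * ar z.2.2.1 ^ 2 / (z.2.2.1 ^ 2 * (4 * ar z.2.2.1 - (z.1 ^ 2 + z.2.1 ^ 2))) := by
  have hap := ar_pos z.2.2.1
  have h2 := hz.1
  have h3 : 0 < 4 * ar z.2.2.1 - (z.1 ^ 2 + z.2.1 ^ 2) := by linarith [hz.2]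
  unfold qq
  rw [rad_WW hz]
  simp only [WW]
  have h4 : z.2.2.1 * (z.2.2.1 + z.2.2.1 * (1 - (z.1 ^ 2 + z.2.1 ^ 2) / (2 * ar z.2.2.1))) =
      z.2.2.1 ^ 2 * (4 * ar z.2.2.1 - (z.1 ^ 2 + z.2.1 ^ 2)) / (2 * ar z.2.2.1) := by
    field_simp
    ring
  rw [h4]
  field_simp
  ring

lemma gg_WW {z : E4} (hz : z ∈ DD) : √(qq (WW z)) * kk z = 1 := by
  have hap := ar_pos z.2.2.1
  have h2 := hz.1
  have h3 : 0 < 4 * ar z.2.2.1 - (z.1 ^ 2 + z.2.1 ^ 2) := by linarith [hz.2]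
  have h4 : 0 < kk z := by
    unfold kk
    have := Real.sqrt_pos.2 h3
    positivity
  have h5 : 0 ≤ √(qq (WW z)) * kk z := mul_nonneg (Real.sqrt_nonneg _) h4.le
  have h6 : (√(qq (WW z)) * kk z) ^ 2 = 1 := by
    rw [mul_pow, Real.sq_sqrt (qq_pos (WW_mem hz)).le, qq_WW hz, kk_sq hz]
    field_simp
  nlinarith [h5, h6]

lemma ZZ_WW {z : E4} (hz : z ∈ DD) : ZZ (WW z) = z := by
  have h := gg_WW hz
  have h1 : (WW z).1 = kk z * z.1 := rfl
  have h2 : (WW z).2.1 = kk z * z.2.1 := rfl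
  unfold ZZ
  rw [rad_WW hz, h1, h2, ← mul_assoc, ← mul_assoc, h, one_mul, one_mul]
  rfl

lemma ZZ_norm (p : E4) (hp : p ∈ VV) : (ZZ p).1 ^ 2 + (ZZ p).2.1 ^ 2 =
    2 * ar (rad p) * (1 - p.2.2.1 / rad p) := by
  have h1 := rad_pos_VV hp
  have h2 : 0 < rad p + p.2.2.1 := hp
  have h3 := rad_sq p
  simp only [ZZ]
  rw [mul_pow, mul_pow, Real.sq_sqrt (qq_pos hp).le]
  unfold qq
  have h4 : p.1 ^ 2 + p.2.1 ^ 2 = (rad p - p.2.2.1) * (rad p + p.2.2.1) := by linarith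
  rw [← mul_add, h4]
  field_simp

lemma ZZ_mem {p : E4} (hp : p ∈ VV) : ZZ p ∈ DD := by
  have h1 := rad_pos_VV hp
  have h2 : 0 < rad p + p.2.2.1 := hp
  have h3 := ar_pos (rad p)
  refine ⟨h1, ?_⟩
  rw [ZZ_norm p hp]
  change _ < 4 * ar (rad p)
  have h4 : -1 < p.2.2.1 / rad p := by
    rw [lt_div_iff₀ h1]; linarith
  nlinarith

lemma WW_ZZ {p : E4} (hp : p ∈ VV) : WW (ZZ p) = p := by
  have h1 := rad_pos_VV hp
  have h2 : 0 < rad p + p.2.2.1 := hp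
  have h3 := ar_pos (rad p)
  have hn := ZZ_norm p hp
  have hz := ZZ_mem hp
  have h5 : (ZZ p).2.2.1 = rad p := rfl
  have h6 : (WW (ZZ p)).2.2.1 = p.2.2.1 := by
    simp only [WW]
    rw [hn, h5]
    field_simp
    ring
  have hk : kk (ZZ p) * √(qq p) = 1 := by
    have hkp : 0 ≤ kk (ZZ p) * √(qq p) := by
      apply mul_nonneg _ (Real.sqrt_nonneg _)
      unfold kk
      rw [h5]
      positivity
    have : (kk (ZZ p) * √(qq p)) ^ 2 = 1 := by
      rw [mul_pow, Real.sq_sqrt (qq_pos hp).le, kk_sq hz, hn, h5]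
      unfold qq
      field_simp
      ring
    nlinarith
  have e1 : (WW (ZZ p)).1 = p.1 := by
    simp only [WW, ZZ]
    rw [← mul_assoc]
    change kk (ZZ p) * √(qq p) * p.1 = _
    rw [hk, one_mul]
  have e2 : (WW (ZZ p)).2.1 = p.2.1 := by
    simp only [WW, ZZ]
    rw [← mul_assoc]
    change kk (ZZ p) * √(qq p) * p.2.1 = _
    rw [hk, one_mul]
  have e4 : (WW (ZZ p)).2.2.2 = p.2.2.2 := rfl
  exact Prod.ext e1 (Prod.ext e2 (Prod.ext h6 e4))

end Pool.Agent.H844R2
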