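import Pool.Agent.H844R2.Final

open Set Filter Topology MeasureTheory
open scoped ContDiff

namespace Pool.Agent.H844R2

/-- the arc issuing from the puncture -/
def arc (ρ : ℝ) : E4 := (0, 0, 2 + ρ, 0)

lemma rad_arc {ρ : ℝ} (h : 0 < ρ) : rad (arc ρ) = 2 + ρ := by
  apply rad_eq_of_sq (by linarith)
  simp [arc]

lemma arc_VV {ρ : ℝ} (h : 0 < ρ) : arc ρ ∈ VV := by
  change 0 < rad (arc ρ) + (arc ρ).2.2.1
  rw [rad_arc h]; simp [arc]; linarith

lemma arc_MX {ρ : ℝ} (h : 0 < ρ) : arc ρ ∈ MX := by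
  refine ⟨Or.inl (arc_VV h), ?_⟩
  intro hc
  have hc' : arc ρ = P0 := hc
  have := congrArg (fun z : E4 => z.2.2.1) hc'
  simp [arc, P0] at this
  linarith

lemma NN_arc {ρ : ℝ} (h : 0 < ρ) : NN 2 (arc ρ) = ρ ^ 2 := by
  unfold NN
  rw [rad_arc h]
  have : (2 : ℝ) + ρ ≠ 0 := by linarith
  simp [arc]
  right
  rw [div_self this]; ring

lemma arc_contDiff : ContDiff ℝ ∞ arc := by unfold arc; fun_prop

/-- derivative of a time-dependent map along a surface -/
lemma joint_surface {V : Type*} [NormedAddCommGroup V] [NormedSpace ℝ V] {Ψ : ℝ → E4 → V}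
    {C : (Fin 2 → ℝ) → E4} {y : Fin 2 → ℝ}
    (h : ContDiffAt ℝ ∞ (fun p : ℝ × E4 => Ψ p.1 p.2) (y 0, C y)) (hC : DifferentiableAt ℝ C y) :
    DifferentiableAt ℝ (fun y => Ψ (y 0) (C y)) y ∧ ∀ z,
    fderiv ℝ (fun y => Ψ (y 0) (C y)) y z = z 0 • deriv (fun τ => Ψ τ (C y)) (y 0) +
      fderiv ℝ (Ψ (y 0)) (C y) (fderiv ℝ C y z) := by
  have h0 : HasFDerivAt (fun y : Fin 2 → ℝ => y 0)
      (ContinuousLinearMap.proj (R := ℝ) (φ := fun _ : Fin 2 => ℝ) 0) y :=
    (ContinuousLinearMap.proj (R := ℝ) (φ := fun _ : Fin 2 => ℝ) 0).hasFDerivAt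
  have h1 : HasFDerivAt (fun y : Fin 2 → ℝ => ((y 0, C y) : ℝ × E4)) _ y :=
    h0.prodMk hC.hasFDerivAt
  have h2 : HasFDerivAt (fun y => Ψ (y 0) (C y)) _ y :=
    HasFDerivAt.comp (g := fun p : ℝ × E4 => Ψ p.1 p.2)
      (f := fun y : Fin 2 → ℝ => ((y 0, C y) : ℝ × E4)) y (joint_hasFDerivAt h) h1
  refine ⟨h2.differentiableAt, fun z => ?_⟩
  rw [h2.fderiv]
  have h3 := joint_apply h (z 0) (fderiv ℝ C y z)
  rw [← h3]
  rfl

/-- the rectangle `[0,1] × [1/n, n]` -/
noncomputable def ra (n : ℕ) : Fin 2 → ℝ := ![0, 1 / (n : ℝ)]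
noncomputable def rb (n : ℕ) : Fin 2 → ℝ := ![1, (n : ℝ)]

/-- existence of a sphere of area `s` bounding on the arc -/
def Sn (n : ℕ) (s : ℝ) : Prop := ∃ F : (Fin 2 → ℝ) → E4,
  ContDiffOn ℝ ∞ F {y | 0 < y 1} ∧ (∀ y ∈ Icc (ra n) (rb n), F y ∈ MX) ∧
  (∀ y ∈ Icc (ra n) (rb n), (∃ i, y i = ra n i ∨ y i = rb n i) → F y = arc (y 1)) ∧
  ∫ y in Icc (ra n) (rb n), pb OO F y (Pi.single 0 1) (Pi.single 1 1) = s

lemma open_O : IsOpen {y : Fin 2 → ℝ | 0 < y 1} :=
  isOpen_lt continuous_const (continuous_apply 1)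

lemma ra_le_rb {n : ℕ} (hn : 2 ≤ n) : ra n ≤ rb n := by
  have h1 : (2 : ℝ) ≤ n := by exact_mod_cast hn
  intro i
  fin_cases i
  · simp [ra, rb]
  · simp only [ra, rb, Fin.mk_one, Matrix.cons_val_one, Matrix.cons_val_zero]
    rw [div_le_iff₀ (by linarith)]
    nlinarith

lemma rect_sub {n : ℕ} (hn : 2 ≤ n) : Icc (ra n) (rb n) ⊆ {y : Fin 2 → ℝ | 0 < y 1} := by
  have h1 : (2 : ℝ) ≤ n := by exact_mod_cast hn
  intro y hy
  have h2 := hy.1 1
  simp only [ra, Matrix.cons_val_one, Matrix.cons_val_zero] at h2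
  have h3 : (0 : ℝ) < 1 / n := by positivity
  exact lt_of_lt_of_le h3 h2

lemma countable_Sn {n : ℕ} (hn : 2 ≤ n) : {s | Sn n s}.Countable := by
  rw [Set.countable_coe_iff.symm]
  have hF : ∀ s : {s | Sn n s}, Sn n s := fun s => s.2
  choose F hsm hM hbd harea using hF
  have hcont : ∀ s, ContinuousOn (F s) (Icc (ra n) (rb n)) := fun s =>
    (hsm s).continuousOn.mono (rect_sub hn)
  let J : {s | Sn n s} → C(Icc (ra n) (rb n), E4) := fun s =>
    ⟨fun y => F s y, continuousOn_iff_continuous_domRestrict.1 (hcont s)⟩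
  have : CompactSpace (Icc (ra n) (rb n)) := isCompact_iff_compactSpace.1 isCompact_Icc
  apply countable_of_isolated J
  intro s
  have hK : IsCompact (F s '' Icc (ra n) (rb n)) := isCompact_Icc.image_of_continuousOn (hcont s)
  have hKM : F s '' Icc (ra n) (rb n) ⊆ MX := by
    rintro _ ⟨y, hy, rfl⟩; exact hM s y hy
  obtain ⟨δ, hδ, hδM⟩ := hK.exists_thickening_subset_open MX_open hKM
  refine ⟨δ, hδ, fun s' hd => ?_⟩
  have hpt : ∀ y ∈ Icc (ra n) (rb n), dist (F s y) (F s' y) < δ := by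
    intro y hy
    exact lt_of_le_of_lt (ContinuousMap.dist_apply_le_dist (f := J s) (g := J s') ⟨y, hy⟩) hd
  have key := area_eq symplectic_MX (A := F s) (B := F s') (ra_le_rb hn) open_O (rect_sub hn)
    (hsm s) (hsm s') ?_ ?_
  · rw [harea s, harea s'] at key
    exact Subtype.ext key
  · intro y hy l hl
    apply hδM
    rw [Metric.mem_thickening_iff]
    refine ⟨F s y, ⟨y, hy, rfl⟩, ?_⟩
    have e : (1 - l) • F s y + l • F s' y - F s y = l • (F s' y - F s y) := by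
      rw [sub_smul, one_smul, smul_sub]; abel
    rw [dist_eq_norm, e, norm_smul, Real.norm_eq_abs, abs_of_nonneg hl.1]
    have h1 := hpt y hy
    rw [dist_comm, dist_eq_norm] at h1
    have h2 := norm_nonneg (F s' y - F s y)
    nlinarith [hl.2]
  · intro y hy hb
    rw [hbd s y hy hb, hbd s' y hy hb]

/-- a Hamiltonian radial map gives a sphere whose area is its flux -/
lemma HamC_Sn {s : ℝ} (h : TE 2 Gb s ∈ HamC MX OO) : ∃ n : ℕ, 2 ≤ n ∧ Sn n s := by
  obtain ⟨K, hKM, hK, H, Φ, hHs, hH0, hΦs, hΦM, hflow, hΦ0, hΦ1⟩ := h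
  -- the arc leaves `K` at both ends
  obtain ⟨n, hn2, hnK⟩ : ∃ n : ℕ, 2 ≤ n ∧ ∀ ρ : ℝ, 0 < ρ → (ρ ≤ 1 / n ∨ (n : ℝ) ≤ ρ) → arc ρ ∉ K := by
    have hopen : IsOpen (Kᶜ : Set E4) := hK.isClosed.isOpen_compl
    have hP : P0 ∈ (Kᶜ : Set E4) := fun h => (hKM h).2 rfl
    obtain ⟨ε, hε, hball⟩ := Metric.isOpen_iff.1 hopen P0 hP
    obtain ⟨R, hR⟩ := hK.isBounded.subset_ball 0
    obtain ⟨n1, hn1⟩ := exists_nat_gt (1 / ε)
    obtain ⟨n2, hn2⟩ := exists_nat_gt R
    refine ⟨max 2 (max n1 n2), le_max_left _ _, ?_⟩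
    intro ρ hρ hc hmem
    have hm1 : (n1 : ℝ) ≤ (max 2 (max n1 n2) : ℕ) := by
      exact_mod_cast (le_max_left n1 n2).trans (le_max_right _ _)
    have hm2 : (n2 : ℝ) ≤ (max 2 (max n1 n2) : ℕ) := by
      exact_mod_cast (le_max_right n1 n2).trans (le_max_right _ _)
    rcases hc with hc | hc
    · have h1 : arc ρ ∈ Metric.ball P0 ε := by
        rw [Metric.mem_ball, dist_eq_norm]
        have e : arc ρ - P0 = (0, 0, ρ, 0) := by simp [arc, P0]
        rw [e]
        simp only [Prod.norm_def, norm_zero, Real.norm_eq_abs, abs_of_pos hρ]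
        have h2 : ρ < ε := by
          refine lt_of_le_of_lt hc ?_
          rw [div_lt_iff₀ (by
            have : (0 : ℝ) < 1 / ε := by positivity
            linarith)]
          rw [div_lt_iff₀ hε] at hn1
          nlinarith
        simp [hρ.le, h2]
      exact hball h1 hmem
    · have h1 := hR hmem
      rw [mem_ball_zero_iff] at h1
      have h2 : ρ ≤ ‖arc ρ‖ := by
        simp only [arc, Prod.norm_def, norm_zero, Real.norm_eq_abs]
        have h3 : ρ ≤ |2 + ρ| := by rw [abs_of_pos (by linarith)]; linarith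
        exact h3.trans ((le_max_left _ _).trans ((le_max_right _ _).trans (le_max_right _ _)))
      linarith
  have hn1 : (2 : ℝ) ≤ n := by exact_mod_cast hn2
  refine ⟨n, hn2, ?_⟩
  -- time reparametrisation
  set β : ℝ → ℝ := Real.smoothTransition with hβ
  have hβs : ContDiff ℝ ∞ β := Real.smoothTransition.contDiff
  have hβI : ∀ t, β t ∈ Icc (0 : ℝ) 1 := fun t =>
    ⟨Real.smoothTransition.nonneg t, Real.smoothTransition.le_one t⟩
  have hβ0 : β 0 = 0 := Real.smoothTransition.zero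
  have hβ1 : β 1 = 1 := Real.smoothTransition.one
  have hrep : ContDiffOn ℝ ∞ (fun p : ℝ × E4 => ((β p.1, p.2) : ℝ × E4)) (univ ×ˢ MX) :=
    ((hβs.comp contDiff_fst).prodMk contDiff_snd).contDiffOn
  have hΨs : ContDiffOn ℝ ∞ (fun p : ℝ × E4 => Φ (β p.1) p.2) (univ ×ˢ MX) :=
    hΦs.comp hrep (fun p hp => ⟨hβI p.1, hp.2⟩)
  have hHβs : ContDiffOn ℝ ∞ (fun p : ℝ × E4 => H (β p.1) p.2) (univ ×ˢ MX) :=
    hHs.comp hrep (fun p hp => ⟨hβI p.1, hp.2⟩)
  have hΨcd : ∀ t : ℝ, ∀ x ∈ MX, ContDiffAt ℝ ∞ (fun p : ℝ × E4 => Φ (β p.1) p.2) (t, x) :=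
    fun t x hx => joint_contDiffAt (Φ := fun t x => Φ (β t) x) MX_open hΨs t hx
  have hHcd : ∀ t : ℝ, ∀ x ∈ MX, ContDiffAt ℝ ∞ (fun p : ℝ × E4 => H (β p.1) p.2) (t, x) :=
    fun t x hx => joint_contDiffAt (Φ := fun t x => H (β t) x) MX_open hHβs t hx
  -- the surface before the correction
  set C : (Fin 2 → ℝ) → E4 := fun y => Φ (β (y 0)) (arc (y 1)) with hCdef
  have hCM : ∀ y : Fin 2 → ℝ, 0 < y 1 → C y ∈ MX := fun y hy => hΦM _ (hβI _) (arc_MX hy)
  have harc1 : ContDiff ℝ ∞ (fun y : Fin 2 → ℝ => arc (y 1)) :=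
    arc_contDiff.comp (contDiff_apply ℝ ℝ (1 : Fin 2))
  have hCs : ContDiffOn ℝ ∞ C {y | 0 < y 1} := by
    have h1 : ContDiffOn ℝ ∞ (fun y : Fin 2 → ℝ => ((y 0, arc (y 1)) : ℝ × E4)) {y | 0 < y 1} :=
      ((contDiff_apply ℝ ℝ (0 : Fin 2)).prodMk harc1).contDiffOn
    exact hΨs.comp h1 (fun y hy => ⟨mem_univ _, arc_MX hy⟩)
  have hCd : ∀ y : Fin 2 → ℝ, 0 < y 1 → ContDiffAt ℝ ∞ C y := fun y hy =>
    hCs.contDiffAt (open_O.mem_nhds hy)
  -- the correcting path
  have hP := (hamPath_TE Gb_data).speed XX_open (-s)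
  set T : ℝ → E4 → E4 := fun t => TE 2 Gb (-s * t) with hT
  set F : (Fin 2 → ℝ) → E4 := fun y => T (y 0) (C y) with hFdef
  have hFs : ContDiffOn ℝ ∞ F {y | 0 < y 1} := by
    have h1 : ContDiffOn ℝ ∞ (fun y : Fin 2 → ℝ => ((y 0, C y) : ℝ × E4)) {y | 0 < y 1} :=
      ((contDiff_apply ℝ ℝ (0 : Fin 2))).contDiffOn.prodMk hCs
    exact hP.smooth.comp h1 (fun y hy => ⟨mem_univ _, (hCM y hy).1⟩)
  have hFd : ∀ y : Fin 2 → ℝ, 0 < y 1 → ContDiffAt ℝ ∞ F y := fun y hy =>
    hFs.contDiffAt (open_O.mem_nhds hy)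
  have hFM : ∀ y : Fin 2 → ℝ, 0 < y 1 → F y ∈ MX := fun y hy => TE_MX (hCM y hy)
  -- constancy off `K`
  have hfix : ∀ x ∈ MX, x ∉ K → ∀ t ∈ Icc (0 : ℝ) 1, Φ t x = x := by
    intro x hx hxK
    have hcont : ContinuousOn (fun t => Φ t x) (Icc 0 1) := by
      have h1 : ContinuousOn (fun t : ℝ => ((t, x) : ℝ × E4)) (Icc 0 1) := by fun_prop
      exact hΦs.continuousOn.comp h1 (fun t ht => ⟨ht, hx⟩)
    have hxo : (MX ∩ Kᶜ : Set E4) ∈ 𝓝 x :=
      (MX_open.inter hK.isClosed.isOpen_compl).mem_nhds ⟨hx, hxK⟩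
    have hder0 : ∀ t ∈ Icc (0 : ℝ) 1, Φ t x ∉ K →
        HasDerivWithinAt (fun τ => Φ τ x) 0 (Icc (0 : ℝ) 1) t := by
      intro t ht hnot
      obtain ⟨X, hX, hXw⟩ := hflow t ht x hx
      have hX0 : X = 0 := by
        apply symplectic_MX.nondegenerate _ (hΦM t ht hx)
        intro w
        rw [hXw w]
        have e : H t =ᶠ[𝓝 (Φ t x)] fun _ => (0 : ℝ) := by
          filter_upwards [(MX_open.inter hK.isClosed.isOpen_compl).mem_nhds ⟨hΦM t ht hx, hnot⟩]
            with z hz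
          exact hH0 t ht z hz.1 hz.2
        rw [e.fderiv_eq]; simp
      rw [hX0] at hX; exact hX
    -- the set where the orbit stays at `x` is open and closed
    have hIcc : Icc (0 : ℝ) 1 ⊆ {t | Φ t x = x} := by
      have hclosed : IsClosed ({t | Φ t x = x} ∩ Icc (0 : ℝ) 1) := by
        have h1 := hcont.preimage_isClosed_of_isClosed isClosed_Icc (isClosed_singleton (x := x))
        rw [inter_comm]; exact h1
      refine hclosed.Icc_subset_of_forall_exists_gt (hΦ0 x hx) ?_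
      intro t ht y hy
      have hty : t < y := hy
      have ht1 : t ∈ Icc (0 : ℝ) 1 := ⟨ht.2.1, ht.2.2.le⟩
      have hev : ∀ᶠ τ in 𝓝[Icc (0 : ℝ) 1] t, Φ τ x ∈ (MX ∩ Kᶜ : Set E4) := by
        have := hcont t ht1
        have h2 : Tendsto (fun τ => Φ τ x) (𝓝[Icc (0 : ℝ) 1] t) (𝓝 x) := by
          have h3 := this.tendsto
          have h4 : Φ t x = x := ht.1
          rw [h4] at h3; exact h3
        exact h2 hxo
      rw [eventually_nhdsWithin_iff, Metric.eventually_nhds_iff] at hev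
      obtain ⟨δ, hδ, hδ'⟩ := hev
      set u := min (t + δ / 2) (min y 1) with hu
      have htu : t < u := by
        rw [hu]; refine lt_min (by linarith) (lt_min hty ht.2.2)
      have hu1 : u ≤ 1 := (min_le_right _ _).trans (min_le_right _ _)
      have huy : u ≤ y := (min_le_right _ _).trans (min_le_left _ _)
      have huδ : u < t + δ := lt_of_le_of_lt (min_le_left _ _) (by linarith)
      refine ⟨u, ?_, htu, huy⟩
      have hsub : Icc t u ⊆ Icc (0 : ℝ) 1 := Icc_subset_Icc ht.2.1 hu1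
      have hd0 : ∀ τ ∈ Ico t u, HasDerivWithinAt (fun τ => Φ τ x) 0 (Ici τ) τ := by
        intro τ hτ
        have hτ1 : τ ∈ Icc (0 : ℝ) 1 := hsub ⟨hτ.1, hτ.2.le⟩
        have hnK' := (hδ' (y := τ) (by
          rw [Real.dist_eq, abs_lt]; constructor <;> linarith [hτ.1, hτ.2]) hτ1).2
        have h5 := hder0 τ hτ1 hnK'
        have hlt1 : τ < 1 := lt_of_lt_of_le hτ.2 hu1
        have h6 : Icc (0 : ℝ) 1 ∈ 𝓝[Ici τ] τ :=
          mem_of_superset (Icc_mem_nhdsGE hlt1) (Icc_subset_Icc hτ1.1 le_rfl)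
        exact h5.mono_of_mem_nhdsWithin h6
      have hconst := constant_of_has_deriv_right_zero (hcont.mono hsub) hd0 u ⟨htu.le, le_rfl⟩
      have h7 : Φ t x = x := ht.1
      change Φ u x = x
      rw [hconst, h7]
    exact fun t ht => hIcc ht
  have hend : ∀ t ρ : ℝ, 0 < ρ → (ρ ≤ 1 / n ∨ (n : ℝ) ≤ ρ) → Φ (β t) (arc ρ) = arc ρ ∧
      TE 2 Gb t (arc ρ) = arc ρ := by
    intro t ρ hρ hc
    refine ⟨hfix _ (arc_MX hρ) (hnK ρ hρ hc) _ (hβI t), ?_⟩
    apply TE_eq_self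
    rw [NN_arc hρ]
    rcases hc with hc | hc
    · apply Gb_deriv_of_lt
      have h2 : (1 : ℝ) / n ≤ 1 / 2 := by
        apply one_div_le_one_div_of_le <;> linarith
      nlinarith
    · apply Gb_deriv_of_gt
      nlinarith
  refine ⟨F, hFs, fun y hy => hFM y (rect_sub hn2 hy), ?_, ?_⟩
  · -- boundary values
    rintro y hy ⟨i, hi⟩
    have hpos : 0 < y 1 := rect_sub hn2 hy
    fin_cases i
    · rcases hi with hi | hi
      · have h0 : y 0 = 0 := hi
        simp only [hFdef, hT, hCdef]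
        rw [h0, hβ0, hΦ0 _ (arc_MX hpos), mul_zero, TE_zero]
      · have h0 : y 0 = 1 := hi
        simp only [hFdef, hT, hCdef]
        rw [h0, hβ1, hΦ1 _ (arc_MX hpos), mul_one, TE_add Gb_data, neg_add_cancel, TE_zero]
    · have hc : y 1 ≤ 1 / n ∨ (n : ℝ) ≤ y 1 := by
        rcases hi with hi | hi
        · left
          have h0 : y 1 = 1 / n := hi
          exact h0.le
        · right
          have h0 : y 1 = n := hi
          exact h0.ge
      simp only [hFdef, hT, hCdef]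
      rw [(hend (y 0) (y 1) hpos hc).1, (hend _ (y 1) hpos hc).2]
  · -- the area
    set g : (Fin 2 → ℝ) → ℝ := fun y => -s * Gb (NN 2 (F y)) + deriv β (y 0) * H (β (y 0)) (C y)
      with hg
    have hβ's : ContDiff ℝ ∞ (deriv β) := by
      have := hβs
      rw [contDiff_infty_iff_deriv] at this
      exact this.2
    have hy0 : ContDiff ℝ ∞ (fun y : Fin 2 → ℝ => y 0) := contDiff_apply ℝ ℝ (0 : Fin 2)
    have hHC : ∀ y : Fin 2 → ℝ, 0 < y 1 → ContDiffAt ℝ ∞ (fun y : Fin 2 → ℝ => H (β (y 0)) (C y)) y := by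
      intro y hy
      have h1 : ContDiffAt ℝ ∞ (fun y : Fin 2 → ℝ => ((y 0, C y) : ℝ × E4)) y :=
        hy0.contDiffAt.prodMk (hCd y hy)
      exact ContDiffAt.comp (g := fun p : ℝ × E4 => H (β p.1) p.2)
        (f := fun y : Fin 2 → ℝ => ((y 0, C y) : ℝ × E4)) y (hHcd _ _ (hCM y hy)) h1
    have hGF : ∀ y : Fin 2 → ℝ, 0 < y 1 → ContDiffAt ℝ ∞ (fun y : Fin 2 → ℝ => -s * Gb (NN 2 (F y))) y := by
      intro y hy
      have h1 : ContDiffAt ℝ ∞ (fun y : Fin 2 → ℝ => NN 2 (F y)) y :=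
        ContDiffAt.comp (g := NN 2) (f := F) y (NN_contDiffAt (rad_pos_XX (hFM y hy).1)) (hFd y hy)
      exact contDiffAt_const.mul (Gb_contDiff.contDiffAt.comp y h1)
    have hgs : ∀ y ∈ Icc (ra n) (rb n), ContDiffAt ℝ ∞ g y := by
      intro y hy
      have hpos : 0 < y 1 := rect_sub hn2 hy
      exact (hGF y hpos).add ((hβ's.comp hy0).contDiffAt.mul (hHC y hpos))
    have hres := area_potential (Ω := OO) (A := F) (s := s) (ra_le_rb hn2) hgs ?_ ?_
    · rw [hres]
      simp [ra, rb]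
    · intro y hy
      have hpos : 0 < y 1 := rect_sub hn2 hy
      set e0 : Fin 2 → ℝ := Pi.single 0 1
      set e1 : Fin 2 → ℝ := Pi.single 1 1
      have e00 : e0 0 = 1 := by simp [e0]
      have e10 : e1 0 = 0 := by simp [e1]
      have hCdiff : DifferentiableAt ℝ C y := (hCd y hpos).differentiableAt (by simp)
      have hCX : C y ∈ XX := (hCM y hpos).1
      have hsurf := (joint_surface (Ψ := T) (y := y) (C := C) (hP.cd XX_open (y 0) hCX) hCdiff).2
      have f0 : fderiv ℝ F y e0 = deriv (fun τ => T τ (C y)) (y 0) +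
          fderiv ℝ (T (y 0)) (C y) (fderiv ℝ C y e0) := by
        rw [hFdef, hsurf e0, e00, one_smul]
      have f1 : fderiv ℝ F y e1 = fderiv ℝ (T (y 0)) (C y) (fderiv ℝ C y e1) := by
        rw [hFdef, hsurf e1, e10, zero_smul, zero_add]
      -- derivative of the uncorrected surface in time
      have harcd : DifferentiableAt ℝ (fun y : Fin 2 → ℝ => arc (y 1)) y :=
        (harc1.differentiable (by simp)).differentiableAt
      have hsurfC := (joint_surface (Ψ := fun t x => Φ (β t) x) (y := y)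
        (C := fun y : Fin 2 → ℝ => arc (y 1)) (hΨcd _ _ (arc_MX hpos)) harcd).2
      obtain ⟨X, hX, hXw⟩ := hflow (β (y 0)) (hβI _) (arc (y 1)) (arc_MX hpos)
      have hβd : HasDerivAt β (deriv β (y 0)) (y 0) :=
        (hβs.differentiable (by simp)).differentiableAt.hasDerivAt
      have hdt : HasDerivAt (fun τ => Φ (β τ) (arc (y 1))) (deriv β (y 0) • X) (y 0) :=
        HasDerivWithinAt.scomp_hasDerivAt (y 0) hX hβd (fun t => hβI t)
      have harce0 : fderiv ℝ (fun y : Fin 2 → ℝ => arc (y 1)) y e0 = 0 := by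
        have h1 : HasFDerivAt (fun y : Fin 2 → ℝ => y 1)
          (ContinuousLinearMap.proj (R := ℝ) (φ := fun _ : Fin 2 => ℝ) 1) y :=
          (ContinuousLinearMap.proj (R := ℝ) (φ := fun _ : Fin 2 => ℝ) 1).hasFDerivAt
        have h2 : HasFDerivAt arc (fderiv ℝ arc (y 1)) (y 1) :=
          ((arc_contDiff.differentiable (by simp)).differentiableAt).hasFDerivAt
        have h3 : HasFDerivAt (fun y : Fin 2 → ℝ => arc (y 1)) _ y :=
          HasFDerivAt.comp (g := arc) (f := fun y : Fin 2 → ℝ => y 1) y h2 h1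
        rw [h3.fderiv]
        simp [e0]
      have c0 : fderiv ℝ C y e0 = deriv β (y 0) • X := by
        rw [hCdef, hsurfC e0, e00, one_smul, hdt.deriv, harce0, map_zero, add_zero]
      -- evaluate the form
      unfold pb
      rw [f0, f1, map_add, _root_.add_apply]
      have t1 : OO (F y) (deriv (fun τ => T τ (C y)) (y 0))
          (fderiv ℝ (T (y 0)) (C y) (fderiv ℝ C y e1)) =
          fderiv ℝ (fun x => -s * Gb (NN 2 x)) (F y) (fderiv ℝ F y e1) := by
        rw [f1]; exact hP.ham (y 0) (C y) hCX _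
      have t2 : OO (F y) (fderiv ℝ (T (y 0)) (C y) (fderiv ℝ C y e0))
          (fderiv ℝ (T (y 0)) (C y) (fderiv ℝ C y e1)) =
          deriv β (y 0) * fderiv ℝ (H (β (y 0))) (C y) (fderiv ℝ C y e1) := by
        have h1 := hP.sympl (y 0) (C y) hCX (fderiv ℝ C y e0) (fderiv ℝ C y e1)
        have h2 : OO (F y) (fderiv ℝ (T (y 0)) (C y) (fderiv ℝ C y e0))
          (fderiv ℝ (T (y 0)) (C y) (fderiv ℝ C y e1)) = OO (C y) (fderiv ℝ C y e0)
            (fderiv ℝ C y e1) := h1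
        rw [h2, c0, map_smul, _root_.smul_apply, smul_eq_mul, hXw]
      rw [t1, t2]
      -- derivative of the potential
      have hF' : HasFDerivAt F (fderiv ℝ F y) y :=
        ((hFd y hpos).differentiableAt (by simp)).hasFDerivAt
      have hG1 : DifferentiableAt ℝ (fun x => -s * Gb (NN 2 x)) (F y) := by
        have h1 : ContDiffAt ℝ ∞ (fun x => Gb (NN 2 x)) (F y) :=
          Gb_contDiff.contDiffAt.comp _ (NN_contDiffAt (rad_pos_XX (hFM y hpos).1))
        exact ((contDiffAt_const (c := -s)).mul h1).differentiableAt (by simp)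
      have hd1 : HasFDerivAt (fun y => -s * Gb (NN 2 (F y)))
          ((fderiv ℝ (fun x => -s * Gb (NN 2 x)) (F y)).comp (fderiv ℝ F y)) y :=
        HasFDerivAt.comp (g := fun x => -s * Gb (NN 2 x)) (f := F) y hG1.hasFDerivAt hF'
      have hHs' := (joint_surface (Ψ := fun t x => H (β t) x) (y := y) (C := C)
        (hHcd _ _ (hCM y hpos)) hCdiff)
      have hd2 : HasFDerivAt (fun y : Fin 2 → ℝ => deriv β (y 0)) (fderiv ℝ
          (fun y : Fin 2 → ℝ => deriv β (y 0)) y) y :=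
        ((hβ's.comp hy0).differentiable (by simp)).differentiableAt.hasFDerivAt
      have hd2z : fderiv ℝ (fun y : Fin 2 → ℝ => deriv β (y 0)) y e1 = 0 := by
        have h1 : HasFDerivAt (fun y : Fin 2 → ℝ => y 0)
          (ContinuousLinearMap.proj (R := ℝ) (φ := fun _ : Fin 2 => ℝ) 0) y :=
          (ContinuousLinearMap.proj (R := ℝ) (φ := fun _ : Fin 2 => ℝ) 0).hasFDerivAt
        have h2 : HasDerivAt (deriv β) (deriv (deriv β) (y 0)) (y 0) :=
          ((hβ's.differentiable (by simp)).differentiableAt).hasDerivAt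
        have h3 : HasFDerivAt (fun y : Fin 2 → ℝ => deriv β (y 0)) _ y :=
          HasDerivAt.comp_hasFDerivAt (h₂ := deriv β) y h2 h1
        rw [h3.fderiv]
        simp [e1]
      have hall : HasFDerivAt g _ y := hd1.add (hd2.mul hHs'.1.hasFDerivAt)
      rw [hall.fderiv]
      simp only [_root_.add_apply, _root_.smul_apply, ContinuousLinearMap.comp_apply, smul_eq_mul]
      rw [hd2z, hHs'.2 e1, e10, zero_smul, zero_add, f1]
      ring
    · intro t ht
      have hn0 : (0 : ℝ) < 1 / n := by positivity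
      have hn3 : (0 : ℝ) < n := by linarith
      have hval : ∀ ρ : ℝ, 0 < ρ → (ρ ≤ 1 / n ∨ (n : ℝ) ≤ ρ) → g ![t, ρ] = -s * Gb (ρ ^ 2) := by
        intro ρ hρ hc
        have a1 := (hend t ρ hρ hc).1
        have a2 := (hend (-s * t) ρ hρ hc).2
        have a3 : C ![t, ρ] = arc ρ := by
          simp only [hCdef, Matrix.cons_val_zero, Matrix.cons_val_one]
          exact a1
        have a4 : F ![t, ρ] = arc ρ := by
          simp only [hFdef, hT, Matrix.cons_val_zero]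
          rw [a3]; exact a2
        simp only [hg]
        rw [a3, a4, NN_arc hρ]
        simp only [Matrix.cons_val_zero]
        rw [hH0 _ (hβI t) _ (arc_MX hρ) (hnK ρ hρ hc), mul_zero, add_zero]
      have hb1 : rb n 1 = n := rfl
      have ha1 : ra n 1 = 1 / n := rfl
      rw [hb1, ha1, hval n hn3 (Or.inr le_rfl), hval (1 / n) hn0 (Or.inl le_rfl)]
      have hsmall : ((1 : ℝ) / n) ^ 2 ≤ 1 := by
        have h2 : (1 : ℝ) / n ≤ 1 / 2 := by
          apply one_div_le_one_div_of_le <;> linarith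
        nlinarith
      have hbig : (2 : ℝ) ≤ (n : ℝ) ^ 2 := by nlinarith
      rw [Gb_of_ge hbig, Gb_of_le hsmall]
      ring

/-- only countably many radial maps are Hamiltonian on the punctured manifold -/
theorem countable_ham : {s : ℝ | TE 2 Gb s ∈ HamC MX OO}.Countable := by
  have h : {s : ℝ | TE 2 Gb s ∈ HamC MX OO} ⊆ ⋃ n : ℕ, {s | 2 ≤ n ∧ Sn n s} := by
    intro s hs
    obtain ⟨n, hn, hs'⟩ := HamC_Sn hs
    exact mem_iUnion.2 ⟨n, hn, hs'⟩
  refine (countable_iUnion fun n => ?_).mono h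
  by_cases hn : 2 ≤ n
  · exact (countable_Sn hn).mono fun s hs => hs.2
  · have : {s | 2 ≤ n ∧ Sn n s} = ∅ := by
      ext s; simp [hn]
    rw [this]; exact countable_empty

end Pool.Agent.H844R2
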