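import Pool.Agent.H844R2.Calc

open Set Filter Topology
open scoped ContDiff

namespace Pool.Agent.H844R2

variable {E : Type} [NormedAddCommGroup E] [NormedSpace ℝ E]
  {X : Set E} {Ω : E → E →L[ℝ] E →L[ℝ] ℝ}

lemma SymplecticOn.skew (h : SymplecticOn X Ω) {x : E} (hx : x ∈ X) (u v : E) :
    Ω x u v = - Ω x v u := by
  have h1 := h.alternating x hx (u + v)
  simp only [map_add, _root_.add_apply] at h1
  have h2 := h.alternating x hx u
  have h3 := h.alternating x hx v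
  linarith

lemma SymplecticOn.diffAt (h : SymplecticOn X Ω) {x : E} (hx : x ∈ X) :
    DifferentiableAt ℝ Ω x :=
  (h.smooth.contDiffAt (h.isOpen.mem_nhds hx)).differentiableAt (by simp)

/-- a flow of a Hamiltonian vector field preserves the symplectic form -/
lemma sympl_of_ham (hΩ : SymplecticOn X Ω) {Φ : ℝ → E → E} {H : ℝ → E → ℝ}
    (smooth : ContDiffOn ℝ ∞ (fun p : ℝ × E => Φ p.1 p.2) (univ ×ˢ X))
    (smoothH : ContDiffOn ℝ ∞ (fun p : ℝ × E => H p.1 p.2) (univ ×ˢ X))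
    (maps : ∀ t, MapsTo (Φ t) X X)
    (ham : ∀ t, ∀ x ∈ X, ∀ w,
      Ω (Φ t x) (deriv (fun τ => Φ τ x) t) w = fderiv ℝ (H t) (Φ t x) w)
    (h0 : ∀ x ∈ X, Φ 0 x = x) (t : ℝ) (x : E) (hx : x ∈ X) (v w : E) :
    Ω (Φ t x) (fderiv ℝ (Φ t) x v) (fderiv ℝ (Φ t) x w) = Ω x v w := by
  set F : ℝ × E → E := fun p => Φ p.1 p.2 with hF
  set K : ℝ × E → ℝ := fun p => H p.1 (Φ p.1 p.2) with hK
  have hX := hΩ.isOpen
  have hFc : ∀ t : ℝ, ∀ y ∈ X, ContDiffAt ℝ ∞ F (t, y) := fun t y hy =>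
    joint_contDiffAt hX smooth t hy
  have hKc : ∀ t : ℝ, ∀ y ∈ X, ContDiffAt ℝ ∞ K (t, y) := by
    intro t y hy
    have h1 : ContDiffOn ℝ ∞ (fun p : ℝ × E => ((p.1, Φ p.1 p.2) : ℝ × E)) (univ ×ˢ X) :=
      contDiff_fst.contDiffOn.prodMk smooth
    have h2 : ContDiffOn ℝ ∞ K (univ ×ˢ X) :=
      smoothH.comp h1 (fun p hp => ⟨mem_univ _, maps p.1 hp.2⟩)
    exact h2.contDiffAt ((isOpen_univ.prod hX).mem_nhds ⟨mem_univ _, hy⟩)
  -- the mixed terms
  have hmix : ∀ t : ℝ, ∀ y ∈ X, ∀ u : E,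
      pb Ω F (t, y) (1, 0) (0, u) = fderiv ℝ K (t, y) (0, u) := by
    intro t y hy u
    unfold pb
    have e1 := joint_apply (Φ := Φ) (hFc t y hy) 1 0
    have e2 := joint_apply (Φ := Φ) (hFc t y hy) 0 u
    simp only [one_smul, map_zero, add_zero, zero_smul, zero_add] at e1 e2
    have e3 := joint_apply (Φ := fun t x => H t (Φ t x)) (hKc t y hy) 0 u
    simp only [zero_smul, zero_add] at e3
    rw [hF, hK]
    rw [e1, e2, e3]
    change Ω (Φ t y) _ _ = _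
    rw [ham t y hy]
    have hz := maps t hy
    have d1 := ((joint_space (joint_contDiffAt hX smoothH t hz)).differentiableAt).hasFDerivAt
    have d2 := ((joint_space (Φ := Φ) (hFc t y hy)).differentiableAt).hasFDerivAt
    have d3 : HasFDerivAt (fun x => H t (Φ t x)) ((fderiv ℝ (H t) (Φ t y)).comp
      (fderiv ℝ (Φ t) y)) y := HasFDerivAt.comp y d1 d2
    rw [d3.fderiv]
    rfl
  have hder : ∀ t : ℝ, HasDerivAt (fun t => pb Ω F (t, x) (0, v) (0, w)) 0 t := by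
    intro t
    have hz := maps t hx
    have hF2 : ContDiffAt ℝ 2 F (t, x) := (hFc t x hx).of_le (by decide)
    have hΩd : DifferentiableAt ℝ Ω (F (t, x)) := hΩ.diffAt hz
    have hcl := pb_closed hF2 hΩd (fun u v => hΩ.skew hz u v) (hΩ.closed _ hz)
      ((1 : ℝ), (0 : E)) ((0 : ℝ), v) ((0 : ℝ), w)
    have hev : ∀ᶠ p in 𝓝 ((t, x) : ℝ × E), p.2 ∈ X :=
      continuous_snd.continuousAt.eventually_mem (hX.mem_nhds hx)
    have hpos : ∀ p : ℝ × E, p.2 ∈ X → F p ∈ X := fun p hp => maps p.1 hp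
    have hK2 : ContDiffAt ℝ 2 K (t, x) := (hKc t x hx).of_le (by decide)
    have hKd : DifferentiableAt ℝ (fderiv ℝ K) (t, x) :=
      (hK2.fderiv_right (m := 1) (by norm_num)).differentiableAt (by norm_num)
    have hsym : IsSymmSndFDerivAt ℝ K (t, x) := hK2.isSymmSndFDerivAt (by simp)
    have a1 : fderiv ℝ (fun y => pb Ω F y ((0 : ℝ), w) ((1 : ℝ), (0 : E))) (t, x) ((0 : ℝ), v) =
        - fderiv ℝ (fderiv ℝ K) (t, x) ((0 : ℝ), v) ((0 : ℝ), w) := by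
      have e : (fun y => pb Ω F y ((0 : ℝ), w) ((1 : ℝ), (0 : E))) =ᶠ[𝓝 (t, x)]
          fun y => - fderiv ℝ K y ((0 : ℝ), w) := by
        filter_upwards [hev] with p hp
        rw [← hmix p.1 p.2 hp w]
        exact hΩ.skew (hpos p hp) _ _
      rw [e.fderiv_eq]
      have := (hKd.hasFDerivAt.clm_apply (hasFDerivAt_const ((0 : ℝ), w) (t, x))).neg
      have h2 : HasFDerivAt (fun y => - fderiv ℝ K y ((0 : ℝ), w)) _ (t, x) := this
      rw [h2.fderiv]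
      simp
    have a2 : fderiv ℝ (fun y => pb Ω F y ((1 : ℝ), (0 : E)) ((0 : ℝ), v)) (t, x) ((0 : ℝ), w) =
        fderiv ℝ (fderiv ℝ K) (t, x) ((0 : ℝ), w) ((0 : ℝ), v) := by
      have e : (fun y => pb Ω F y ((1 : ℝ), (0 : E)) ((0 : ℝ), v)) =ᶠ[𝓝 (t, x)]
          fun y => fderiv ℝ K y ((0 : ℝ), v) := by
        filter_upwards [hev] with p hp
        exact hmix p.1 p.2 hp v
      rw [e.fderiv_eq]
      have := (hKd.hasFDerivAt.clm_apply (hasFDerivAt_const ((0 : ℝ), v) (t, x)))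
      have h2 : HasFDerivAt (fun y => fderiv ℝ K y ((0 : ℝ), v)) _ (t, x) := this
      rw [h2.fderiv]
      simp
    rw [a1, a2, hsym ((0 : ℝ), w) ((0 : ℝ), v)] at hcl
    have h3 : fderiv ℝ (fun y => pb Ω F y ((0 : ℝ), v) ((0 : ℝ), w)) (t, x) ((1 : ℝ), (0 : E)) = 0 := by
      linarith
    have h4 := (hasFDerivAt_pb hF2 hΩd ((0 : ℝ), v) ((0 : ℝ), w)).differentiableAt.hasFDerivAt
    have h1 : HasDerivAt (fun τ : ℝ => ((τ, x) : ℝ × E)) ((1 : ℝ), (0 : E)) t :=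
      (hasDerivAt_id t).prodMk (hasDerivAt_const t x)
    have h5 := HasFDerivAt.comp_hasDerivAt (f := fun τ : ℝ => ((τ, x) : ℝ × E)) t h4 h1
    rw [h3] at h5
    exact h5
  have hconst : pb Ω F (t, x) (0, v) (0, w) = pb Ω F (0, x) (0, v) (0, w) :=
    is_const_of_deriv_eq_zero (f := fun t => pb Ω F (t, x) (0, v) (0, w))
      (fun t => (hder t).differentiableAt) (fun t => (hder t).deriv) t 0
  have hexp : ∀ t : ℝ, pb Ω F (t, x) (0, v) (0, w) =
      Ω (Φ t x) (fderiv ℝ (Φ t) x v) (fderiv ℝ (Φ t) x w) := by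
    intro t
    unfold pb
    have e1 := joint_apply (Φ := Φ) (hFc t x hx) 0 v
    have e2 := joint_apply (Φ := Φ) (hFc t x hx) 0 w
    simp only [zero_smul, zero_add] at e1 e2
    rw [hF, e1, e2]
  rw [← hexp t, hconst, hexp 0, h0 x hx]
  have hid : fderiv ℝ (Φ 0) x = ContinuousLinearMap.id ℝ E := by
    have : Φ 0 =ᶠ[𝓝 x] id := by
      filter_upwards [hX.mem_nhds hx] with y hy
      exact h0 y hy
    rw [this.fderiv_eq, fderiv_id]
  rw [hid]
  simp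

/-- build a Hamiltonian path from a flow -/
lemma HamPath.mk' (hΩ : SymplecticOn X Ω) {Φ Φi : ℝ → E → E} {H : ℝ → E → ℝ}
    (smooth : ContDiffOn ℝ ∞ (fun p : ℝ × E => Φ p.1 p.2) (univ ×ˢ X))
    (smoothInv : ContDiffOn ℝ ∞ (fun p : ℝ × E => Φi p.1 p.2) (univ ×ˢ X))
    (smoothH : ContDiffOn ℝ ∞ (fun p : ℝ × E => H p.1 p.2) (univ ×ˢ X))
    (maps : ∀ t, MapsTo (Φ t) X X)
    (mapsInv : ∀ t, MapsTo (Φi t) X X)
    (left : ∀ t, ∀ x ∈ X, Φi t (Φ t x) = x)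
    (right : ∀ t, ∀ x ∈ X, Φ t (Φi t x) = x)
    (ham : ∀ t, ∀ x ∈ X, ∀ w,
      Ω (Φ t x) (deriv (fun τ => Φ τ x) t) w = fderiv ℝ (H t) (Φ t x) w)
    (h0 : ∀ x ∈ X, Φ 0 x = x) : HamPath X Ω Φ Φi H where
  smooth := smooth
  smoothInv := smoothInv
  smoothH := smoothH
  maps := maps
  mapsInv := mapsInv
  left := left
  right := right
  ham := ham
  sympl t x hx v w := sympl_of_ham hΩ smooth smoothH maps ham h0 t x hx v w

end Pool.Agent.H844R2
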