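import Pool.Agent.H844R2.Flows

open Set Filter Topology
open scoped ContDiff

namespace Pool.Agent.H844R2

/-! ### Radial flows in the Darboux chart -/

/-- squared distance to `(0,0,m,0)` -/
noncomputable def dd (m : ℝ) (z : E4) : ℝ := z.1 ^ 2 + z.2.1 ^ 2 + (z.2.2.1 - m) ^ 2 + z.2.2.2 ^ 2

/-- simultaneous rotation by the angle `-φ` about `(0,0,m,0)` -/
noncomputable def rr (m φ : ℝ) (z : E4) : E4 :=
  (z.1 * Real.cos φ + z.2.1 * Real.sin φ, -z.1 * Real.sin φ + z.2.1 * Real.cos φ,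
    m + ((z.2.2.1 - m) * Real.cos φ + z.2.2.2 * Real.sin φ),
    -(z.2.2.1 - m) * Real.sin φ + z.2.2.2 * Real.cos φ)

lemma dd_rr (m φ : ℝ) (z : E4) : dd m (rr m φ z) = dd m z := by
  unfold dd rr
  simp only
  have := Real.sin_sq_add_cos_sq φ
  linear_combination (z.1 ^ 2 + z.2.1 ^ 2 + (z.2.2.1 - m) ^ 2 + z.2.2.2 ^ 2) * this

lemma rr_add (m φ ψ : ℝ) (z : E4) : rr m φ (rr m ψ z) = rr m (φ + ψ) z := by
  unfold rr
  simp only [Real.cos_add, Real.sin_add]
  refine Prod.ext ?_ (Prod.ext ?_ (Prod.ext ?_ ?_)) <;> simp only <;> ring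

lemma rr_zero (m : ℝ) (z : E4) : rr m 0 z = z := by
  simp [rr]

/-- the radial flow -/
noncomputable def TT (m : ℝ) (G : ℝ → ℝ) (τ : ℝ) (z : E4) : E4 :=
  rr m (2 * τ * deriv G (dd m z)) z

lemma dd_TT (m : ℝ) (G : ℝ → ℝ) (τ : ℝ) (z : E4) : dd m (TT m G τ z) = dd m z := dd_rr _ _ _

lemma TT_add (m : ℝ) (G : ℝ → ℝ) (σ τ : ℝ) (z : E4) :
    TT m G σ (TT m G τ z) = TT m G (σ + τ) z := by
  unfold TT
  rw [dd_rr, rr_add]
  congr 1
  ring

lemma TT_eq_self {m : ℝ} {G : ℝ → ℝ} {τ : ℝ} {z : E4} (h : deriv G (dd m z) = 0) :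
    TT m G τ z = z := by
  unfold TT; rw [h, mul_zero, rr_zero]

/-- extension of the squared distance to the whole manifold -/
noncomputable def NN (m : ℝ) (p : E4) : ℝ :=
  2 * ar (rad p) * (1 - p.2.2.1 / rad p) + (rad p - m) ^ 2 + p.2.2.2 ^ 2

lemma NN_VV {m : ℝ} {p : E4} (hp : p ∈ VV) : NN m p = dd m (ZZ p) := by
  unfold NN dd
  rw [ZZ_norm p hp]
  rfl

lemma NN_contDiffAt {m : ℝ} {p : E4} (hp : 0 < rad p) : ContDiffAt ℝ ∞ (NN m) p := by
  have hr := rad_contDiffAt hp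
  have ha : ContDiffAt ℝ ∞ (fun p => ar (rad p)) p := ar_contDiff.contDiffAt.comp p hr
  unfold NN
  exact (((contDiffAt_const.mul ha).mul (contDiffAt_const.sub
    (ContDiffAt.div (by fun_prop) hr hp.ne'))).add ((hr.sub contDiffAt_const).pow 2)).add
    (by fun_prop)

lemma NN_ge {m : ℝ} {p : E4} (hr : 0 < rad p) (hp : p ∉ VV) : 4 ≤ NN m p := by
  have h1 : ¬ (0 < rad p + p.2.2.1) := hp
  have h2 := abs_h_le_rad p
  rw [abs_le] at h2
  have h3 : p.2.2.1 = - rad p := by linarith [h2.1]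
  have h4 := one_le_ar (rad p)
  unfold NN
  rw [h3, neg_div, div_self hr.ne']
  nlinarith [sq_nonneg (rad p - m), sq_nonneg p.2.2.2]

open Classical in
/-- the radial flow on the manifold -/
noncomputable def TE (m : ℝ) (G : ℝ → ℝ) (τ : ℝ) (p : E4) : E4 :=
  if p ∈ VV then WW (TT m G τ (ZZ p)) else p

/-- hypotheses on the data of a radial flow -/
structure RadData (m : ℝ) (G : ℝ → ℝ) (R2 : ℝ) : Prop where
  smooth : ContDiff ℝ ∞ G
  zero : ∀ N, R2 ≤ N → deriv G N = 0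
  lt4 : R2 < 4
  pos : 0 < m
  ltm : R2 < m ^ 2

variable {m : ℝ} {G : ℝ → ℝ} {R2 : ℝ}

lemma TE_VV {τ : ℝ} {p : E4} (hp : p ∈ VV) : TE m G τ p = WW (TT m G τ (ZZ p)) := by
  simp [TE, hp]

lemma TE_not_VV {τ : ℝ} {p : E4} (hp : p ∉ VV) : TE m G τ p = p := by
  simp [TE, hp]

lemma TT_mem (h : RadData m G R2) {τ : ℝ} {z : E4} (hz : z ∈ DD) : TT m G τ z ∈ DD := by
  by_cases hN : R2 ≤ dd m z
  · rw [TT_eq_self (h.zero _ hN)]; exact hz
  · rw [not_le] at hN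
    have h1 := dd_TT m G τ z
    set z' := TT m G τ z
    have h2 : dd m z' < R2 := by rw [h1]; exact hN
    unfold dd at h2
    have h3 := h.ltm
    have h4 := h.pos
    constructor
    · have h5 : (z'.2.2.1 - m) ^ 2 < m ^ 2 := by
        nlinarith [sq_nonneg z'.1, sq_nonneg z'.2.1, sq_nonneg z'.2.2.2]
      have h6 := abs_lt_of_sq_lt_sq h5 h4.le
      rw [abs_lt] at h6
      linarith [h6.1]
    · have h5 := one_le_ar z'.2.2.1
      have h6 := h.lt4
      nlinarith [sq_nonneg (z'.2.2.1 - m), sq_nonneg z'.2.2.2]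

lemma TE_mem_VV (h : RadData m G R2) {τ : ℝ} {p : E4} (hp : p ∈ VV) : TE m G τ p ∈ VV := by
  rw [TE_VV hp]; exact WW_mem (TT_mem h (ZZ_mem hp))

lemma ZZ_TE (h : RadData m G R2) {τ : ℝ} {p : E4} (hp : p ∈ VV) :
    ZZ (TE m G τ p) = TT m G τ (ZZ p) := by
  rw [TE_VV hp]; exact ZZ_WW (TT_mem h (ZZ_mem hp))

lemma TE_add (h : RadData m G R2) (σ τ : ℝ) (p : E4) :
    TE m G σ (TE m G τ p) = TE m G (σ + τ) p := by
  by_cases hp : p ∈ VV
  · rw [TE_VV (TE_mem_VV h hp), ZZ_TE h hp, TT_add, TE_VV hp]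
  · rw [TE_not_VV hp, TE_not_VV hp, TE_not_VV hp]

lemma TE_eq_self {τ : ℝ} {p : E4} (h : deriv G (NN m p) = 0) : TE m G τ p = p := by
  by_cases hp : p ∈ VV
  · rw [TE_VV hp, TT_eq_self, WW_ZZ hp]
    rw [← NN_VV hp]; exact h
  · exact TE_not_VV hp

lemma TE_zero (p : E4) : TE m G 0 p = p := by
  by_cases hp : p ∈ VV
  · rw [TE_VV hp]
    unfold TT
    rw [mul_zero, zero_mul, rr_zero, WW_ZZ hp]
  · exact TE_not_VV hp

lemma NN_TE (h : RadData m G R2) (τ : ℝ) (p : E4) : NN m (TE m G τ p) = NN m p := by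
  by_cases hp : p ∈ VV
  · rw [NN_VV (TE_mem_VV h hp), ZZ_TE h hp, dd_TT, NN_VV hp]
  · rw [TE_not_VV hp]

/-- the flow commutes with rotations -/
lemma TT_RR (m : ℝ) (G : ℝ → ℝ) (τ t : ℝ) (z : E4) :
    TT m G τ (RR t z) = RR t (TT m G τ z) := by
  have h : dd m (RR t z) = dd m z := by
    unfold dd RR
    simp only
    have := Real.sin_sq_add_cos_sq t
    linear_combination (z.1 ^ 2 + z.2.1 ^ 2) * this
  unfold TT
  rw [h]
  unfold rr RR
  refine Prod.ext ?_ (Prod.ext ?_ (Prod.ext ?_ ?_)) <;> simp only <;> ring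

lemma TE_RR (τ t : ℝ) (p : E4) : TE m G τ (RR t p) = RR t (TE m G τ p) := by
  by_cases hp : p ∈ VV
  · rw [TE_VV (RR_VV.2 hp), TE_VV hp, ZZ_RR, TT_RR, WW_RR]
  · rw [TE_not_VV hp, TE_not_VV (fun h => hp (RR_VV.1 h))]

lemma TT_contDiff (h : RadData m G R2) : ContDiff ℝ ∞ (fun p : ℝ × E4 => TT m G p.1 p.2) := by
  have hG : ContDiff ℝ ∞ (deriv G) := by
    have := h.smooth
    rw [contDiff_infty_iff_deriv] at this
    exact this.2
  have hd : ContDiff ℝ ∞ (fun p : ℝ × E4 => dd m p.2) := by unfold dd; fun_prop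
  have h1 : ContDiff ℝ ∞ (fun p : ℝ × E4 => 2 * p.1 * deriv G (dd m p.2)) :=
    (contDiff_const.mul contDiff_fst).mul (hG.comp hd)
  have hc : ContDiff ℝ ∞ (fun p : ℝ × E4 => Real.cos (2 * p.1 * deriv G (dd m p.2))) :=
    Real.contDiff_cos.comp h1
  have hs : ContDiff ℝ ∞ (fun p : ℝ × E4 => Real.sin (2 * p.1 * deriv G (dd m p.2))) :=
    Real.contDiff_sin.comp h1
  have x1 : ContDiff ℝ ∞ (fun p : ℝ × E4 => p.2.1) := by fun_prop
  have x2 : ContDiff ℝ ∞ (fun p : ℝ × E4 => p.2.2.1) := by fun_prop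
  have x3 : ContDiff ℝ ∞ (fun p : ℝ × E4 => p.2.2.2.1 - m) := by fun_prop
  have x4 : ContDiff ℝ ∞ (fun p : ℝ × E4 => p.2.2.2.2) := by fun_prop
  unfold TT rr
  exact ((x1.mul hc).add (x2.mul hs)).prodMk (((x1.neg.mul hs).add (x2.mul hc)).prodMk
    ((contDiff_const.add ((x3.mul hc).add (x4.mul hs))).prodMk ((x3.neg.mul hs).add (x4.mul hc))))

lemma TE_contDiffOn (h : RadData m G R2) :
    ContDiffOn ℝ ∞ (fun p : ℝ × E4 => TE m G p.1 p.2) (univ ×ˢ XX) := by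
  rintro ⟨τ, p⟩ ⟨-, hp⟩
  apply ContDiffAt.contDiffWithinAt
  simp only at hp
  by_cases hV : p ∈ VV
  · have e : (fun q : ℝ × E4 => TE m G q.1 q.2) =ᶠ[𝓝 (τ, p)]
        fun q => WW (TT m G q.1 (ZZ q.2)) := by
      have : ∀ᶠ q : ℝ × E4 in 𝓝 (τ, p), q.2 ∈ VV :=
        continuous_snd.continuousAt.eventually_mem (VV_open.mem_nhds hV)
      filter_upwards [this] with q hq
      exact TE_VV hq
    refine ContDiffAt.congr_of_eventuallyEq ?_ e
    have h1 : ContDiffAt ℝ ∞ (fun q : ℝ × E4 => ZZ q.2) (τ, p) :=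
      ContDiffAt.comp (g := ZZ) (f := fun q : ℝ × E4 => q.2) (τ, p) (ZZ_contDiffAt hV) contDiffAt_snd
    have h2 : ContDiffAt ℝ ∞ (fun q : ℝ × E4 => ((q.1, ZZ q.2) : ℝ × E4)) (τ, p) :=
      contDiffAt_fst.prodMk h1
    have h3 : ContDiffAt ℝ ∞ (fun q : ℝ × E4 => TT m G q.1 (ZZ q.2)) (τ, p) :=
      ContDiffAt.comp (g := fun p : ℝ × E4 => TT m G p.1 p.2)
        (f := fun q : ℝ × E4 => ((q.1, ZZ q.2) : ℝ × E4)) (τ, p) (TT_contDiff h).contDiffAt h2
    exact ContDiffAt.comp (g := WW) (f := fun q : ℝ × E4 => TT m G q.1 (ZZ q.2)) (τ, p)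
      (WW_contDiffAt (TT_mem h (ZZ_mem hV))) h3
  · have hr := rad_pos_XX hp
    have hN : R2 < NN m p := lt_of_lt_of_le h.lt4 (NN_ge hr hV)
    have hc : ContinuousAt (fun q : ℝ × E4 => NN m q.2) (τ, p) :=
      ContinuousAt.comp (g := NN m) (f := fun q : ℝ × E4 => q.2)
        (NN_contDiffAt hr).continuousAt continuousAt_snd
    have e : (fun q : ℝ × E4 => TE m G q.1 q.2) =ᶠ[𝓝 (τ, p)] fun q => q.2 := by
      have : ∀ᶠ q : ℝ × E4 in 𝓝 (τ, p), R2 < NN m q.2 := hc.eventually_mem (Ioi_mem_nhds hN)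
      filter_upwards [this] with q hq
      exact TE_eq_self (h.zero _ hq.le)
    exact ContDiffAt.congr_of_eventuallyEq contDiffAt_snd e

lemma TE_mem_XX (h : RadData m G R2) {τ : ℝ} {p : E4} (hp : p ∈ XX) : TE m G τ p ∈ XX := by
  by_cases hV : p ∈ VV
  · exact Or.inl (TE_mem_VV h hV)
  · rw [TE_not_VV hV]; exact hp

/-- velocity of the radial rotation -/
noncomputable def yy (m g : ℝ) (z : E4) : E4 :=
  (2 * g * z.2.1, -(2 * g * z.1), 2 * g * z.2.2.2, -(2 * g * (z.2.2.1 - m)))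

lemma hasDerivAt_TT (m : ℝ) (G : ℝ → ℝ) (z : E4) (t : ℝ) :
    HasDerivAt (fun τ => TT m G τ z) (yy m (deriv G (dd m z)) (TT m G t z)) t := by
  set g := deriv G (dd m z)
  have h0 : HasDerivAt (fun τ : ℝ => 2 * τ * g) (2 * g) t := by
    have := ((hasDerivAt_id t).const_mul 2).mul_const g
    simpa using this
  have hc := h0.cos
  have hs := h0.sin
  have h1 := (hc.const_mul z.1).add (hs.const_mul z.2.1)
  have h2 := (hs.const_mul (-z.1)).add (hc.const_mul z.2.1)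
  have h3 := ((hc.const_mul (z.2.2.1 - m)).add (hs.const_mul z.2.2.2)).const_add m
  have h4 := (hs.const_mul (-(z.2.2.1 - m))).add (hc.const_mul z.2.2.2)
  have h5 := h1.prodMk (h2.prodMk (h3.prodMk h4))
  refine HasDerivAt.congr_deriv h5 ?_
  unfold yy TT rr
  refine Prod.ext ?_ (Prod.ext ?_ (Prod.ext ?_ ?_)) <;> simp only <;> ring

lemma hamPath_TE (h : RadData m G R2) :
    HamPath XX OO (TE m G) (fun t => TE m G (-t)) (fun _ p => G (NN m p)) := by
  have hi : ContDiffOn ℝ ∞ (fun p : ℝ × E4 => TE m G (-p.1) p.2) (univ ×ˢ XX) :=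
    (TE_contDiffOn h).comp (contDiff_fst.neg.prodMk contDiff_snd).contDiffOn
      (fun q hq => ⟨mem_univ _, hq.2⟩)
  refine HamPath.mk' symplectic_XX (TE_contDiffOn h) hi ?_ ?_ ?_ ?_ ?_ ?_ ?_
  · rintro ⟨t, p⟩ ⟨-, hp⟩
    have h1 : ContDiffAt ℝ ∞ (fun q : ℝ × E4 => NN m q.2) (t, p) :=
      ContDiffAt.comp (g := NN m) (f := fun q : ℝ × E4 => q.2) (t, p)
        (NN_contDiffAt (rad_pos_XX hp)) contDiffAt_snd
    exact (h.smooth.contDiffAt.comp (t, p) h1).contDiffWithinAt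
  · intro t x hx; exact TE_mem_XX h hx
  · intro t x hx; exact TE_mem_XX h hx
  · intro t x hx; simp only [TE_add h, neg_add_cancel, TE_zero]
  · intro t x hx; simp only [TE_add h, add_neg_cancel, TE_zero]
  · intro t x hx w
    have hGd : HasDerivAt G (deriv G (NN m (TE m G t x))) (NN m (TE m G t x)) :=
      (h.smooth.differentiable (by simp)).differentiableAt.hasDerivAt
    have hx' := TE_mem_XX h (τ := t) hx
    have hNd : HasFDerivAt (NN m) (fderiv ℝ (NN m) (TE m G t x)) (TE m G t x) :=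
      ((NN_contDiffAt (rad_pos_XX hx')).differentiableAt (by simp)).hasFDerivAt
    have hGN : HasFDerivAt (fun p => G (NN m p)) (deriv G (NN m (TE m G t x)) •
        fderiv ℝ (NN m) (TE m G t x)) (TE m G t x) := hGd.comp_hasFDerivAt _ hNd
    rw [hGN.fderiv]
    by_cases hV : x ∈ VV
    · have hV' := TE_mem_VV h (τ := t) hV
      set y := TE m G t x with hy
      have hder : HasDerivAt (fun τ => TE m G τ x) (deriv (fun τ => TE m G τ x) t) t :=
        (joint_time (joint_contDiffAt XX_open (TE_contDiffOn h) t hx)).differentiableAt.hasDerivAt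
      have hZ : HasFDerivAt ZZ (fderiv ℝ ZZ y) (TE m G t x) :=
        ((ZZ_contDiffAt hV').differentiableAt (by simp)).hasFDerivAt
      have h1 := HasFDerivAt.comp_hasDerivAt (f := fun τ => TE m G τ x) t hZ hder
      have h2 : HasDerivAt (ZZ ∘ fun τ => TE m G τ x) (yy m (deriv G (dd m (ZZ x)))
          (TT m G t (ZZ x))) t := by
        have e : (ZZ ∘ fun τ => TE m G τ x) = fun τ => TT m G τ (ZZ x) := by
          ext1 τ; exact ZZ_TE h hV
        rw [e]; exact hasDerivAt_TT m G (ZZ x) t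
      have h3 := h1.unique h2
      rw [OO_apply_VV hV', h3, om0_apply]
      obtain ⟨d1, d2, d3, d4⟩ := ZZ_comp_hasFDerivAt hV'
      have e : NN m =ᶠ[𝓝 y] fun p => (ZZ p).1 ^ 2 + (ZZ p).2.1 ^ 2 + ((ZZ p).2.2.1 - m) ^ 2 +
          (ZZ p).2.2.2 ^ 2 := by
        filter_upwards [VV_open.mem_nhds hV'] with q hq
        rw [NN_VV hq]; rfl
      have hh : HasFDerivAt (fun p => (ZZ p).1 ^ 2 + (ZZ p).2.1 ^ 2 + ((ZZ p).2.2.1 - m) ^ 2 +
          (ZZ p).2.2.2 ^ 2) _ y :=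
        (((d1.pow 2).add (d2.pow 2)).add ((d3.sub_const m).pow 2)).add (d4.pow 2)
      have hNy := hh.congr_of_eventuallyEq e
      rw [hNy.fderiv]
      have hz : ZZ y = TT m G t (ZZ x) := ZZ_TE h hV
      have hN : NN m y = dd m (ZZ x) := by rw [NN_TE h, NN_VV hV]
      rw [hN, ← hz]
      simp only [yy, _root_.smul_apply, _root_.add_apply, ContinuousLinearMap.comp_apply, c1_apply,
        c2_apply, c3_apply, c4_apply, smul_eq_mul]
      simp
      ring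
    · have hc : (fun τ => TE m G τ x) = fun _ => x := by
        ext1 τ; exact TE_not_VV hV
      rw [hc, deriv_const, map_zero]
      have hN : R2 ≤ NN m (TE m G t x) := by
        rw [TE_not_VV hV]
        exact (lt_of_lt_of_le h.lt4 (NN_ge (rad_pos_XX hx) hV)).le
      rw [h.zero _ hN]
      simp
  · intro x hx; exact TE_zero x

end Pool.Agent.H844R2
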